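import Mathlib
import Pool.Agent.N752.HY.Low2
import Pool.Agent.N752.HY.Pts
import Pool.Agent.N752.HY.Rep2

/-!
# Counting the elements of a number field by the height
-/

set_option autoImplicit false
set_option linter.unusedSectionVars false

open Height NumberField
open scoped LinearAlgebra.Projectivization

namespace Pool.Agent.U47.QE

variable (K : Type) [Field K] [NumberField K]

lemma vec_ne {K : Type} [Field K] (l : K) : ![l, 1] ≠ 0 := by
  intro h
  have := congrFun h 1
  simp at this

theorem cntU : ∃ C : ℝ, 0 ≤ C ∧ ∀ X : ℝ,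
    (({l : K | logHeight₁ l ≤ X}.ncard : ℕ) : ℝ) ≤ C * Real.exp (2 * X) := by
  classical
  obtain ⟨C, hC1, hC⟩ := Pool.Agent.N752.HY.Pts.t_PTS Pool.Agent.N752.HY.Rep2.t_REP K inferInstance
    inferInstance (Module.finrank ℚ K) 1 Module.finrank_pos 1 one_pos
  refine ⟨C, by linarith, fun X => ?_⟩
  rcases lt_or_ge X 0 with hX | hX
  · have : {l : K | logHeight₁ l ≤ X} = ∅ := by
      rw [Set.eq_empty_iff_forall_notMem]
      intro l hl
      have h1 : logHeight₁ l ≤ X := hl
      have h2 := zero_le_logHeight₁ l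
      linarith
    rw [this, Set.ncard_empty, Nat.cast_zero]
    have := Real.exp_pos (2 * X)
    nlinarith
  · have hfin : {l : K | logHeight₁ l ≤ X}.Finite := NumberField.finite_setOfPred_logHeight₁_le K X
    let f : K → ℙ K (Fin (1 + 1) → K) := fun l => Projectivization.mk K ![l, 1] (vec_ne l)
    have hf : Function.Injective f := by
      intro l l' h
      rw [Projectivization.mk_eq_mk_iff'] at h
      obtain ⟨c, hc⟩ := h
      have h1 := congrFun hc 0
      have h2 := congrFun hc 1
      simp at h1 h2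
      rw [h2, one_mul] at h1
      exact h1.symm
    have h1 := hC K inferInstance inferInstance inferInstance rfl (Real.exp X)
      (Real.one_le_exp hX) (hfin.toFinset.image f) (by
        intro Q hQ
        rw [Finset.mem_image] at hQ
        obtain ⟨l, hl, rfl⟩ := hQ
        rw [Set.Finite.mem_toFinset] at hl
        have hl' : logHeight₁ l ≤ X := hl
        constructor
        · rw [Projectivization.mulHeight_mk, ← mulHeight₁_eq_mulHeight,
            ← Real.log_le_log_iff (mulHeight₁_pos l) (Real.exp_pos X), Real.log_exp]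
          exact hl'
        · rw [eq_top_iff]
          intro z _
          have hne := (f l).rep_nonzero
          obtain ⟨i, hi⟩ := Function.ne_iff.1 hne
          have h3 : (f l).rep i ∈ Submodule.span K (Set.range (f l).rep) :=
            Submodule.subset_span ⟨i, rfl⟩
          have h4 := Submodule.smul_mem _ (z * ((f l).rep i)⁻¹) h3
          rw [smul_eq_mul, mul_assoc, inv_mul_cancel₀ hi, mul_one] at h4
          exact h4)
    rw [Finset.card_image_of_injective _ hf, ← Set.ncard_eq_toFinset_card _ hfin] at h1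
    have h2 : Real.exp X ^ (1 + 1) = Real.exp (2 * X) := by
      rw [← Real.exp_nat_mul]
      norm_num
    rw [h2] at h1
    have h3 : √|(discr K : ℝ)| ^ ((1 : ℝ) - ((1 : ℕ) : ℝ)) = 1 := by
      rw [Nat.cast_one, sub_self, Real.rpow_zero]
    rw [h3, mul_one] at h1
    exact h1

theorem cntL : ∃ c X₀ : ℝ, 0 < c ∧ ∀ X : ℝ, X₀ ≤ X →
    c * Real.exp (2 * X) ≤ (({l : K | logHeight₁ l ≤ X}.ncard : ℕ) : ℝ) := by
  classical
  obtain ⟨c, B₀, hc, hlow⟩ := Pool.Agent.N752.HY.Low2.t_LOW K inferInstance inferInstance 1 le_rfl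
  obtain ⟨n, hn⟩ : ∃ n, n = Module.finrank ℚ K := ⟨_, rfl⟩
  rw [← hn] at hlow
  have hn0 : 0 < n := by rw [hn]; exact Module.finrank_pos
  have hn0' : (0 : ℝ) < n := by exact_mod_cast hn0
  refine ⟨c / 2, max (n * Real.log (max B₀ 1)) (Real.log (2 / c) / 2), by positivity,
    fun X hX => ?_⟩
  have hB : B₀ ≤ Real.exp (X / n) := by
    have h1 : n * Real.log (max B₀ 1) ≤ X := (le_max_left _ _).trans hX
    have h2 : Real.log (max B₀ 1) ≤ X / n := by
      rw [le_div_iff₀ hn0']
      linarith
    have h3 : max B₀ 1 ≤ Real.exp (X / n) := by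
      rw [← Real.log_le_iff_le_exp (lt_max_of_lt_right one_pos)]
      exact h2
    exact (le_max_left _ _).trans h3
  obtain ⟨F, hF1, hF2⟩ := hlow _ hB
  have he : Real.exp (X / n) ^ n = Real.exp X := by
    rw [← Real.exp_nat_mul]
    congr 1
    field_simp
  rw [pow_mul, he] at hF2
  have he2 : Real.exp X ^ (1 + 1) = Real.exp (2 * X) := by
    rw [← Real.exp_nat_mul]
    norm_num
  rw [he2] at hF2
  simp only [he] at hF1
  have hfin : {l : K | logHeight₁ l ≤ X}.Finite := NumberField.finite_setOfPred_logHeight₁_le K X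
  -- the points with nonzero second coordinate
  have h1 : (F.filter fun Q => Q.rep 1 ≠ 0).card ≤ {l : K | logHeight₁ l ≤ X}.ncard := by
    rw [← Set.ncard_coe_finset]
    refine Set.ncard_le_ncard_of_injOn (fun Q => Q.rep 0 / Q.rep 1) ?_ ?_ hfin
    · intro Q hQ
      rw [Finset.mem_coe, Finset.mem_filter] at hQ
      have h2 := hF1 Q hQ.1
      have h3 : logHeight₁ (Q.rep 0 / Q.rep 1) = logHeight Q.rep := by
        rw [logHeight₁_div_eq_logHeight]
        congr 1
        funext i
        fin_cases i <;> rfl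
      have h4 : Q.mulHeight = mulHeight Q.rep := by
        conv_lhs => rw [← Q.mk_rep]
        rw [Projectivization.mulHeight_mk]
      rw [h4] at h2
      change logHeight₁ (Q.rep 0 / Q.rep 1) ≤ X
      rw [h3, logHeight_eq_log_mulHeight, Real.log_le_iff_le_exp (mulHeight_pos _)]
      exact h2
    · intro Q hQ Q' hQ' h
      rw [Finset.mem_coe, Finset.mem_filter] at hQ hQ'
      have h5 : Q.rep 0 / Q.rep 1 = Q'.rep 0 / Q'.rep 1 := h
      rw [← Q.mk_rep, ← Q'.mk_rep, Projectivization.mk_eq_mk_iff']
      refine ⟨Q.rep 1 / Q'.rep 1, ?_⟩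
      rw [div_eq_div_iff hQ.2 hQ'.2] at h5
      funext i
      have h6 := hQ.2
      have h7 := hQ'.2
      fin_cases i
      · simp only [Fin.zero_eta, Pi.smul_apply, smul_eq_mul]
        field_simp
        linear_combination -h5
      · simp only [Fin.mk_one, Pi.smul_apply, smul_eq_mul]
        field_simp
  have h2 : (F.filter fun Q => ¬ Q.rep 1 ≠ 0).card ≤ 1 := by
    rw [Finset.card_le_one]
    intro Q hQ Q' hQ'
    rw [Finset.mem_filter] at hQ hQ'
    have h3 : Q.rep 1 = 0 := not_not.1 hQ.2
    have h4 : Q'.rep 1 = 0 := not_not.1 hQ'.2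
    have h5 : Q.rep 0 ≠ 0 := by
      intro h
      apply Q.rep_nonzero
      funext i
      fin_cases i
      · exact h
      · exact h3
    have h6 : Q'.rep 0 ≠ 0 := by
      intro h
      apply Q'.rep_nonzero
      funext i
      fin_cases i
      · exact h
      · exact h4
    rw [← Q.mk_rep, ← Q'.mk_rep, Projectivization.mk_eq_mk_iff']
    refine ⟨Q.rep 0 / Q'.rep 0, ?_⟩
    funext i
    fin_cases i
    · simp only [Fin.zero_eta, Pi.smul_apply, smul_eq_mul]
      field_simp
    · simp only [Fin.mk_one, Pi.smul_apply, smul_eq_mul]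
      rw [h3, h4, mul_zero]
  have h3 := Finset.card_filter_add_card_filter_not (s := F) (fun Q => Q.rep 1 ≠ 0)
  have h4 : (F.card : ℝ) ≤ (({l : K | logHeight₁ l ≤ X}.ncard : ℕ) : ℝ) + 1 := by
    have : F.card ≤ {l : K | logHeight₁ l ≤ X}.ncard + 1 := by omega
    exact_mod_cast this
  have h5 : 1 ≤ c / 2 * Real.exp (2 * X) := by
    have h6 : Real.log (2 / c) / 2 ≤ X := (le_max_right _ _).trans hX
    have h7 : 2 / c ≤ Real.exp (2 * X) := by
      rw [← Real.log_le_iff_le_exp (by positivity)]
      linarith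
    rw [div_le_iff₀ hc] at h7
    linarith
  linarith

end Pool.Agent.U47.QE
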