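import Mathlib
import Pool.Agent.TH910.LS.UDup
import Pool.Agent.N572.DR.Inv

/-!
# The parallelogram law for the naive height, uniformly in the number field
-/

set_option autoImplicit false
set_option linter.unusedSectionVars false

open WeierstrassCurve Height NumberField Pool.Agent.TH942 Pool.Agent.TH910.LS

namespace Pool.Agent.U47.QE

section lin

variable {K : Type} [Field K] [NumberField K]

/-- linear maps with integral coefficients -/
lemma lin_height {ι ι' : Type} [Fintype ι] [Fintype ι'] (B : ι' × ι → 𝓞 K) :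
    ∃ c : ℝ, 0 ≤ c ∧ ∀ (L : Type) [Field L] [NumberField L] [Algebra K L] (w : ι → L),
      logHeight (fun j => ∑ i, algebraMap K L (B (j, i) : K) * w i) ≤
        c * totalWeight L + logHeight w := by
  obtain ⟨c, hc, h⟩ := int_height B
  refine ⟨c + Real.log (Nat.card ι), by positivity, fun L _ _ _ w => ?_⟩
  have h1 := logHeight_linearMap_apply_le (fun a => algebraMap K L (B a : K)) w
  have h2 := h L
  linarith

/-- the symmetric product -/
def sy {L : Type} [Field L] (v w : Fin 2 → L) : Fin 3 → L :=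
  ![v 0 * w 0, v 0 * w 1 + v 1 * w 0, v 1 * w 1]

/-- the tensor product -/
def tn {L : Type} [Field L] (v w : Fin 2 → L) : Fin 2 × Fin 2 → L := fun a => v a.1 * w a.2

def sB {R : Type} [CommRing R] : Fin 3 × (Fin 2 × Fin 2) → R := fun a =>
  if a = (0, (0, 0)) ∨ a = (1, (0, 1)) ∨ a = (1, (1, 0)) ∨ a = (2, (1, 1)) then 1 else 0

variable (K) in
lemma sy_le : ∃ c : ℝ, 0 ≤ c ∧ ∀ (L : Type) [Field L] [NumberField L] [Algebra K L]
    (v w : Fin 2 → L), v ≠ 0 → w ≠ 0 →
      logHeight (sy v w) ≤ c * totalWeight L + logHeight v + logHeight w := by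
  obtain ⟨c, hc, h⟩ := lin_height (K := K) (sB (R := 𝓞 K))
  refine ⟨c, hc, fun L _ _ _ v w hv hw => ?_⟩
  have h1 := h L (tn v w)
  have h2 : logHeight (tn v w) = logHeight v + logHeight w := logHeight_fun_mul_eq hv hw
  have h3 : (fun j => ∑ i, algebraMap K L (sB (R := 𝓞 K) (j, i) : K) * tn v w i) = sy v w := by
    funext j
    fin_cases j <;> simp [sB, tn, sy, Fintype.sum_prod_type]
  rw [h3, h2] at h1
  linarith

/-- coefficients for the lower bound -/
def sA {R : Type} [CommRing R] : ((Fin 2 × Fin 2) × Fin 3) × (Fin 2 × Fin 2) → R := fun a =>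
  if a = (((0, 0), 0), (0, 0)) ∨ a = (((0, 1), 1), (0, 1)) ∨ a = (((1, 0), 1), (1, 0)) ∨
    a = (((1, 1), 2), (1, 1)) then 1
  else if a = (((0, 1), 2), (0, 0)) ∨ a = (((1, 0), 2), (0, 0)) then -1 else 0

variable (K) in
lemma sy_ge : ∃ c : ℝ, 0 ≤ c ∧ ∀ (L : Type) [Field L] [NumberField L] [Algebra K L]
    (v w : Fin 2 → L), v ≠ 0 → w ≠ 0 →
      logHeight v + logHeight w ≤ c * totalWeight L + logHeight (sy v w) := by
  obtain ⟨c, hc, h⟩ := lin_height (K := K) (sA (R := 𝓞 K))
  refine ⟨c + Real.log 3, by positivity, fun L _ _ _ v w hv hw => ?_⟩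
  have h1 := h L (tn v w)
  have h2 : logHeight (tn v w) = logHeight v + logHeight w := logHeight_fun_mul_eq hv hw
  have h3 := logHeight_linearMap_apply_le
    (fun j => ∑ i, algebraMap K L (sA (R := 𝓞 K) (j, i) : K) * tn v w i) (sy v w)
  have h4 : (fun j => ∑ i, (fun j => ∑ i, algebraMap K L (sA (R := 𝓞 K) (j, i) : K) * tn v w i)
      (j, i) * sy v w i) = tn v w ^ 2 := by
    funext j
    obtain ⟨j1, j2⟩ := j
    fin_cases j1 <;> fin_cases j2 <;>
      simp [sA, tn, sy, Fintype.sum_prod_type, Fin.sum_univ_three] <;> ring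
  rw [h4, logHeight_pow] at h3
  have h5 : Nat.card (Fin 3) = 3 := by simp
  rw [h5] at h3
  push_cast at h3
  linarith

/-- the addition and subtraction map -/
def ad {L : Type} [Field L] (a b : L) (x : Fin 3 → L) : Fin 3 → L :=
  ![x 0 ^ 2 - 2 * a * x 0 * x 2 - 4 * b * x 1 * x 2 + a ^ 2 * x 2 ^ 2,
    2 * x 1 * x 0 + 2 * a * x 1 * x 2 + 4 * b * x 2 ^ 2, x 1 ^ 2 - 4 * x 0 * x 2]

def aB {R : Type} [CommRing R] (a b : R) : Fin 3 × (Fin 3 × Fin 3) → R := fun m =>
  if m = (0, (0, 0)) then 1 else if m = (0, (0, 2)) then -2 * a else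
  if m = (0, (1, 2)) then -4 * b else if m = (0, (2, 2)) then a ^ 2 else
  if m = (1, (1, 0)) then 2 else if m = (1, (1, 2)) then 2 * a else
  if m = (1, (2, 2)) then 4 * b else if m = (2, (1, 1)) then 1 else
  if m = (2, (0, 2)) then -4 else 0

lemma ad_le (a b : 𝓞 K) : ∃ c : ℝ, 0 ≤ c ∧ ∀ (L : Type) [Field L] [NumberField L] [Algebra K L]
    (x : Fin 3 → L), x ≠ 0 →
      logHeight (ad (algebraMap K L a) (algebraMap K L b) x) ≤
        c * totalWeight L + 2 * logHeight x := by
  obtain ⟨c, hc, h⟩ := lin_height (K := K) (aB a b)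
  refine ⟨c, hc, fun L _ _ _ x hx => ?_⟩
  have h1 := h L (fun a : Fin 3 × Fin 3 => x a.1 * x a.2)
  have h2 : logHeight (fun a : Fin 3 × Fin 3 => x a.1 * x a.2) = logHeight x + logHeight x :=
    logHeight_fun_mul_eq hx hx
  have h3 : (fun j => ∑ i, algebraMap K L ((aB a b (j, i) : 𝓞 K) : K) * (x i.1 * x i.2)) =
        ad (algebraMap K L a) (algebraMap K L b) x := by
    funext j
    fin_cases j <;> simp [aB, ad, Fintype.sum_prod_type, Fin.sum_univ_three, map_ofNat] <;> ring
  rw [h3, h2] at h1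
  linarith

end lin

section law

variable {K : Type} [Field K] [NumberField K]

lemma disc_ne {a b : 𝓞 K} (hab : 4 * (a : K) ^ 3 + 27 * (b : K) ^ 2 ≠ 0) (F : Type) [Field F]
    [Algebra K F] : 4 * (algebraMap K F a) ^ 3 + 27 * (algebraMap K F b) ^ 2 ≠ 0 := by
  have h1 : algebraMap K F (4 * (a : K) ^ 3 + 27 * (b : K) ^ 2) ≠ 0 := by
    rw [ne_eq, map_eq_zero]
    exact hab
  rw [map_add, map_mul, map_mul, map_pow, map_pow, map_ofNat, map_ofNat] at h1
  exact h1

/-- upper bound in the parallelogram law -/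
theorem par_le (a b : 𝓞 K) (hab : 4 * (a : K) ^ 3 + 27 * (b : K) ^ 2 ≠ 0) : ∃ C : ℝ, 0 ≤ C ∧
    ∀ (L : Type) [Field L] [NumberField L] [Algebra K L] [DecidableEq L]
      (P Q : SPt (algebraMap K L a) (algebraMap K L b)),
      sht (P + Q) + sht (P - Q) ≤ 2 * (sht P + sht Q) + C * totalWeight L := by
  obtain ⟨c1, hc1, h1⟩ := sy_le K
  obtain ⟨c2, hc2, h2⟩ := sy_ge K
  obtain ⟨c3, hc3, h3⟩ := ad_le a b
  refine ⟨2 * c1 + c2 + c3, by positivity, fun L _ _ _ _ P Q => ?_⟩
  obtain ⟨k, hk, e⟩ := saddSub_sym2x (disc_ne hab L) P Q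
  have hs : ∀ R R' : SPt (algebraMap K L a) (algebraMap K L b),
      R.sym2x R' = sy R.xRep R'.xRep := fun R R' => rfl
  have hne : ∀ R : SPt (algebraMap K L a) (algebraMap K L b), R.xRep ≠ 0 := fun R => R.xRep_ne_zero
  have e2 : (fun i ↦ (addSubMap (sw (algebraMap K L a) (algebraMap K L b)) i).eval (P.sym2x Q)) =
      ad (algebraMap K L a) (algebraMap K L b) (P.sym2x Q) := by
    have e3 : P.sym2x Q = ![P.sym2x Q 0, P.sym2x Q 1, P.sym2x Q 2] := by
      ext i
      fin_cases i <;> rfl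
    rw [e3, seval_addSub]
    rfl
  rw [e2] at e
  have hsne : P.sym2x Q ≠ 0 := by
    intro h0
    have h4 : k • (P + Q).sym2x (P - Q) = 0 := by
      rw [← e, h0]
      ext i
      fin_cases i <;> simp [ad]
    have h5 : (P + Q).sym2x (P - Q) = 0 := by
      rcases smul_eq_zero.1 h4 with h | h
      · exact absurd h hk
      · exact h
    have e4 := congrFun h0 0
    have e5 := congrFun h0 2
    have e6 := congrFun h0 1
    have f1 := hne P
    have f2 := hne Q
    have g0 : P.xRep 0 * Q.xRep 0 = 0 := e4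
    have g1 : P.xRep 0 * Q.xRep 1 + P.xRep 1 * Q.xRep 0 = 0 := e6
    have g2 : P.xRep 1 * Q.xRep 1 = 0 := e5
    rcases mul_eq_zero.1 g0 with g | g
    · rw [g, zero_mul, zero_add] at g1
      have : P.xRep 1 ≠ 0 := by
        intro h
        apply f1
        ext i
        fin_cases i
        · exact g
        · exact h
      apply f2
      ext i
      fin_cases i
      · exact (mul_eq_zero.1 g1).resolve_left this
      · exact (mul_eq_zero.1 g2).resolve_left this
    · rw [g, mul_zero, add_zero] at g1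
      have : Q.xRep 1 ≠ 0 := by
        intro h
        apply f2
        ext i
        fin_cases i
        · exact g
        · exact h
      apply f1
      ext i
      fin_cases i
      · exact (mul_eq_zero.1 g1).resolve_right this
      · exact (mul_eq_zero.1 g2).resolve_right this
  have i1 := h3 L (P.sym2x Q) hsne
  rw [e, logHeight_smul_eq_logHeight _ hk] at i1
  have i2 := h1 L P.xRep Q.xRep (hne P) (hne Q)
  have i3 := h2 L (P + Q).xRep (P - Q).xRep (hne _) (hne _)
  rw [← hs] at i2 i3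
  have j1 : sht P = logHeight P.xRep := rfl
  have j2 : sht Q = logHeight Q.xRep := rfl
  have j3 : sht (P + Q) = logHeight (P + Q).xRep := rfl
  have j4 : sht (P - Q) = logHeight (P - Q).xRep := rfl
  rw [j1, j2, j3, j4]
  linarith

/-- lower bound in the parallelogram law -/
theorem par_ge (a b : 𝓞 K) (hab : 4 * (a : K) ^ 3 + 27 * (b : K) ^ 2 ≠ 0) : ∃ C : ℝ, 0 ≤ C ∧
    ∀ (L : Type) [Field L] [NumberField L] [Algebra K L] [DecidableEq L]
      (P Q : SPt (algebraMap K L a) (algebraMap K L b)),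
      2 * (sht P + sht Q) ≤ sht (P + Q) + sht (P - Q) + C * totalWeight L := by
  obtain ⟨c1, hc1, h1⟩ := par_le a b hab
  obtain ⟨c2, hc2, h2⟩ := udup a b hab
  refine ⟨c1 + c2, by positivity, fun L _ _ _ _ P Q => ?_⟩
  have i1 := h1 L (P + Q) (P - Q)
  have i2 := h2 L P
  have i3 := h2 L Q
  have e1 : P + Q + (P - Q) = P + P := by abel
  have e2 : P + Q - (P - Q) = Q + Q := by abel
  rw [e1, e2] at i1
  have : (0 : ℝ) ≤ totalWeight L := Nat.cast_nonneg _
  nlinarith

end law

end Pool.Agent.U47.QE
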