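import Mathlib
import Pool.Agent.U47.QE.Hts

/-!
# Points of a curve over extensions, quadratic points
-/

set_option autoImplicit false
set_option linter.unusedSectionVars false

open WeierstrassCurve Height NumberField Pool.Agent.TH942 Pool.Agent.TH910.LS

namespace Pool.Agent.U47.QE

open scoped Classical

section functor

variable {K : Type} [Field K] (a b : K)

/-- the points of `y² = x³ + a x + b` over an extension -/
abbrev EP (F : Type) [Field F] [Algebra K F] : Type := SPt (algebraMap K F a) (algebraMap K F b)

lemma swbc (F : Type) [Field F] [Algebra K F] : ((sw a b).baseChange F).toAffine =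
    (sw (algebraMap K F a) (algebraMap K F b)).toAffine := by
  apply WeierstrassCurve.ext <;> simp [sw, WeierstrassCurve.baseChange, WeierstrassCurve.map]

/-- transport along an equality of curves -/
noncomputable def tr {F : Type} [Field F] {W W' : WeierstrassCurve.Affine F} (h : W = W') :
    W.Point ≃+ W'.Point := by
  subst h
  exact AddEquiv.refl _

lemma tr_some {F : Type} [Field F] {W W' : WeierstrassCurve.Affine F} (h : W = W') {x y : F}
    (hx : W.Nonsingular x y) :
    tr h (Affine.Point.some x y hx) = Affine.Point.some x y (h ▸ hx) := by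
  subst h
  rfl

variable {F F' F'' : Type} [Field F] [Field F'] [Field F''] [Algebra K F] [Algebra K F']
  [Algebra K F'']

/-- the map on points -/
noncomputable def mp (f : F →ₐ[K] F') : EP a b F →+ EP a b F' :=
  (tr (swbc a b F')).toAddMonoidHom.comp
    ((Affine.Point.map (W' := (sw a b).toAffine) (S := K) f).comp
      (tr (swbc a b F).symm).toAddMonoidHom)

variable {a b}

lemma mp_ns (f : F →ₐ[K] F') {x y : F}
    (h : (sw (algebraMap K F a) (algebraMap K F b)).toAffine.Nonsingular x y) :
    (sw (algebraMap K F' a) (algebraMap K F' b)).toAffine.Nonsingular (f x) (f y) := by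
  have h1 : ((sw a b).baseChange F).toAffine.Nonsingular x y := by
    rw [swbc]
    exact h
  have h2 : ((sw a b).baseChange F').toAffine.Nonsingular (f x) (f y) :=
    ((sw a b).toAffine.baseChange_nonsingular (S := K) f.injective x y).2 h1
  rw [swbc] at h2
  exact h2

lemma mp_some (f : F →ₐ[K] F') {x y : F}
    (h : (sw (algebraMap K F a) (algebraMap K F b)).toAffine.Nonsingular x y) :
    mp a b f (Affine.Point.some x y h) = Affine.Point.some (f x) (f y) (mp_ns f h) := by
  change tr (swbc a b F') (Affine.Point.map (W' := (sw a b).toAffine) (S := K) f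
    (tr (swbc a b F).symm (Affine.Point.some x y h))) = _
  rw [tr_some, Affine.Point.map_some, tr_some]

lemma mp_inj (f : F →ₐ[K] F') : Function.Injective (mp a b f) := by
  intro P Q h
  have h1 := (tr (swbc a b F')).injective h
  have h2 := Affine.Point.map_injective (W' := (sw a b).toAffine) f h1
  exact (tr (swbc a b F).symm).injective h2

lemma mp_mp (f : F →ₐ[K] F') (g : F' →ₐ[K] F'') (P : EP a b F) :
    mp a b g (mp a b f P) = mp a b (g.comp f) P := by
  match P with
  | 0 => simp
  | .some x y h => rw [mp_some, mp_some, mp_some]; rfl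

end functor

section heights

variable {K : Type} [Field K] [NumberField K]

lemma ht_hom {L M : Type} [Field L] [NumberField L] [Field M] [NumberField M] (f : L →+* M)
    (x : L) : Module.finrank ℚ L * logHeight₁ (f x) = Module.finrank ℚ M * logHeight₁ x := by
  let _ : Algebra L M := f.toAlgebra
  have h := Pool.Agent.N572.DR.Inv.ht_ext (L := L) (M := M) x
  have h1 : algebraMap L M x = f x := rfl
  rw [h1] at h
  rw [h, ← mul_assoc]
  congr 1
  exact_mod_cast Module.finrank_mul_finrank ℚ L M

variable {a b : K} {L M : Type} [Field L] [NumberField L] [Algebra K L] [Field M] [NumberField M]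
  [Algebra K M]

lemma sht_some {x y : L}
    (h : (sw (algebraMap K L a) (algebraMap K L b)).toAffine.Nonsingular x y) :
    sht (Affine.Point.some x y h : EP a b L) = logHeight₁ x := by
  rw [sht, Affine.Point.xRep_some, ← logHeight₁_eq_logHeight]

lemma sht_mp (f : L →ₐ[K] M) (P : EP a b L) :
    Module.finrank ℚ L * sht (mp a b f P) = Module.finrank ℚ M * sht P := by
  match P with
  | 0 =>
    rw [map_zero]
    have h1 : sht (0 : EP a b L) = 0 := sht_zero
    have h2 : sht (0 : EP a b M) = 0 := sht_zero
    rw [h1, h2, mul_zero, mul_zero]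
  | .some x y h =>
    rw [mp_some, sht_some, sht_some]
    exact ht_hom (f : L →+* M) x

lemma sht_aut (s : L ≃ₐ[K] L) (P : EP a b L) : sht (mp a b (s : L →ₐ[K] L) P) = sht P := by
  have h := sht_mp (s : L →ₐ[K] L) P
  have h1 : (0 : ℝ) < Module.finrank ℚ L := by exact_mod_cast Module.finrank_pos
  exact mul_left_cancel₀ h1.ne' h

end heights

end Pool.Agent.U47.QE
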