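import Mathlib
import Pool.Agent.U47.QE.Pts

/-!
# The parameter of a quadratic point with given trace
-/

set_option autoImplicit false
set_option linter.unusedSectionVars false

open WeierstrassCurve Height NumberField Pool.Agent.TH942 Pool.Agent.TH910.LS

namespace Pool.Agent.U47.QE

open scoped Classical

section conj

variable {K L : Type} [Field K] [Field L] [Algebra K L]

/-- `σ` is the conjugation of the quadratic extension `L` of `K` -/
structure Cj (σ : L ≃ₐ[K] L) : Prop where
  deg : Module.finrank K L = 2
  fix : ∀ z, σ z = z ↔ z ∈ Set.range (algebraMap K L)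
  inv : ∀ z, σ (σ z) = z

lemma exists_conj [CharZero K] (h : Module.finrank K L = 2) : ∃ σ : L ≃ₐ[K] L, Cj σ := by
  have : Algebra.IsQuadraticExtension K L := { finrank_eq_two' := h }
  have : FiniteDimensional K L := Module.finite_of_finrank_pos (by rw [h]; norm_num)
  have hg : IsGalois K L := inferInstance
  have hc : Nat.card (L ≃ₐ[K] L) = 2 := by
    rw [← h]
    exact IsGalois.card_aut_eq_finrank K L
  obtain ⟨σ, hσ⟩ : ∃ σ : L ≃ₐ[K] L, σ ≠ 1 := by
    by_contra hcon
    push Not at hcon
    have : Subsingleton (L ≃ₐ[K] L) := ⟨fun s t => (hcon s).trans (hcon t).symm⟩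
    rw [Nat.card_of_subsingleton (1 : L ≃ₐ[K] L)] at hc
    norm_num at hc
  have hall : ∀ s : L ≃ₐ[K] L, s = 1 ∨ s = σ := by
    intro s
    by_contra hcon
    push Not at hcon
    have hfin : Finite (L ≃ₐ[K] L) := Nat.finite_of_card_ne_zero (by rw [hc]; norm_num)
    have h3 : ({1, σ, s} : Set (L ≃ₐ[K] L)).ncard = 3 := by
      rw [Set.ncard_eq_three]
      exact ⟨1, σ, s, hσ.symm, hcon.1.symm, hcon.2.symm, rfl⟩
    have h4 := Set.ncard_le_card ({1, σ, s} : Set (L ≃ₐ[K] L))
    omega
  refine ⟨σ, h, fun z => ⟨fun hz => ?_, ?_⟩, fun z => ?_⟩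
  · refine (IsGalois.mem_range_algebraMap_iff_fixed z).2 fun s => ?_
    rcases hall s with rfl | rfl
    · rfl
    · exact hz
  · rintro ⟨c, rfl⟩
    exact σ.commutes c
  · have h2 : σ ^ 2 = 1 := by
      rw [← hc]
      exact pow_card_eq_one'
    have h3 := congrArg (fun s : L ≃ₐ[K] L => s z) h2
    exact h3

end conj

section par

variable {K : Type} [Field K] [CharZero K] {a b : K} {L : Type} [Field L] [Algebra K L]

/-- the parameter, trace zero -/
def ParO (σ : L ≃ₐ[K] L) (P : EP a b L) (l : K) : Prop :=
  ∃ y h, P = Affine.Point.some (algebraMap K L l) y h ∧ σ y = -y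

/-- the parameter, trace `(xs, ys)` -/
def ParT (xs ys : K) (σ : L ≃ₐ[K] L) (P : EP a b L) (l : K) : Prop :=
  ∃ x y h, P = Affine.Point.some x y h ∧ σ x ≠ x ∧
    y = algebraMap K L l * (x - algebraMap K L xs) - algebraMap K L ys ∧
    (x - algebraMap K L xs) + (σ x - algebraMap K L xs) = algebraMap K L (l ^ 2 - 3 * xs) ∧
    (x - algebraMap K L xs) * (σ x - algebraMap K L xs) =
      algebraMap K L (3 * xs ^ 2 + a + 2 * l * ys)

/-- the parameter -/
def Par (s : EP a b K) (σ : L ≃ₐ[K] L) (P : EP a b L) (l : K) : Prop :=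
  (s = 0 ∧ ParO σ P l) ∨ ∃ xs ys hs, s = Affine.Point.some xs ys hs ∧ ParT xs ys σ P l

/-- a quadratic point with trace `s` -/
structure Qw (s : EP a b K) (σ : L ≃ₐ[K] L) (P : EP a b L) : Prop where
  cj : Cj σ
  ne : mp a b (σ : L →ₐ[K] L) P ≠ P
  tr : P + mp a b (σ : L →ₐ[K] L) P = mp a b (Algebra.ofId K L) s

lemma spt_ext {F : Type} [Field F] {a b x y x' y' : F} {h : (sw a b).toAffine.Nonsingular x y}
    {h' : (sw a b).toAffine.Nonsingular x' y'} (hx : x = x') (hy : y = y') :
    (Affine.Point.some x y h : SPt a b) = Affine.Point.some x' y' h' := by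
  subst hx
  subst hy
  rfl

lemma eqL {x y : L} (h : (sw (algebraMap K L a) (algebraMap K L b)).toAffine.Nonsingular x y) :
    y ^ 2 = x ^ 3 + algebraMap K L a * x + algebraMap K L b := sw_eqn.1 h.1

theorem par_exists {s : EP a b K} {σ : L ≃ₐ[K] L} {P : EP a b L} (h : Qw s σ P) :
    ∃ l, Par s σ P l := by
  have : CharZero L := charZero_of_injective_algebraMap (algebraMap K L).injective
  obtain ⟨hc, hne, htr⟩ := h
  match P, hne, htr with
  | 0, hne, _ =>
    exfalso
    apply hne
    rw [map_zero]
  | .some x y hP, hne, htr =>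
    rw [mp_some] at hne htr
    have hσP := mp_ns (σ : L →ₐ[K] L) hP
    have e1 := eqL hP
    have e2 := eqL hσP
    simp only [AlgEquiv.coe_algHom] at e2 hne htr
    by_cases hx : σ x = x
    · have hy : σ y = -y := by
        have h3 : (σ y) ^ 2 = y ^ 2 := by rw [e2, e1, hx]
        rcases sq_eq_sq_iff_eq_or_eq_neg.1 h3 with h4 | h4
        · exfalso
          apply hne
          exact spt_ext hx h4
        · exact h4
      obtain ⟨l, rfl⟩ := (hc.fix x).1 hx
      refine ⟨l, Or.inl ⟨?_, y, hP, rfl, hy⟩⟩
      have h0 : (Affine.Point.some (algebraMap K L l) y hP : EP a b L) +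
          Affine.Point.some (σ (algebraMap K L l)) (σ y) hσP = 0 := by
        apply Affine.Point.add_of_Y_eq hx.symm
        simp only [Affine.negY, sw]
        rw [hy]
        ring
      rw [h0] at htr
      have h1 : mp a b (Algebra.ofId K L) s = mp a b (Algebra.ofId K L) 0 := by
        rw [map_zero, ← htr]
      exact mp_inj _ h1
    · have hx' : x ≠ σ x := fun h => hx h.symm
      have hxd : x - σ x ≠ 0 := sub_ne_zero.2 hx'
      obtain ⟨l, hl⟩ : (y - σ y) / (x - σ x) ∈ Set.range (algebraMap K L) := by
        rw [← hc.fix]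
        rw [map_div₀, map_sub, map_sub, hc.inv, hc.inv, ← neg_sub y, ← neg_sub x, neg_div_neg_eq]
      match s, htr with
      | 0, htr =>
        exfalso
        rw [map_zero, Affine.Point.add_of_X_ne hx'] at htr
        exact absurd htr (by intro h; cases h)
      | .some xs ys hs, htr =>
        rw [mp_some, Affine.Point.add_of_X_ne hx'] at htr
        rw [Affine.Point.some.injEq] at htr
        obtain ⟨t1, t2⟩ := htr
        rw [Affine.slope_of_X_ne hx', ← hl] at t1 t2
        simp only [Affine.addX, Affine.addY, Affine.negAddY, Affine.negY, sw] at t1 t2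
        have o1 : (Algebra.ofId K L) xs = algebraMap K L xs := rfl
        have o2 : (Algebra.ofId K L) ys = algebraMap K L ys := rfl
        rw [o1] at t1
        rw [o2] at t2
        have eys := eqL hs
        have eys' := congrArg (algebraMap K L) eys
        simp only [map_add, map_mul, map_pow, Algebra.algebraMap_self, RingHom.id_apply] at eys'
        have hl2 : algebraMap K L l * (x - σ x) = y - σ y := by
          rw [hl, div_mul_cancel₀ _ hxd]
        have k1 : x + σ x = algebraMap K L l ^ 2 - algebraMap K L xs := by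
          linear_combination -t1
        have k2 : y = algebraMap K L l * (x - algebraMap K L xs) - algebraMap K L ys := by
          rw [← t2, ← t1]
          ring
        have hz : x - algebraMap K L xs ≠ 0 := by
          intro h
          apply hx
          rw [hc.fix]
          exact ⟨xs, (sub_eq_zero.1 h).symm⟩
        have k3 : (x - algebraMap K L xs) + (σ x - algebraMap K L xs) =
            algebraMap K L (l ^ 2 - 3 * xs) := by
          rw [map_sub, map_mul, map_pow, map_ofNat]
          linear_combination k1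
        refine ⟨l, Or.inr ⟨xs, ys, hs, rfl, x, y, hP, rfl, hx, k2, k3, ?_⟩⟩
        apply mul_left_cancel₀ hz
        rw [map_add, map_add, map_mul, map_mul, map_mul, map_pow, map_ofNat, map_ofNat]
        have k4 : σ x = algebraMap K L l ^ 2 - algebraMap K L xs - x := by linear_combination k1
        rw [k4]
        rw [k2] at e1
        linear_combination e1 - eys'

end par

end Pool.Agent.U47.QE
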