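import Mathlib
import Pool.Agent.U47.QE.Par
import Pool.Agent.N572.DR.Inv

/-!
# The compositum of a number field with a quadratic extension
-/

set_option autoImplicit false
set_option linter.unusedSectionVars false

open NumberField Polynomial

namespace Pool.Agent.U47.QE

theorem exists_comp {K k L : Type} [Field K] [NumberField K] [Field k] [NumberField k]
    [Algebra K k] [Field L] [NumberField L] [Algebra K L] {σ : L ≃ₐ[K] L} (hσ : Cj σ)
    (hne : IsEmpty (L →ₐ[K] k)) :
    ∃ (M : Type) (_ : Field M) (_ : NumberField M) (_ : Algebra k M) (_ : Algebra K M)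
      (_ : IsScalarTower K k M) (φ : L →ₐ[K] M) (τ : M ≃ₐ[k] M), Module.finrank k M = 2 ∧
      ∀ z, τ (φ z) = φ (σ z) := by
  have hfd : FiniteDimensional K L := Module.finite_of_finrank_pos (by rw [hσ.deg]; norm_num)
  have h2L : (2 : L) ≠ 0 := two_ne_zero
  -- a generator
  obtain ⟨z0, hz0⟩ : ∃ z0, σ z0 ≠ z0 := by
    by_contra hcon
    push Not at hcon
    have h1 : (⊤ : Submodule K L) = Submodule.span K {1} := by
      apply le_antisymm
      · intro z _
        obtain ⟨c, hc⟩ := (hσ.fix z).1 (hcon z)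
        rw [Submodule.mem_span_singleton]
        exact ⟨c, by rw [Algebra.smul_def, mul_one, hc]⟩
      · exact le_top
    have h2 := finrank_span_singleton (K := K) (v := (1 : L)) one_ne_zero
    rw [← h1, finrank_top, hσ.deg] at h2
    norm_num at h2
  obtain ⟨θ, hθ⟩ : ∃ θ, θ = z0 - σ z0 := ⟨_, rfl⟩
  have hσθ : σ θ = -θ := by rw [hθ, map_sub, hσ.inv]; ring
  have hθ0 : θ ≠ 0 := by
    rw [hθ]
    exact sub_ne_zero.2 fun h => hz0 h.symm
  obtain ⟨δ, hδ⟩ : θ ^ 2 ∈ Set.range (algebraMap K L) := by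
    rw [← hσ.fix, map_pow, hσθ, neg_sq]
  have hθK : θ ∉ Set.range (algebraMap K L) := by
    rw [← hσ.fix, hσθ]
    intro h
    apply hθ0
    have h3 : 2 * θ = 0 := by linear_combination -h
    exact (mul_eq_zero.1 h3).resolve_left h2L
  have hdec : ∀ z : L, ∃ c d : K, z = algebraMap K L c + algebraMap K L d * θ := by
    intro z
    obtain ⟨c, hc⟩ : (z + σ z) / 2 ∈ Set.range (algebraMap K L) := by
      rw [← hσ.fix, map_div₀, map_add, hσ.inv, map_ofNat, add_comm]
    obtain ⟨d, hd⟩ : (z - σ z) / (2 * θ) ∈ Set.range (algebraMap K L) := by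
      rw [← hσ.fix, map_div₀, map_sub, hσ.inv, map_mul, map_ofNat, hσθ, ← neg_sub z, mul_neg,
        neg_div_neg_eq]
    refine ⟨c, d, ?_⟩
    rw [hc, hd]
    field_simp
    ring
  -- the minimal polynomial
  have hpm : (X ^ 2 - C δ : K[X]).Monic := monic_X_pow_sub_C δ (by norm_num)
  have hpd : (X ^ 2 - C δ : K[X]).natDegree = 2 := natDegree_X_pow_sub_C
  have hpθ : aeval θ (X ^ 2 - C δ : K[X]) = 0 := by
    rw [map_sub, map_pow, aeval_X, aeval_C, hδ, sub_self]
  have hint : IsIntegral K θ := IsIntegral.of_finite K θ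
  have hmin : minpoly K θ = X ^ 2 - C δ := by
    have h1 : 2 ≤ (minpoly K θ).natDegree := by
      rw [minpoly.two_le_natDegree_iff hint]
      exact hθK
    have h2 : minpoly K θ ∣ X ^ 2 - C δ := minpoly.dvd K θ hpθ
    exact (eq_of_monic_of_dvd_of_natDegree_le (minpoly.monic hint) hpm h2
      (by rw [hpd]; exact h1)).symm
  have hdeg : (minpoly K θ).natDegree = Module.finrank K L := by rw [hmin, hpd, hσ.deg]
  have hirr : Irreducible (X ^ 2 - C δ : K[X]) := by
    rw [← hmin]
    exact minpoly.irreducible hint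
  have hminroot : ∀ {F : Type} [Field F] [Algebra K F] (s : F), s ^ 2 = algebraMap K F δ →
      minpoly K s = X ^ 2 - C δ := by
    intro F _ _ s hs
    refine (minpoly.eq_of_irreducible_of_monic hirr ?_ hpm).symm
    rw [map_sub, map_pow, aeval_X, aeval_C, hs, sub_self]
  -- it has no root in `k`
  have hnk : ∀ c : k, c ^ 2 ≠ algebraMap K k δ := by
    intro c hc
    obtain ⟨φ, -⟩ := Pool.Agent.N572.DR.Inv.exists_hom θ c hdeg (by rw [hmin, hminroot c hc])
    exact hne.false φ
  have hq : Irreducible (X ^ 2 - C (algebraMap K k δ) : k[X]) :=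
    (X_pow_sub_C_irreducible_iff_of_prime Nat.prime_two).2 hnk
  have hfact : Fact (Irreducible (X ^ 2 - C (algebraMap K k δ) : k[X])) := ⟨hq⟩
  obtain ⟨M, iM, akM, aKM, tM, fM, s, hs, hfr⟩ : ∃ (M : Type) (_ : Field M) (_ : Algebra k M)
      (_ : Algebra K M) (_ : IsScalarTower K k M) (_ : FiniteDimensional k M) (s : M),
      s ^ 2 = algebraMap K M δ ∧ Module.finrank k M = 2 := by
    refine ⟨AdjoinRoot (X ^ 2 - C (algebraMap K k δ) : k[X]), inferInstance, inferInstance,
      inferInstance, inferInstance, (AdjoinRoot.powerBasis hq.ne_zero).finite,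
      AdjoinRoot.root _, ?_, ?_⟩
    · have h1 := AdjoinRoot.eval₂_root (X ^ 2 - C (algebraMap K k δ) : k[X])
      rw [eval₂_sub, eval₂_pow, eval₂_X, eval₂_C, sub_eq_zero] at h1
      exact h1.trans (IsScalarTower.algebraMap_apply K k
        (AdjoinRoot (X ^ 2 - C (algebraMap K k δ) : k[X])) δ).symm
    · rw [(AdjoinRoot.powerBasis hq.ne_zero).finrank, AdjoinRoot.powerBasis_dim,
        natDegree_X_pow_sub_C]
  have hchar : CharZero M := charZero_of_injective_algebraMap (algebraMap k M).injective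
  have hMf : FiniteDimensional ℚ M := FiniteDimensional.trans ℚ k M
  have hMn : NumberField M := { to_charZero := hchar, to_finiteDimensional := hMf }
  obtain ⟨φ, hφ⟩ := Pool.Agent.N572.DR.Inv.exists_hom θ s hdeg (by rw [hmin, hminroot s hs])
  obtain ⟨τ, hτ⟩ := exists_conj (K := k) (L := M) hfr
  have hτs : τ s = -s := by
    have h1 : (τ s) ^ 2 = s ^ 2 := by
      rw [← map_pow, hs, IsScalarTower.algebraMap_apply K k M, τ.commutes]
    rcases sq_eq_sq_iff_eq_or_eq_neg.1 h1 with h2 | h2
    · exfalso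
      obtain ⟨c, hc⟩ := (hτ.fix s).1 h2
      apply hnk c
      apply (algebraMap k M).injective
      rw [map_pow, hc, hs, IsScalarTower.algebraMap_apply K k M]
    · exact h2
  refine ⟨M, iM, hMn, akM, aKM, tM, φ, τ, hfr, fun z => ?_⟩
  obtain ⟨c, d, rfl⟩ := hdec z
  have hc : ∀ c : K, τ (algebraMap K M c) = algebraMap K M c := by
    intro c
    rw [IsScalarTower.algebraMap_apply K k M, τ.commutes]
  simp only [map_add, map_mul, AlgHom.commutes, AlgEquiv.commutes, hc, hφ, hσθ, map_neg, hτs]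

end Pool.Agent.U47.QE
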