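import Mathlib
import Pool.Agent.U47.QE.Par
import Pool.Agent.Y729.RV.Base
import Pool.Agent.N572.DR.Inv

/-!
# The compositum with a quadratic extension, and primes
-/

set_option autoImplicit false
set_option linter.unusedSectionVars false

open NumberField IsDedekindDomain Polynomial

namespace Pool.Agent.U47.QE

section primes

/-- the primes of a number field -/
abbrev Pr (K : Type) [Field K] [NumberField K] := HeightOneSpectrum (𝓞 K)

variable {F M : Type} [Field F] [NumberField F] [Field M] [NumberField M] [Algebra F M]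

theorem val_lt_iff' (v : Pr F) (w : Pr M) [w.asIdeal.LiesOver v.asIdeal]
    (z : F) : w.valuation M (algebraMap F M z) < 1 ↔ v.valuation F z < 1 := by
  have he : v.asIdeal.ramificationIdx' w.asIdeal ≠ 0 :=
    Ideal.IsDedekindDomain.ramificationIdx'_ne_zero_of_liesOver w.asIdeal v.ne_bot
  rw [← HeightOneSpectrum.valuation_liesOver M v w]
  exact pow_lt_one_iff_of_nonneg zero_le he

theorem val_le_iff' (v : Pr F) (w : Pr M) [w.asIdeal.LiesOver v.asIdeal]
    (z : F) : w.valuation M (algebraMap F M z) ≤ 1 ↔ v.valuation F z ≤ 1 := by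
  have he : v.asIdeal.ramificationIdx' w.asIdeal ≠ 0 :=
    Ideal.IsDedekindDomain.ramificationIdx'_ne_zero_of_liesOver w.asIdeal v.ne_bot
  rw [← HeightOneSpectrum.valuation_liesOver M v w]
  exact pow_le_one_iff_of_nonneg zero_le he

theorem one_lt_iff' (v : Pr F) (w : Pr M) [w.asIdeal.LiesOver v.asIdeal]
    (z : F) : 1 < w.valuation M (algebraMap F M z) ↔ 1 < v.valuation F z := by
  rw [← not_le, ← not_le, val_le_iff' v w]

theorem exists_under (F : Type) [Field F] [NumberField F] [Algebra F M] (w : Pr M) :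
    ∃ v : Pr F, w.asIdeal.LiesOver v.asIdeal :=
  ⟨HeightOneSpectrum.under (𝓞 F) w, ⟨rfl⟩⟩

theorem exists_over (M : Type) [Field M] [NumberField M] [Algebra F M] (v : Pr F) :
    ∃ w : Pr M, w.asIdeal.LiesOver v.asIdeal := by
  have : v.asIdeal.IsPrime := v.isPrime
  obtain ⟨⟨P, h1, h2⟩⟩ := v.asIdeal.nonempty_primesOver (S := 𝓞 M)
  exact ⟨⟨P, h1, Ideal.ne_bot_of_liesOver_of_ne_bot v.ne_bot P⟩, h2⟩

theorem mem_iff_val (w : Pr F) (z : 𝓞 F) : z ∈ w.asIdeal ↔ w.valuation F (z : F) < 1 := by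
  rw [HeightOneSpectrum.valuation_lt_one_iff_mem]

/-- the prime below under a homomorphism -/
theorem exists_below (f : F →+* M) (w : Pr M) : ∃ v : Pr F, ∀ z : F,
    (v.valuation F z < 1 ↔ w.valuation M (f z) < 1) := by
  let _ : Algebra F M := f.toAlgebra
  obtain ⟨v, hv⟩ := exists_under F w
  exact ⟨v, fun z => (val_lt_iff' v w z).symm⟩

theorem lies_of_val (v : Pr F) (w : Pr M)
    (h : ∀ z : F, w.valuation M (algebraMap F M z) < 1 ↔ v.valuation F z < 1) :
    w.asIdeal.LiesOver v.asIdeal := by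
  refine ⟨?_⟩
  ext z
  rw [mem_iff_val, ← h, Ideal.mem_comap, mem_iff_val]
  rfl

theorem one_lt_iff_inv (v : Pr F) (z : F) : 1 < v.valuation F z ↔ z ≠ 0 ∧ v.valuation F z⁻¹ < 1 := by
  constructor
  · intro h
    have h0 : z ≠ 0 := by
      rintro rfl
      rw [map_zero] at h
      exact absurd h (not_lt.2 zero_le_one)
    refine ⟨h0, ?_⟩
    rw [map_inv₀]
    exact inv_lt_one_of_one_lt₀ h
  · rintro ⟨h0, h⟩
    rw [map_inv₀] at h
    have h1 : v.valuation F z ≠ 0 := (Valuation.ne_zero_iff _).2 h0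
    exact (inv_lt_one₀ (zero_lt_iff.2 h1)).1 h

/-- an automorphism moves the prime -/
theorem exists_aut {k : Type} [Field k] [NumberField k] [Algebra k M] (τ : M ≃ₐ[k] M) (v : Pr k)
    (w : Pr M) [hw : w.asIdeal.LiesOver v.asIdeal] : ∃ w1 : Pr M, w1.asIdeal.LiesOver v.asIdeal ∧
      ∀ z : M, (w1.valuation M z < 1 ↔ w.valuation M (τ z) < 1) := by
  obtain ⟨w1, h1⟩ := exists_below (F := M) (M := M) (τ : M →+* M) w
  refine ⟨w1, ?_, h1⟩
  apply lies_of_val
  intro z
  rw [h1]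
  change w.valuation M (τ (algebraMap k M z)) < 1 ↔ _
  rw [τ.commutes, val_lt_iff' v w]

/-- the primes over a prime -/
theorem sum_above (v : Pr F) (Z : Finset (Pr M)) (hZ : ∀ w ∈ Z, w.asIdeal.LiesOver v.asIdeal) :
    ∑ w ∈ Z, Real.log (Ideal.absNorm w.asIdeal : ℝ) ≤
      (Module.finrank F M : ℝ) * Real.log (Ideal.absNorm v.asIdeal : ℝ) := by
  classical
  have hmax := v.isMaximal
  have hmap : Ideal.map (algebraMap (𝓞 F) (𝓞 M)) v.asIdeal =
      ∏ Q ∈ (v.asIdeal.primesOver (𝓞 M)).toFinset, Q ^ Q.ramificationIdx (𝓞 F) :=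
    Ideal.map_algebraMap_eq_finsetProd_pow v.ne_bot
  have hfr : Module.finrank (𝓞 F) (𝓞 M) = Module.finrank F M :=
    (IsFractionRing.finrank_eq (𝓞 F) F (𝓞 M) M).symm
  have hbot : ∀ Q ∈ (v.asIdeal.primesOver (𝓞 M)).toFinset, Q ≠ ⊥ := by
    intro Q hQ
    rw [Set.mem_toFinset] at hQ
    have := hQ.2
    exact Ideal.ne_bot_of_liesOver_of_ne_bot v.ne_bot Q
  have h1 := Ideal.absNorm_algebraMap (𝓞 F) (𝓞 M) v.asIdeal
  rw [hmap, map_prod, hfr] at h1
  have h2 : (∏ Q ∈ (v.asIdeal.primesOver (𝓞 M)).toFinset,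
      ((Ideal.absNorm Q : ℝ)) ^ Q.ramificationIdx (𝓞 F)) =
        (Ideal.absNorm v.asIdeal : ℝ) ^ Module.finrank F M := by
    have h3 := congrArg (fun n : ℕ => (n : ℝ)) h1
    simp only [Nat.cast_prod, Nat.cast_pow, map_pow] at h3
    exact h3
  rw [← Real.log_pow, ← h2, Real.log_prod]
  · have hinj : Set.InjOn (fun w : Pr M => w.asIdeal) ↑Z := fun w _ w' _ h =>
      HeightOneSpectrum.ext h
    rw [← Finset.sum_image (f := fun Q : Ideal (𝓞 M) => Real.log (Ideal.absNorm Q : ℝ)) hinj]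
    refine (Finset.sum_le_sum_of_subset_of_nonneg (t := (v.asIdeal.primesOver (𝓞 M)).toFinset)
      ?_ ?_).trans (Finset.sum_le_sum fun Q hQ => ?_)
    · intro Q hQ
      rw [Finset.mem_image] at hQ
      obtain ⟨w, hw, rfl⟩ := hQ
      rw [Set.mem_toFinset]
      exact ⟨w.isPrime, hZ w hw⟩
    · intro Q _ _
      exact Real.log_natCast_nonneg _
    · rw [Real.log_pow]
      have h3 : (0 : ℝ) ≤ Real.log (Ideal.absNorm Q : ℝ) := Real.log_natCast_nonneg _
      have h4 : 1 ≤ Q.ramificationIdx (𝓞 F) := by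
        rw [Set.mem_toFinset] at hQ
        have hp := hQ.1
        have hl := hQ.2
        exact Q.ramificationIdx_pos (𝓞 F)
      have h5 : (1 : ℝ) ≤ (Q.ramificationIdx (𝓞 F) : ℝ) := by exact_mod_cast h4
      nlinarith
  · intro Q hQ
    refine pow_ne_zero _ ?_
    rw [Nat.cast_ne_zero]
    exact Ideal.absNorm_eq_zero_iff.not.2 (hbot Q hQ)

/-- the norm of a prime above -/
theorem norm_above (v : Pr F) (w : Pr M) [hw : w.asIdeal.LiesOver v.asIdeal] :
    Real.log (Ideal.absNorm v.asIdeal : ℝ) ≤ Real.log (Ideal.absNorm w.asIdeal : ℝ) := by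
  have h0 : 0 < Ideal.absNorm v.asIdeal := Nat.pos_of_ne_zero
    (Ideal.absNorm_eq_zero_iff.not.2 v.ne_bot)
  have h0' : 0 < Ideal.absNorm w.asIdeal := Nat.pos_of_ne_zero
    (Ideal.absNorm_eq_zero_iff.not.2 w.ne_bot)
  apply Real.log_le_log (by exact_mod_cast h0)
  have h1 : Ideal.absNorm v.asIdeal ≤ Ideal.absNorm w.asIdeal := by
    have h2 := Ideal.absNorm_eq_pow_inertiaDeg'_of_liesOver w.asIdeal v.asIdeal v.isPrime v.ne_bot
    have h3 : v.asIdeal.inertiaDeg' w.asIdeal ≠ 0 := by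
      intro h4
      rw [h4, pow_zero] at h2
      exact w.isPrime.ne_top (Ideal.absNorm_eq_one_iff.1 h2)
    rw [h2]
    exact Nat.le_self_pow h3 _
  exact_mod_cast h1

end primes

end Pool.Agent.U47.QE
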