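import Mathlib

/-!
# Local computations on an elliptic curve at a prime of good reduction
-/

set_option autoImplicit false
set_option linter.unusedSectionVars false

namespace Pool.Agent.U47.QE

section val

variable {M Γ : Type} [Field M] [LinearOrderedCommGroupWithZero Γ] (v : Valuation M Γ)

lemma v_mul_lt {x y : M} (hx : v x ≤ 1) (hy : v y < 1) : v (x * y) < 1 := by
  rw [map_mul]
  exact lt_of_le_of_lt (mul_le_of_le_one_left' hx) hy

lemma v_mul_le {x y : M} (hx : v x ≤ 1) (hy : v y ≤ 1) : v (x * y) ≤ 1 := by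
  rw [map_mul]
  exact mul_le_one' hx hy

lemma v_add_le {x y : M} (hx : v x ≤ 1) (hy : v y ≤ 1) : v (x + y) ≤ 1 := v.map_add_le hx hy

lemma v_sub_le {x y : M} (hx : v x ≤ 1) (hy : v y ≤ 1) : v (x - y) ≤ 1 := v.map_sub_le hx hy

lemma v_add_lt {x y : M} (hx : v x < 1) (hy : v y < 1) : v (x + y) < 1 := v.map_add_lt hx hy

lemma v_sub_lt {x y : M} (hx : v x < 1) (hy : v y < 1) : v (x - y) < 1 := by
  rw [sub_eq_add_neg]
  exact v.map_add_lt hx (by rwa [Valuation.map_neg])

lemma v_int (n : ℕ) : v (n : M) ≤ 1 := by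
  induction n with
  | zero => simp
  | succ n ih =>
    rw [Nat.cast_succ]
    exact v_add_le v ih (by rw [map_one])

lemma v_or {x y : M} (h : v (x * y) < 1) : v x < 1 ∨ v y < 1 := by
  by_contra hcon
  push Not at hcon
  rw [map_mul] at h
  exact absurd h (not_lt.2 (one_le_mul hcon.1 hcon.2))

/-- residual intersection of a line through the point `(xs, -ys)` near a point `(u, w)` -/
theorem loc_gen {a b xs ys l x x' y y' u w α : M} (ha : v a ≤ 1) (hxs : v xs ≤ 1)
    (hys : v ys ≤ 1) (hu : v u ≤ 1) (hl : v l ≤ 1) (hlα : v (l - α) < 1)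
    (hsum : (x - xs) + (x' - xs) = l ^ 2 - 3 * xs)
    (hprod : (x - xs) * (x' - xs) = 3 * xs ^ 2 + a + 2 * l * ys)
    (hy : y = l * (x - xs) - ys) (hy' : y' = l * (x' - xs) - ys)
    (hT : ys ^ 2 = xs ^ 3 + a * xs + b) (hR : w ^ 2 = u ^ 3 + a * u + b)
    (hα : α * (u - xs) = w + ys)
    (hα2 : u = xs → 2 * α * ys = -(3 * xs ^ 2 + a)) :
    (v (x - u) < 1 ∧ v (y - w) < 1) ∨ (v (x' - u) < 1 ∧ v (y' - w) < 1) := by
  have hαle : v α ≤ 1 := by
    have : α = l - (l - α) := by ring
    rw [this]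
    exact v_sub_le v hl hlα.le
  have h2 : v (2 : M) ≤ 1 := by exact_mod_cast v_int v 2
  obtain ⟨d, hd⟩ : ∃ d, d = u - xs := ⟨_, rfl⟩
  have hdle : v d ≤ 1 := by rw [hd]; exact v_sub_le v hu hxs
  rw [← hd] at hα
  have hu' : u = xs + d := by rw [hd]; ring
  have hw : w = α * d - ys := by rw [hα]; ring
  have hF : 3 * xs ^ 2 + a + 2 * α * ys - d * (α ^ 2 - 3 * xs) + d ^ 2 = 0 := by
    by_cases hd0 : d = 0
    · have := hα2 (by rw [hu', hd0, add_zero])
      rw [hd0]
      linear_combination this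
    · apply mul_left_cancel₀ hd0
      rw [hw, hu'] at hR
      linear_combination hT - hR
  have hprod' : (x - u) * (x' - u) = (l - α) * (2 * ys - d * (l + α)) := by
    rw [hu']
    linear_combination hprod - d * hsum + hF
  have hlt : v ((x - u) * (x' - u)) < 1 := by
    rw [hprod', mul_comm]
    refine v_mul_lt v ?_ hlα
    exact v_sub_le v (v_mul_le v h2 hys) (v_mul_le v hdle (v_add_le v hl hαle))
  have key : ∀ z yy : M, v (z - u) < 1 → yy = l * (z - xs) - ys → v (yy - w) < 1 := by
    intro z yy hz hyy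
    have e : yy - w = l * (z - u) + d * (l - α) := by
      rw [hyy, hw, hu']
      ring
    rw [e]
    exact v_add_lt v (v_mul_lt v hl hz) (v_mul_lt v hdle hlα)
  rcases v_or v hlt with h | h
  · exact Or.inl ⟨h, key x y h hy⟩
  · exact Or.inr ⟨h, key x' y' h hy'⟩

/-- a large parameter -/
theorem loc_inf {a xs ys l x x' y y' : M} (ha : v a ≤ 1) (hxs : v xs ≤ 1)
    (hys : v ys ≤ 1) (hl : 1 < v l)
    (hsum : (x - xs) + (x' - xs) = l ^ 2 - 3 * xs)
    (hprod : (x - xs) * (x' - xs) = 3 * xs ^ 2 + a + 2 * l * ys)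
    (hy : y = l * (x - xs) - ys) (hy' : y' = l * (x' - xs) - ys) :
    (v (x - xs) < 1 ∧ v (y - ys) < 1 ∧ 1 < v x') ∨
      (v (x' - xs) < 1 ∧ v (y' - ys) < 1 ∧ 1 < v x) := by
  have h2 : v (2 : M) ≤ 1 := by exact_mod_cast v_int v 2
  have h3 : v (3 : M) ≤ 1 := by exact_mod_cast v_int v 3
  have hl0 : 0 < v l := lt_trans zero_lt_one hl
  have hlne : v l ≠ 0 := hl0.ne'
  have hlsq : 1 < v (l ^ 2) := by
    rw [map_pow]
    exact one_lt_pow₀ hl (by norm_num)
  have key : ∀ z z' yy : M, z + z' = l ^ 2 - 3 * xs → z * z' = 3 * xs ^ 2 + a + 2 * l * ys →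
      v z ≤ v z' → yy = l * z - ys → v z < 1 ∧ v (yy - ys) < 1 ∧ 1 < v (z' + xs) := by
    intro z z' yy hs hp hle hyy
    have e1 : v (l ^ 2 - 3 * xs) = v (l ^ 2) := by
      apply Valuation.map_sub_eq_of_lt_left
      exact lt_of_le_of_lt (v_mul_le v h3 hxs) hlsq
    have e2 : v (l ^ 2) ≤ v z' := by
      rw [← e1, ← hs]
      exact (v.map_add z z').trans (max_le hle le_rfl)
    have e3 : v (z * z') ≤ v l := by
      rw [hp]
      refine (v.map_add _ _).trans (max_le ?_ ?_)
      · refine le_trans ?_ hl.le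
        exact v_add_le v (v_mul_le v h3 (by rw [map_pow]; exact pow_le_one' hxs 2)) ha
      · have : 2 * l * ys = (2 * ys) * l := by ring
        rw [this, map_mul]
        exact mul_le_of_le_one_left' (v_mul_le v h2 hys)
    have e4 : v z < 1 := by
      by_contra hcon
      push Not at hcon
      have : v (l ^ 2) ≤ v l := by
        calc v (l ^ 2) ≤ v z' := e2
          _ ≤ v z * v z' := le_mul_of_one_le_left' hcon
          _ = v (z * z') := (map_mul v z z').symm
          _ ≤ v l := e3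
      rw [map_pow, sq] at this
      have h5 : v l < v l * v l := lt_mul_of_one_lt_right hl0 hl
      exact absurd this (not_le.2 h5)
    refine ⟨e4, ?_, ?_⟩
    · have e5 : l * (yy - ys) = 3 * xs ^ 2 + a + 3 * xs * z + z ^ 2 := by
        rw [hyy]
        linear_combination hp - z * hs
      have e6 : v (l * (yy - ys)) ≤ 1 := by
        rw [e5]
        refine v_add_le v (v_add_le v (v_add_le v (v_mul_le v h3 ?_) ha) ?_) ?_
        · rw [map_pow]
          exact pow_le_one' hxs 2
        · exact v_mul_le v (v_mul_le v h3 hxs) e4.le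
        · rw [map_pow]
          exact pow_le_one' e4.le 2
      rw [map_mul] at e6
      by_contra hcon
      push Not at hcon
      have h5 : 1 < v l * v (yy - ys) := lt_of_lt_of_le hl (le_mul_of_one_le_right' hcon)
      exact absurd e6 (not_le.2 h5)
    · have e7 : 1 < v z' := lt_of_lt_of_le hlsq e2
      have e8 : v (z' + xs) = v z' := by
        apply Valuation.map_add_eq_of_lt_left
        exact lt_of_le_of_lt hxs e7
      rw [e8]
      exact e7
  rcases le_total (v (x - xs)) (v (x' - xs)) with h | h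
  · left
    have := key (x - xs) (x' - xs) y hsum hprod h hy
    rwa [sub_add_cancel] at this
  · right
    have := key (x' - xs) (x - xs) y' (by rw [add_comm]; exact hsum) (by rw [mul_comm]; exact hprod)
      h hy'
    rwa [sub_add_cancel] at this

/-- trace zero -/
theorem loc_zero {a b t y u w : M} (ha : v a ≤ 1) (ht : v t ≤ 1) (htu : v (t - u) < 1)
    (hP : y ^ 2 = t ^ 3 + a * t + b) (hR : w ^ 2 = u ^ 3 + a * u + b) :
    v (y - w) < 1 ∨ v (-y - w) < 1 := by
  have hu : v u ≤ 1 := by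
    have : u = t - (t - u) := by ring
    rw [this]
    exact v_sub_le v ht htu.le
  have e : (y - w) * (-y - w) = (-(t ^ 2 + t * u + u ^ 2 + a)) * (t - u) := by
    linear_combination hR - hP
  apply v_or v
  rw [e]
  refine v_mul_lt v ?_ htu
  rw [Valuation.map_neg]
  refine v_add_le v (v_add_le v (v_add_le v ?_ (v_mul_le v ht hu)) ?_) ha
  · rw [map_pow]; exact pow_le_one' ht 2
  · rw [map_pow]; exact pow_le_one' hu 2

end val

end Pool.Agent.U47.QE
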