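import Mathlib
import Pool.Agent.U47.QE.Par
import Pool.Agent.U47.QE.Fld
import Pool.Agent.U47.QE.Loc

/-!
# One point of the divisor
-/

set_option autoImplicit false
set_option linter.unusedSectionVars false

open WeierstrassCurve Height NumberField IsDedekindDomain Pool.Agent.TH942

namespace Pool.Agent.U47.QE

open scoped Classical

/-- a point of the projective curve `y² = x³ + a x + b`; `none` is the point at infinity -/
def OnE {F : Type} [Field F] (a b : F) : Option (F × F) → Prop
  | none => True
  | some q => q.2 ^ 2 = q.1 ^ 3 + a * q.1 + b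

/-- the affine point `(x, y)` is congruent to a given point -/
def Cl {M Γ : Type} [Field M] [LinearOrderedCommGroupWithZero Γ] (v : Valuation M Γ) (x y : M) :
    Option (M × M) → Prop
  | none => 1 < v x
  | some q => v (x - q.1) < 1 ∧ v (y - q.2) < 1

/-- the image of a point under a map of the coordinates -/
def mpO {F M : Type} (f : F → M) : Option (F × F) → Option (M × M) := Option.map (Prod.map f f)

/-- the line engine: the inequality for the projective line, for one point of degree at most five,
outside of the exceptional set `E` -/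
def Eng (K : Type) [Field K] [NumberField K] (κ : ℝ) (E : Set K) : Prop :=
  (∀ (k : Type) [Field k] [NumberField k] [Algebra K k] (α : k), (minpoly K α).natDegree ≤ 5 →
    ∃ c : ℝ, ∀ l : K, l ∉ E → algebraMap K k l ≠ α → ∃ W : Finset (Pr k),
      (∀ w ∈ W, w.valuation k (algebraMap K k l) ≤ 1 ∧
        w.valuation k (algebraMap K k l - α) < 1) ∧
      (Module.finrank K k : ℝ) * ((1 - κ) * logHeight₁ l) ≤
        ∑ w ∈ W, Real.log (Ideal.absNorm w.asIdeal : ℝ) + c) ∧
  (∀ (k : Type) [Field k] [NumberField k] [Algebra K k],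
    ∃ c : ℝ, ∀ l : K, l ∉ E → l ≠ 0 → ∃ W : Finset (Pr k),
      (∀ w ∈ W, 1 < w.valuation k (algebraMap K k l)) ∧
      (Module.finrank K k : ℝ) * ((1 - κ) * logHeight₁ l) ≤
        ∑ w ∈ W, Real.log (Ideal.absNorm w.asIdeal : ℝ) + c)

section rel

variable {K : Type} [Field K] [CharZero K] {a b : K}

/-- the relations between a quadratic point, its conjugate and the parameter -/
def RelM (M : Type) [Field M] [Algebra K M] (s : EP a b K) (l : K) (x x' y y' : M) : Prop :=
  (s = 0 ∧ x = algebraMap K M l ∧ x' = algebraMap K M l ∧ y' = -y ∧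
    y ^ 2 = x ^ 3 + algebraMap K M a * x + algebraMap K M b) ∨
  ∃ xs ys hs, s = Affine.Point.some xs ys hs ∧
    (x - algebraMap K M xs) + (x' - algebraMap K M xs) =
      algebraMap K M l ^ 2 - 3 * algebraMap K M xs ∧
    (x - algebraMap K M xs) * (x' - algebraMap K M xs) =
      3 * algebraMap K M xs ^ 2 + algebraMap K M a + 2 * algebraMap K M l * algebraMap K M ys ∧
    y = algebraMap K M l * (x - algebraMap K M xs) - algebraMap K M ys ∧
    y' = algebraMap K M l * (x' - algebraMap K M xs) - algebraMap K M ys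

theorem rel_of_par {L M : Type} [Field L] [Algebra K L] [Field M] [Algebra K M] {s : EP a b K}
    {σ : L ≃ₐ[K] L} {x y : L}
    {h : (sw (algebraMap K L a) (algebraMap K L b)).toAffine.Nonsingular x y} {l : K}
    (hp : Par s σ (Affine.Point.some x y h : EP a b L) l) (φ : L →ₐ[K] M) :
    RelM M s l (φ x) (φ (σ x)) (φ y) (φ (σ y)) := by
  rcases hp with ⟨hs, y0, h0, he, hy⟩ | ⟨xs, ys, hs, he, x0, y0, h0, he', hx, hy, hsum, hprod⟩
  · rw [Affine.Point.some.injEq] at he
    obtain ⟨rfl, rfl⟩ := he
    left
    have e1 := congrArg φ (eqL h)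
    simp only [map_add, map_mul, map_pow, AlgHom.commutes] at e1
    refine ⟨hs, φ.commutes l, ?_, ?_, ?_⟩
    · rw [σ.commutes, φ.commutes]
    · rw [hy, map_neg]
    · rw [φ.commutes]
      exact e1
  · rw [Affine.Point.some.injEq] at he'
    obtain ⟨rfl, rfl⟩ := he'
    right
    have hσy : σ y = algebraMap K L l * (σ x - algebraMap K L xs) - algebraMap K L ys := by
      have := congrArg σ hy
      simp only [map_sub, map_mul, AlgEquiv.commutes] at this
      exact this
    have e1 := congrArg φ hsum
    have e2 := congrArg φ hprod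
    have e3 := congrArg φ hy
    have e4 := congrArg φ hσy
    simp only [map_add, map_sub, map_mul, map_pow, map_ofNat, AlgHom.commutes] at e1 e2 e3 e4
    exact ⟨xs, ys, hs, he, e1, e2, e3, e4⟩

end rel

section one

variable {K : Type} [Field K] [NumberField K] {k : Type} [Field k] [NumberField k] [Algebra K k]

lemma big_fin (z : k) : {w : Pr k | 1 < w.valuation k z}.Finite :=
  HeightOneSpectrum.Support.finite (𝓞 k) z

lemma int_le {M : Type} [Field M] [NumberField M] [Algebra K M] (a : 𝓞 K) (w : Pr M) :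
    w.valuation M (algebraMap K M a) ≤ 1 := by
  obtain ⟨z, hz⟩ := Pool.Agent.TH910.LS.exists_int_alg M a
  rw [← hz]
  exact w.valuation_le_one (K := M) z

/-- the divisor points that are not seen by the finite part of the parameter line -/
def AtInf {a b : K} (s : EP a b K) (k : Type) [Field k] [Algebra K k] (R : Option (k × k)) : Prop :=
  R = none ∨ ∃ xs ys hs, s = Affine.Point.some xs ys hs ∧ R = some (algebraMap K k xs, algebraMap K k ys)

theorem one_inf {κ : ℝ} {E : Set K} (hE : Eng K κ E) (a b : 𝓞 K) (s : EP (a : K) (b : K) K)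
    (R : Option (k × k)) (hR : AtInf s k R) (B : Finset (Pr k)) :
    ∃ c : ℝ, ∀ l : K, l ∉ E → l ≠ 0 → ∃ W : Finset (Pr k), (∀ w ∈ W, w ∉ B) ∧
      (∀ w ∈ W, ∀ (M : Type) [Field M] [NumberField M] [Algebra k M] [Algebra K M]
        [IsScalarTower K k M] (w' : Pr M), w'.asIdeal.LiesOver w.asIdeal →
        ∀ x x' y y' : M, RelM M s l x x' y y' →
          Cl (w'.valuation M) x y (mpO (algebraMap k M) R) ∨
          Cl (w'.valuation M) x' y' (mpO (algebraMap k M) R)) ∧
      (Module.finrank K k : ℝ) * ((1 - κ) * logHeight₁ l) ≤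
        ∑ w ∈ W, Real.log (Ideal.absNorm w.asIdeal : ℝ) + c := by
  obtain ⟨c, hc⟩ := hE.2 k
  -- bad primes
  obtain ⟨B1, hB1⟩ : ∃ B1 : Finset (Pr k), ∀ xs ys hs, s = Affine.Point.some xs ys hs →
      ∀ w, w ∉ B1 → w.valuation k (algebraMap K k xs) ≤ 1 ∧
        w.valuation k (algebraMap K k ys) ≤ 1 := by
    match s with
    | 0 => exact ⟨∅, fun xs ys hs h => absurd h (by intro h; cases h)⟩
    | .some x0 y0 h0 =>
      refine ⟨(big_fin (algebraMap K k x0)).toFinset ∪ (big_fin (algebraMap K k y0)).toFinset,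
        fun xs ys hs h w hw => ?_⟩
      rw [Affine.Point.some.injEq] at h
      obtain ⟨rfl, rfl⟩ := h
      rw [Finset.mem_union, Set.Finite.mem_toFinset, Set.Finite.mem_toFinset] at hw
      push Not at hw
      exact ⟨not_lt.1 hw.1, not_lt.1 hw.2⟩
  refine ⟨c + ∑ w ∈ B ∪ B1, Real.log (Ideal.absNorm w.asIdeal : ℝ), fun l hl hl0 => ?_⟩
  obtain ⟨W, hW1, hW2⟩ := hc l hl hl0
  refine ⟨W \ (B ∪ B1), fun w hw => ?_, fun w hw => ?_, ?_⟩
  · rw [Finset.mem_sdiff, Finset.mem_union] at hw
    push Not at hw
    exact hw.2.1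
  · rw [Finset.mem_sdiff, Finset.mem_union] at hw
    push Not at hw
    obtain ⟨hw1, hw2, hw3⟩ := hw
    intro M _ _ _ _ _ w' hw' x x' y y' hrel
    have htow : ∀ z : K, algebraMap K M z = algebraMap k M (algebraMap K k z) :=
      IsScalarTower.algebraMap_apply K k M
    have hl1 : 1 < w'.valuation M (algebraMap K M l) := by
      rw [htow, one_lt_iff' w w']
      exact hW1 w hw1
    rcases hrel with ⟨hs0, hx, hx', hy, hyy⟩ | ⟨xs, ys, hs, he, e1, e2, e3, e4⟩
    · rcases hR with rfl | ⟨xs, ys, hs, he, rfl⟩
      · left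
        change 1 < w'.valuation M x
        rw [hx]
        exact hl1
      · rw [he] at hs0
        exact absurd hs0 (by intro h; cases h)
    · obtain ⟨b1, b2⟩ := hB1 xs ys hs he w hw3
      have hloc := loc_inf (w'.valuation M) (a := algebraMap K M a) (xs := algebraMap K M xs)
        (ys := algebraMap K M ys) (l := algebraMap K M l) (x := x) (x' := x') (y := y) (y' := y')
        (int_le a w') (by rw [htow, val_le_iff' w w']; exact b1)
        (by rw [htow, val_le_iff' w w']; exact b2) hl1 e1 e2 e3 e4
      rcases hR with rfl | ⟨xs', ys', hs', he', rfl⟩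
      · rcases hloc with ⟨-, -, h⟩ | ⟨-, -, h⟩
        · exact Or.inr h
        · exact Or.inl h
      · rw [he, Affine.Point.some.injEq] at he'
        obtain ⟨rfl, rfl⟩ := he'
        rcases hloc with ⟨h, h', -⟩ | ⟨h, h', -⟩
        · left
          change _ ∧ _
          simp only [Prod.map_apply, ← htow]
          exact ⟨h, h'⟩
        · right
          change _ ∧ _
          simp only [Prod.map_apply, ← htow]
          exact ⟨h, h'⟩
  · have h1 : ∑ w ∈ W, Real.log (Ideal.absNorm w.asIdeal : ℝ) ≤
        ∑ w ∈ W \ (B ∪ B1), Real.log (Ideal.absNorm w.asIdeal : ℝ) +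
          ∑ w ∈ B ∪ B1, Real.log (Ideal.absNorm w.asIdeal : ℝ) := by
      have h2 := Finset.sum_inter_add_sum_sdiff W (B ∪ B1)
        (fun w : Pr k => Real.log (Ideal.absNorm w.asIdeal : ℝ))
      have h3 : ∑ w ∈ W ∩ (B ∪ B1), Real.log (Ideal.absNorm w.asIdeal : ℝ) ≤
          ∑ w ∈ B ∪ B1, Real.log (Ideal.absNorm w.asIdeal : ℝ) :=
        Finset.sum_le_sum_of_subset_of_nonneg Finset.inter_subset_right
          fun w _ _ => Real.log_natCast_nonneg _
      linarith
    linarith

theorem one_fin {κ : ℝ} {E : Set K} (hE : Eng K κ E) (a b : 𝓞 K) (s : EP (a : K) (b : K) K)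
    (u t : k) (hR : OnE (algebraMap K k a) (algebraMap K k b) (some (u, t)))
    (hinf : ¬ AtInf s k (some (u, t)))
    (hdeg : ∀ z ∈ IntermediateField.adjoin K {u, t}, (minpoly K z).natDegree ≤ 5)
    (B : Finset (Pr k)) :
    ∃ (c : ℝ) (α : k), ∀ l : K, l ∉ E → algebraMap K k l ≠ α → ∃ W : Finset (Pr k),
      (∀ w ∈ W, w ∉ B) ∧
      (∀ w ∈ W, ∀ (M : Type) [Field M] [NumberField M] [Algebra k M] [Algebra K M]
        [IsScalarTower K k M] (w' : Pr M), w'.asIdeal.LiesOver w.asIdeal →
        ∀ x x' y y' : M, RelM M s l x x' y y' →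
          Cl (w'.valuation M) x y (mpO (algebraMap k M) (some (u, t))) ∨
          Cl (w'.valuation M) x' y' (mpO (algebraMap k M) (some (u, t)))) ∧
      (Module.finrank K k : ℝ) * ((1 - κ) * logHeight₁ l) ≤
        ∑ w ∈ W, Real.log (Ideal.absNorm w.asIdeal : ℝ) + c := by
  have hu : u ∈ IntermediateField.adjoin K {u, t} :=
    IntermediateField.subset_adjoin K _ (by simp)
  have ht : t ∈ IntermediateField.adjoin K {u, t} :=
    IntermediateField.subset_adjoin K _ (by simp)
  have hK : ∀ z : K, algebraMap K k z ∈ IntermediateField.adjoin K {u, t} := fun z =>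
    IntermediateField.algebraMap_mem _ z
  have hR' : t ^ 2 = u ^ 3 + algebraMap K k a * u + algebraMap K k b := hR
  -- the value of the parameter
  obtain ⟨α, hαm, hα⟩ : ∃ α ∈ IntermediateField.adjoin K {u, t},
      (s = 0 → α = u) ∧ ∀ xs ys hs, s = Affine.Point.some xs ys hs →
        α * (u - algebraMap K k xs) = t + algebraMap K k ys ∧
        (u = algebraMap K k xs → 2 * α * algebraMap K k ys =
          -(3 * algebraMap K k xs ^ 2 + algebraMap K k a)) := by
    match s with
    | 0 => exact ⟨u, hu, fun _ => rfl, fun xs ys hs h => absurd h (by intro h; cases h)⟩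
    | .some x0 y0 h0 =>
      by_cases hux : u = algebraMap K k x0
      · have e0 := congrArg (algebraMap K k) (eqL h0)
        simp only [map_add, map_mul, map_pow, Algebra.algebraMap_self, RingHom.id_apply] at e0
        have h1 : t ^ 2 = (algebraMap K k y0) ^ 2 := by rw [hR', e0, hux]
        have h2 : t = -algebraMap K k y0 := by
          rcases sq_eq_sq_iff_eq_or_eq_neg.1 h1 with h | h
          · exfalso
            apply hinf
            exact Or.inr ⟨x0, y0, h0, rfl, by rw [hux, h]⟩
          · exact h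
        have hy0 : algebraMap K k y0 ≠ 0 := by
          intro h
          apply hinf
          refine Or.inr ⟨x0, y0, h0, rfl, ?_⟩
          rw [hux, h2, h, neg_zero]
        refine ⟨-(3 * algebraMap K k x0 ^ 2 + algebraMap K k a) / (2 * algebraMap K k y0),
          ?_, fun h => absurd h (by intro h; cases h), fun xs ys hs h => ?_⟩
        · have e : -(3 * algebraMap K k x0 ^ 2 + algebraMap K k a) / (2 * algebraMap K k y0) =
              algebraMap K k (-(3 * x0 ^ 2 + a) / (2 * y0)) := by
            simp only [map_div₀, map_neg, map_add, map_mul, map_pow, map_ofNat]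
          rw [e]
          exact hK _
        · rw [Affine.Point.some.injEq] at h
          obtain ⟨rfl, rfl⟩ := h
          refine ⟨?_, fun _ => ?_⟩
          · rw [hux, h2]
            ring
          · field_simp
      · have hd : u - algebraMap K k x0 ≠ 0 := sub_ne_zero.2 hux
        refine ⟨(t + algebraMap K k y0) / (u - algebraMap K k x0), ?_,
          fun h => absurd h (by intro h; cases h), fun xs ys hs h => ?_⟩
        · exact div_mem (add_mem ht (hK _)) (sub_mem hu (hK _))
        · rw [Affine.Point.some.injEq] at h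
          obtain ⟨rfl, rfl⟩ := h
          exact ⟨div_mul_cancel₀ _ hd, fun h => absurd h hux⟩
  obtain ⟨c, hc⟩ := hE.1 k α (hdeg α hαm)
  -- bad primes
  obtain ⟨B1, hB1⟩ : ∃ B1 : Finset (Pr k), ∀ w, w ∉ B1 → w.valuation k u ≤ 1 ∧
      ∀ xs ys hs, s = Affine.Point.some xs ys hs → w.valuation k (algebraMap K k xs) ≤ 1 ∧
        w.valuation k (algebraMap K k ys) ≤ 1 := by
    match s with
    | 0 =>
      refine ⟨(big_fin u).toFinset, fun w hw => ?_⟩
      rw [Set.Finite.mem_toFinset] at hw
      exact ⟨not_lt.1 hw, fun xs ys hs h => absurd h (by intro h; cases h)⟩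
    | .some x0 y0 h0 =>
      refine ⟨(big_fin u).toFinset ∪ ((big_fin (algebraMap K k x0)).toFinset ∪
        (big_fin (algebraMap K k y0)).toFinset), fun w hw => ?_⟩
      rw [Finset.mem_union, Finset.mem_union, Set.Finite.mem_toFinset, Set.Finite.mem_toFinset,
        Set.Finite.mem_toFinset] at hw
      push Not at hw
      refine ⟨not_lt.1 hw.1, fun xs ys hs h => ?_⟩
      rw [Affine.Point.some.injEq] at h
      obtain ⟨rfl, rfl⟩ := h
      exact ⟨not_lt.1 hw.2.1, not_lt.1 hw.2.2⟩
  refine ⟨c + ∑ w ∈ B ∪ B1, Real.log (Ideal.absNorm w.asIdeal : ℝ), α, fun l hl hl0 => ?_⟩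
  obtain ⟨W, hW1, hW2⟩ := hc l hl hl0
  refine ⟨W \ (B ∪ B1), fun w hw => ?_, fun w hw => ?_, ?_⟩
  · rw [Finset.mem_sdiff, Finset.mem_union] at hw
    push Not at hw
    exact hw.2.1
  · rw [Finset.mem_sdiff, Finset.mem_union] at hw
    push Not at hw
    obtain ⟨hw1, hw2, hw3⟩ := hw
    intro M _ _ _ _ _ w' hw' x x' y y' hrel
    have htow : ∀ z : K, algebraMap K M z = algebraMap k M (algebraMap K k z) :=
      IsScalarTower.algebraMap_apply K k M
    obtain ⟨g1, g2⟩ := hW1 w hw1
    obtain ⟨b0, b12⟩ := hB1 w hw3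
    have hl1 : w'.valuation M (algebraMap K M l) ≤ 1 := by
      rw [htow, val_le_iff' w w']
      exact g1
    have hl2 : w'.valuation M (algebraMap K M l - algebraMap k M α) < 1 := by
      rw [htow, ← map_sub, val_lt_iff' w w']
      exact g2
    have hRM := congrArg (algebraMap k M) hR'
    simp only [map_add, map_mul, map_pow, ← htow] at hRM
    rcases hrel with ⟨hs0, hx, hx', hy, hyy⟩ | ⟨xs, ys, hs, he, e1, e2, e3, e4⟩
    · have hαu := hα.1 hs0
      rw [hαu] at hl2
      have hloc := loc_zero (w'.valuation M) (a := algebraMap K M a) (b := algebraMap K M b)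
        (t := algebraMap K M l) (y := y) (u := algebraMap k M u) (w := algebraMap k M t)
        (int_le a w') hl1 hl2 (by rw [hyy, hx]) hRM
      rcases hloc with h | h
      · left
        exact ⟨by rw [hx]; exact hl2, h⟩
      · right
        refine ⟨by rw [hx']; exact hl2, ?_⟩
        rw [hy]
        exact h
    · obtain ⟨b1, b2⟩ := b12 xs ys hs he
      obtain ⟨a1, a2⟩ := hα.2 xs ys hs he
      have a1' := congrArg (algebraMap k M) a1
      simp only [map_add, map_sub, map_mul, ← htow] at a1'
      have eqs := congrArg (algebraMap K M) (eqL hs)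
      simp only [map_add, map_mul, map_pow, Algebra.algebraMap_self, RingHom.id_apply] at eqs
      exact loc_gen (w'.valuation M) (a := algebraMap K M a) (b := algebraMap K M b)
        (xs := algebraMap K M xs) (ys := algebraMap K M ys) (l := algebraMap K M l)
        (x := x) (x' := x') (y := y) (y' := y') (u := algebraMap k M u) (w := algebraMap k M t)
        (α := algebraMap k M α)
        (int_le a w') (by rw [htow, val_le_iff' w w']; exact b1)
        (by rw [htow, val_le_iff' w w']; exact b2) (by rw [val_le_iff' w w']; exact b0)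
        hl1 hl2 e1 e2 e3 e4 eqs hRM a1' (fun hux => by
          have hux' : u = algebraMap K k xs := by
            apply (algebraMap k M).injective
            rw [hux, htow]
          have a2' := congrArg (algebraMap k M) (a2 hux')
          simp only [map_add, map_neg, map_mul, map_pow, map_ofNat, ← htow] at a2'
          exact a2')
  · have h1 : ∑ w ∈ W, Real.log (Ideal.absNorm w.asIdeal : ℝ) ≤
        ∑ w ∈ W \ (B ∪ B1), Real.log (Ideal.absNorm w.asIdeal : ℝ) +
          ∑ w ∈ B ∪ B1, Real.log (Ideal.absNorm w.asIdeal : ℝ) := by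
      have h2 := Finset.sum_inter_add_sum_sdiff W (B ∪ B1)
        (fun w : Pr k => Real.log (Ideal.absNorm w.asIdeal : ℝ))
      have h3 : ∑ w ∈ W ∩ (B ∪ B1), Real.log (Ideal.absNorm w.asIdeal : ℝ) ≤
          ∑ w ∈ B ∪ B1, Real.log (Ideal.absNorm w.asIdeal : ℝ) :=
        Finset.sum_le_sum_of_subset_of_nonneg Finset.inter_subset_right
          fun w _ _ => Real.log_natCast_nonneg _
      linarith
    linarith

end one

end Pool.Agent.U47.QE
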