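import Mathlib
import Pool.Agent.U47.QE.Core
import Pool.Agent.U47.QE.Comp

/-!
# The inequality for the quadratic points with given trace
-/

set_option autoImplicit false
set_option linter.unusedSectionVars false

open WeierstrassCurve Height NumberField IsDedekindDomain Pool.Agent.TH942

namespace Pool.Agent.U47.QE

open scoped Classical

/-- the point `(x, y)` meets the divisor `D` at the prime `w` -/
def Meets (K : Type) [Field K] (D : Finset (Option (AlgebraicClosure K × AlgebraicClosure K)))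
    (L : Type) [Field L] [NumberField L] [Algebra K L] (x y : L) (w : Pr L) : Prop :=
  ∃ (M : Type) (_ : Field M) (_ : NumberField M) (_ : Algebra K M) (_ : Algebra L M)
    (_ : IsScalarTower K L M) (j : M →ₐ[K] AlgebraicClosure K) (w' : Pr M) (R : Option (M × M)),
    w'.asIdeal.LiesOver w.asIdeal ∧ mpO j R ∈ D ∧
      Cl (w'.valuation M) (algebraMap L M x) (algebraMap L M y) R

variable {K : Type} [Field K] [NumberField K] {k : Type} [Field k] [NumberField k] [Algebra K k]

/-- different points of the divisor are separated outside of finitely many primes -/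
theorem sep {R R' : Option (k × k)} (h : R ≠ R') : ∃ B : Finset (Pr k), ∀ w, w ∉ B →
    ∀ (M : Type) [Field M] [NumberField M] [Algebra k M] (w' : Pr M),
      w'.asIdeal.LiesOver w.asIdeal → ∀ x y : M,
        ¬ (Cl (w'.valuation M) x y (mpO (algebraMap k M) R) ∧
          Cl (w'.valuation M) x y (mpO (algebraMap k M) R')) := by
  have key : ∀ u t : k, ∃ B : Finset (Pr k), ∀ w, w ∉ B →
    ∀ (M : Type) [Field M] [NumberField M] [Algebra k M] (w' : Pr M),
      w'.asIdeal.LiesOver w.asIdeal → ∀ x y : M,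
        ¬ (Cl (w'.valuation M) x y (mpO (algebraMap k M) (some (u, t))) ∧
          Cl (w'.valuation M) x y (mpO (algebraMap k M) none)) := by
    intro u t
    refine ⟨(big_fin u).toFinset, fun w hw M _ _ _ w' hw' x y hxy => ?_⟩
    rw [Set.Finite.mem_toFinset] at hw
    obtain ⟨⟨h1, -⟩, h2⟩ := hxy
    have h3 : w'.valuation M (algebraMap k M u) ≤ 1 := by
      rw [val_le_iff' w w']
      exact not_lt.1 hw
    have h4 : w'.valuation M x ≤ 1 := by
      have : x = (x - algebraMap k M u) + algebraMap k M u := by ring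
      rw [this]
      exact v_add_le _ (le_of_lt h1) h3
    have h5 : 1 < w'.valuation M x := h2
    exact absurd h4 (not_le.2 h5)
  match R, R', h with
  | none, none, h => exact absurd rfl h
  | none, some (u, t), _ =>
    obtain ⟨B, hB⟩ := key u t
    exact ⟨B, fun w hw M _ _ _ w' hw' x y hxy => hB w hw M w' hw' x y ⟨hxy.2, hxy.1⟩⟩
  | some (u, t), none, _ => exact key u t
  | some (u, t), some (u', t'), h =>
    have hval : ∀ z : k, z ≠ 0 → {w : Pr k | w.valuation k z < 1}.Finite := fun z hz =>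
      Pool.Agent.Y729.RV.val_fin hz
    by_cases hu : u = u'
    · have ht : t - t' ≠ 0 := by
        intro h0
        apply h
        rw [hu, sub_eq_zero.1 h0]
      refine ⟨(hval _ ht).toFinset, fun w hw M _ _ _ w' hw' x y hxy => ?_⟩
      rw [Set.Finite.mem_toFinset] at hw
      apply hw
      obtain ⟨⟨-, h1⟩, ⟨-, h2⟩⟩ := hxy
      change w.valuation k (t - t') < 1
      rw [← val_lt_iff' w w', map_sub]
      have : algebraMap k M t - algebraMap k M t' = (y - algebraMap k M t') -
          (y - algebraMap k M t) := by ring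
      rw [this]
      exact v_sub_lt _ h2 h1
    · have hu' : u - u' ≠ 0 := sub_ne_zero.2 hu
      refine ⟨(hval _ hu').toFinset, fun w hw M _ _ _ w' hw' x y hxy => ?_⟩
      rw [Set.Finite.mem_toFinset] at hw
      apply hw
      obtain ⟨⟨h1, -⟩, ⟨h2, -⟩⟩ := hxy
      change w.valuation k (u - u') < 1
      rw [← val_lt_iff' w w', map_sub]
      have : algebraMap k M u - algebraMap k M u' = (x - algebraMap k M u') -
          (x - algebraMap k M u) := by ring
      rw [this]
      exact v_sub_lt _ h2 h1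

/-- one point of the divisor, all cases -/
theorem one {κ : ℝ} {E : Set K} (hE : Eng K κ E) (a b : 𝓞 K) (s : EP (a : K) (b : K) K)
    (R : Option (k × k)) (hR : OnE (algebraMap K k a) (algebraMap K k b) R)
    (hdeg : ∀ u t, R = some (u, t) → ∀ z ∈ IntermediateField.adjoin K {u, t},
      (minpoly K z).natDegree ≤ 5) (B : Finset (Pr k)) :
    ∃ (c : ℝ) (Z : Set K), Z.Finite ∧ ∀ l : K, l ∉ E → l ∉ Z → ∃ W : Finset (Pr k),
      (∀ w ∈ W, w ∉ B) ∧
      (∀ w ∈ W, ∀ (M : Type) [Field M] [NumberField M] [Algebra k M] [Algebra K M]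
        [IsScalarTower K k M] (w' : Pr M), w'.asIdeal.LiesOver w.asIdeal →
        ∀ x x' y y' : M, RelM M s l x x' y y' →
          Cl (w'.valuation M) x y (mpO (algebraMap k M) R) ∨
          Cl (w'.valuation M) x' y' (mpO (algebraMap k M) R)) ∧
      (Module.finrank K k : ℝ) * ((1 - κ) * logHeight₁ l) ≤
        ∑ w ∈ W, Real.log (Ideal.absNorm w.asIdeal : ℝ) + c := by
  by_cases hinf : AtInf s k R
  · obtain ⟨c, hc⟩ := one_inf hE a b s R hinf B
    exact ⟨c, {0}, Set.finite_singleton 0, fun l hl hl0 => hc l hl hl0⟩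
  · match R, hR, hdeg, hinf with
    | none, _, _, hinf => exact absurd (Or.inl rfl) hinf
    | some (u, t), hR, hdeg, hinf =>
      obtain ⟨c, α, hc⟩ := one_fin hE a b s u t hR hinf (hdeg u t rfl) B
      refine ⟨c, {l | algebraMap K k l = α}, ?_, fun l hl hl0 => hc l hl hl0⟩
      apply Set.Subsingleton.finite
      intro l hl l' hl'
      have h1 : algebraMap K k l = α := hl
      have h2 : algebraMap K k l' = α := hl'
      exact (algebraMap K k).injective (h1.trans h2.symm)

/-- **the inequality for the quadratic points with given trace** -/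
theorem fixed {κ : ℝ} {E : Set K} (hE : Eng K κ E) (a b : 𝓞 K)
    (s : EP (a : K) (b : K) K) (j0 : k →ₐ[K] AlgebraicClosure K) (D : Finset (Option (k × k)))
    (hD : ∀ R ∈ D, OnE (algebraMap K k a) (algebraMap K k b) R)
    (hdeg : ∀ u t, some (u, t) ∈ D → ∀ z ∈ IntermediateField.adjoin K {u, t},
      (minpoly K z).natDegree ≤ 5) :
    ∃ (c : ℝ) (Z : Set K), Z.Finite ∧ ∀ (L : Type) [Field L] [NumberField L] [Algebra K L]
      (σ : L ≃ₐ[K] L) (x y : L)
      (h : (sw (algebraMap K L (a : K)) (algebraMap K L (b : K))).toAffine.Nonsingular x y) (l : K),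
      Cj σ → Par s σ (Affine.Point.some x y h : EP (a : K) (b : K) L) l → IsEmpty (L →ₐ[K] k) →
      l ∉ E → l ∉ Z → ∃ W : Finset (Pr L),
        (∀ w ∈ W, Meets K (D.image (mpO j0)) L x y w) ∧
        (D.card : ℝ) * ((1 - κ) * logHeight₁ l) ≤
          ∑ w ∈ W, Real.log (Ideal.absNorm w.asIdeal : ℝ) + c := by
  have hsep : ∀ R R' : Option (k × k), ∃ B : Finset (Pr k), R ≠ R' → ∀ w, w ∉ B →
    ∀ (M : Type) [Field M] [NumberField M] [Algebra k M] (w' : Pr M),
      w'.asIdeal.LiesOver w.asIdeal → ∀ x y : M,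
        ¬ (Cl (w'.valuation M) x y (mpO (algebraMap k M) R) ∧
          Cl (w'.valuation M) x y (mpO (algebraMap k M) R')) := by
    intro R R'
    by_cases h : R = R'
    · exact ⟨∅, fun h' => absurd h h'⟩
    · obtain ⟨B, hB⟩ := sep h
      exact ⟨B, fun _ => hB⟩
  choose B0 hB0 using hsep
  obtain ⟨B, hBdef⟩ : ∃ B : Finset (Pr k), B = D.biUnion fun R => D.biUnion fun R' => B0 R R' :=
    ⟨_, rfl⟩
  have hone : ∀ R : Option (k × k), ∃ (c : ℝ) (Z : Set K), R ∈ D → Z.Finite ∧
      ∀ l : K, l ∉ E → l ∉ Z → ∃ W : Finset (Pr k),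
      (∀ w ∈ W, w ∉ B) ∧
      (∀ w ∈ W, ∀ (M : Type) [Field M] [NumberField M] [Algebra k M] [Algebra K M]
        [IsScalarTower K k M] (w' : Pr M), w'.asIdeal.LiesOver w.asIdeal →
        ∀ x x' y y' : M, RelM M s l x x' y y' →
          Cl (w'.valuation M) x y (mpO (algebraMap k M) R) ∨
          Cl (w'.valuation M) x' y' (mpO (algebraMap k M) R)) ∧
      (Module.finrank K k : ℝ) * ((1 - κ) * logHeight₁ l) ≤
        ∑ w ∈ W, Real.log (Ideal.absNorm w.asIdeal : ℝ) + c := by
    intro R
    by_cases hR : R ∈ D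
    · obtain ⟨c, Z, h⟩ := one hE a b s R (hD R hR) (fun u t hut => hdeg u t (hut ▸ hR)) B
      exact ⟨c, Z, fun _ => h⟩
    · exact ⟨0, ∅, fun h => absurd h hR⟩
  choose c Z hcZ using hone
  refine ⟨∑ R ∈ D, |c R|, ⋃ R ∈ D, Z R, ?_, ?_⟩
  · exact Set.Finite.biUnion D.finite_toSet fun R hR => (hcZ R hR).1
  intro L _ _ _ σ x y h l hσ hpar hne hlE hlZ
  obtain ⟨M, _, _, _, _, _, φ, τ, hfr, hτ⟩ := exists_comp (k := k) hσ hne
  let _ : Algebra L M := φ.toRingHom.toAlgebra
  have hLM : ∀ z : L, algebraMap L M z = φ z := fun z => rfl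
  have htow : IsScalarTower K L M := IsScalarTower.of_algebraMap_eq fun z => (φ.commutes z).symm
  have hfdk : FiniteDimensional K k := FiniteDimensional.right ℚ K k
  have hfdL : FiniteDimensional K L := FiniteDimensional.right ℚ K L
  have hdegM : Module.finrank L M = Module.finrank K k := by
    have h1 := Module.finrank_mul_finrank K L M
    have h2 := Module.finrank_mul_finrank K k M
    rw [hσ.deg] at h1
    rw [hfr] at h2
    omega
  have hk0 : (1 : ℝ) ≤ Module.finrank K k := by
    have : 0 < Module.finrank K k := Module.finrank_pos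
    exact_mod_cast this
  have hW : ∀ R : Option (k × k), ∃ W : Finset (Pr k), R ∈ D → (∀ w ∈ W, w ∉ B) ∧
      (∀ w ∈ W, ∃ w' : Pr M, w'.asIdeal.LiesOver w.asIdeal ∧
        Cl (w'.valuation M) (φ x) (φ y) (mpO (algebraMap k M) R)) ∧
      (Module.finrank K k : ℝ) * ((1 - κ) * logHeight₁ l) ≤
        ∑ w ∈ W, Real.log (Ideal.absNorm w.asIdeal : ℝ) + c R := by
    intro R
    by_cases hR : R ∈ D
    · obtain ⟨W, h1, h2, h3⟩ := (hcZ R hR).2 l hlE (fun hl => hlZ (Set.mem_biUnion hR hl))
      refine ⟨W, fun _ => ⟨h1, fun w hw => ?_, h3⟩⟩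
      obtain ⟨w0, hw0⟩ := exists_over M w
      rcases h2 w hw M w0 hw0 _ _ _ _ (rel_of_par hpar φ) with h4 | h4
      · exact ⟨w0, hw0, h4⟩
      · obtain ⟨w1, hw1, hv⟩ := exists_aut τ w w0
        refine ⟨w1, hw1, ?_⟩
        rw [← hτ, ← hτ] at h4
        match R, h4 with
        | none, h4 =>
          have h5 : 1 < w0.valuation M (τ (φ x)) := h4
          change 1 < w1.valuation M (φ x)
          rw [one_lt_iff_inv] at h5 ⊢
          refine ⟨fun h0 => h5.1 (by rw [h0, map_zero]), ?_⟩
          rw [hv, map_inv₀]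
          exact h5.2
        | some (u, t), h4 =>
          obtain ⟨h5, h6⟩ := h4
          constructor
          · change w1.valuation M (φ x - algebraMap k M u) < 1
            rw [hv, map_sub, τ.commutes]
            exact h5
          · change w1.valuation M (φ y - algebraMap k M t) < 1
            rw [hv, map_sub, τ.commutes]
            exact h6
    · exact ⟨∅, fun h => absurd h hR⟩
  choose W hW using hW
  -- the main sum
  have hsum : (Module.finrank K k : ℝ) * ((D.card : ℝ) * ((1 - κ) * logHeight₁ l)) ≤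
      ∑ q ∈ D.sigma W, Real.log (Ideal.absNorm q.2.asIdeal : ℝ) + ∑ R ∈ D, |c R| := by
    rw [Finset.sum_sigma, ← Finset.sum_add_distrib]
    have h1 : (Module.finrank K k : ℝ) * ((D.card : ℝ) * ((1 - κ) * logHeight₁ l)) =
        ∑ R ∈ D, (Module.finrank K k : ℝ) * ((1 - κ) * logHeight₁ l) := by
      rw [Finset.sum_const, nsmul_eq_mul]
      ring
    rw [h1]
    refine Finset.sum_le_sum fun R hR => ((hW R hR).2.2).trans ?_
    have := le_abs_self (c R)
    linarith
  have hcpos : 0 ≤ ∑ R ∈ D, |c R| := Finset.sum_nonneg fun R _ => abs_nonneg _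
  by_cases hemp : D.sigma W = ∅
  · refine ⟨∅, fun w hw => absurd hw (Finset.notMem_empty w), ?_⟩
    rw [hemp, Finset.sum_empty, zero_add] at hsum
    rw [Finset.sum_empty, zero_add]
    by_contra hcon
    push Not at hcon
    nlinarith
  obtain ⟨q0, hq0⟩ := Finset.nonempty_iff_ne_empty.2 hemp
  have hinh : Nonempty (Pr M) := by
    obtain ⟨w0, -⟩ := exists_over M q0.2
    exact ⟨w0⟩
  have hg : ∀ q : (_ : Option (k × k)) × Pr k, ∃ w' : Pr M, q ∈ D.sigma W →
      w'.asIdeal.LiesOver q.2.asIdeal ∧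
        Cl (w'.valuation M) (φ x) (φ y) (mpO (algebraMap k M) q.1) := by
    intro q
    by_cases hq : q ∈ D.sigma W
    · rw [Finset.mem_sigma] at hq
      obtain ⟨w', h1⟩ := (hW q.1 hq.1).2.1 q.2 hq.2
      exact ⟨w', fun _ => h1⟩
    · exact ⟨hinh.some, fun h => absurd h hq⟩
  choose g hg using hg
  have hinj : Set.InjOn g (D.sigma W : Finset _) := by
    rintro ⟨R, w⟩ hq ⟨R', w'⟩ hq' he
    rw [Finset.mem_coe] at hq hq'
    obtain ⟨h1, h2⟩ := hg _ hq
    obtain ⟨h1', h2'⟩ := hg _ hq'
    rw [← he] at h1' h2'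
    have e1 := h1.over
    have e2 := h1'.over
    have e3 : w = w' := HeightOneSpectrum.ext (e1.trans e2.symm)
    subst e3
    rw [Finset.mem_sigma] at hq hq'
    by_cases hR : R = R'
    · rw [hR]
    · exfalso
      have hwB := (hW R hq.1).1 w hq.2
      refine hB0 R R' hR w (fun hmem => hwB ?_) M (g ⟨R, w⟩) h1 (φ x) (φ y) ⟨h2, h2'⟩
      rw [hBdef, Finset.mem_biUnion]
      refine ⟨R, hq.1, ?_⟩
      rw [Finset.mem_biUnion]
      exact ⟨R', hq'.1, hmem⟩
  have hs1 : ∑ q ∈ D.sigma W, Real.log (Ideal.absNorm q.2.asIdeal : ℝ) ≤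
      ∑ w' ∈ (D.sigma W).image g, Real.log (Ideal.absNorm w'.asIdeal : ℝ) := by
    rw [Finset.sum_image hinj]
    refine Finset.sum_le_sum fun q hq => ?_
    have := (hg q hq).1
    exact norm_above q.2 (g q)
  refine ⟨((D.sigma W).image g).image (fun w' => HeightOneSpectrum.under (𝓞 L) w'), ?_, ?_⟩
  · intro w hw
    rw [Finset.mem_image] at hw
    obtain ⟨w', hw', rfl⟩ := hw
    rw [Finset.mem_image] at hw'
    obtain ⟨q, hq, rfl⟩ := hw'
    let _ : Algebra k (AlgebraicClosure K) := (j0 : k →+* AlgebraicClosure K).toAlgebra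
    have hj0 : ∀ z : k, algebraMap k (AlgebraicClosure K) z = j0 z := fun z => rfl
    have hfdM : FiniteDimensional k M := FiniteDimensional.right ℚ k M
    let j1 : M →ₐ[k] AlgebraicClosure K := IsAlgClosed.lift
    have hj1 : ∀ z : k, j1 (algebraMap k M z) = j0 z := fun z => by rw [j1.commutes, hj0]
    let j : M →ₐ[K] AlgebraicClosure K :=
      { (j1 : M →+* AlgebraicClosure K) with
        commutes' := fun z => by
          change j1 (algebraMap K M z) = _
          rw [IsScalarTower.algebraMap_apply K k M, hj1, j0.commutes] }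
    refine ⟨M, _, ‹_›, _, _, htow, j, g q, mpO (algebraMap k M) q.1, ⟨rfl⟩, ?_, ?_⟩
    · rw [Finset.mem_image]
      refine ⟨q.1, (Finset.mem_sigma.1 hq).1, ?_⟩
      obtain ⟨R, w⟩ := q
      match R with
      | none => rfl
      | some (u, t) =>
        change some (j0 u, j0 t) = some (j1 (algebraMap k M u), j1 (algebraMap k M t))
        rw [hj1, hj1]
    · exact (hg q hq).2
  · have hs2 : ∑ w' ∈ (D.sigma W).image g, Real.log (Ideal.absNorm w'.asIdeal : ℝ) ≤
        (Module.finrank K k : ℝ) * ∑ w ∈ ((D.sigma W).image g).image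
          (fun w' => HeightOneSpectrum.under (𝓞 L) w'),
            Real.log (Ideal.absNorm w.asIdeal : ℝ) := by
      rw [← Finset.sum_fiberwise_of_maps_to (g := fun w' => HeightOneSpectrum.under (𝓞 L) w')
        (t := ((D.sigma W).image g).image (fun w' => HeightOneSpectrum.under (𝓞 L) w'))
        (fun w' hw' => Finset.mem_image_of_mem _ hw'), Finset.mul_sum]
      refine Finset.sum_le_sum fun w _ => ?_
      rw [← hdegM]
      refine sum_above w _ fun w' hw' => ?_
      rw [Finset.mem_filter] at hw'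
      rw [← hw'.2]
      exact ⟨rfl⟩
    obtain ⟨T, hT⟩ : ∃ T : ℝ, T = ∑ w ∈ ((D.sigma W).image g).image
          (fun w' => HeightOneSpectrum.under (𝓞 L) w'),
            Real.log (Ideal.absNorm w.asIdeal : ℝ) := ⟨_, rfl⟩
    rw [← hT] at hs2 ⊢
    have h1 := hsum.trans (add_le_add_left (hs1.trans hs2) _)
    by_contra hcon
    push Not at hcon
    nlinarith

end Pool.Agent.U47.QE
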