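import Mathlib
import Pool.Agent.U47.QE.Par

/-!
# At most two points have the same trace and parameter; the height
-/

set_option autoImplicit false
set_option linter.unusedSectionVars false

open WeierstrassCurve Height NumberField Pool.Agent.TH942 Pool.Agent.TH910.LS

namespace Pool.Agent.U47.QE

open scoped Classical

section pair

variable {K : Type} [Field K] [CharZero K] {a b : K} {L L' Ω : Type} [Field L] [Algebra K L]
  [Field L'] [Algebra K L'] [Field Ω] [Algebra K Ω]

theorem par_pair {s : EP a b K} {l : K} {σ : L ≃ₐ[K] L} {P : EP a b L} (h : Par s σ P l)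
    {σ' : L' ≃ₐ[K] L'} {P' : EP a b L'} (h' : Par s σ' P' l) (ι : L →ₐ[K] Ω) (ι' : L' →ₐ[K] Ω) :
    mp a b ι' P' = mp a b ι P ∨ mp a b ι' P' = mp a b ι (mp a b (σ : L →ₐ[K] L) P) := by
  have hc : ∀ z : K, ι (algebraMap K L z) = algebraMap K Ω z := fun z => ι.commutes z
  have hc' : ∀ z : K, ι' (algebraMap K L' z) = algebraMap K Ω z := fun z => ι'.commutes z
  rcases h with ⟨hs, y, hP, rfl, hy⟩ | ⟨xs, ys, hs, rfl, x, y, hP, rfl, hx, hy, hsum, hprod⟩
  · rcases h' with ⟨-, y', hP', rfl, hy'⟩ | ⟨xs, ys, hs', rfl, -⟩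
    · rw [mp_some, mp_some, mp_some, mp_some]
      have e1 := congrArg ι (eqL hP)
      have e2 := congrArg ι' (eqL hP')
      simp only [map_add, map_mul, map_pow, hc, hc'] at e1 e2
      have e3 : (ι' y') ^ 2 = (ι y) ^ 2 := by rw [e1, e2]
      rcases sq_eq_sq_iff_eq_or_eq_neg.1 e3 with h4 | h4
      · left
        exact spt_ext (by rw [hc, hc']) h4
      · right
        refine spt_ext ?_ ?_
        · rw [hc']
          change _ = ι (σ (algebraMap K L l))
          rw [σ.commutes, hc]
        · rw [h4]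
          change _ = ι (σ y)
          rw [hy, map_neg]
    · exact absurd hs (by intro h; cases h)
  · rcases h' with ⟨hs', -⟩ | ⟨xs', ys', hs', he, x', y', hP', rfl, hx', hy', hsum', hprod'⟩
    · exact absurd hs' (by intro h; cases h)
    · rw [Affine.Point.some.injEq] at he
      obtain ⟨rfl, rfl⟩ := he
      rw [mp_some, mp_some, mp_some, mp_some]
      have e1 := congrArg ι hsum
      have e2 := congrArg ι hprod
      have e3 := congrArg ι' hsum'
      have e4 := congrArg ι' hprod'
      have e5 := congrArg ι hy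
      have e6 := congrArg ι' hy'
      simp only [map_add, map_sub, map_mul, hc, hc'] at e1 e2 e3 e4 e5 e6
      obtain ⟨A, hA⟩ : ∃ A, A = ι x - algebraMap K Ω xs := ⟨_, rfl⟩
      obtain ⟨B, hB⟩ : ∃ B, B = ι (σ x) - algebraMap K Ω xs := ⟨_, rfl⟩
      obtain ⟨C, hC⟩ : ∃ C, C = ι' x' - algebraMap K Ω xs := ⟨_, rfl⟩
      obtain ⟨D, hD⟩ : ∃ D, D = ι' (σ' x') - algebraMap K Ω xs := ⟨_, rfl⟩
      rw [← hA, ← hB] at e1 e2
      rw [← hC, ← hD] at e3 e4
      rw [← hA] at e5
      rw [← hC] at e6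
      have e7 : (C - A) * (C - B) = 0 := by
        have f1 : A + B = C + D := by rw [e1, e3]
        have f2 : A * B = C * D := by rw [e2, e4]
        linear_combination (-C) * f1 + f2
      rcases mul_eq_zero.1 e7 with h4 | h4
      · left
        have h5 : C = A := sub_eq_zero.1 h4
        refine spt_ext ?_ ?_
        · rw [hC, hA] at h5
          exact sub_left_inj.1 h5
        · rw [e5, e6, h5]
      · right
        have h5 : C = B := sub_eq_zero.1 h4
        have hσy : σ y = algebraMap K L l * (σ x - algebraMap K L xs) - algebraMap K L ys := by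
          have := congrArg σ hy
          simp only [map_sub, map_mul, AlgEquiv.commutes] at this
          exact this
        have e8 := congrArg ι hσy
        simp only [map_sub, map_mul, hc] at e8
        rw [← hB] at e8
        refine spt_ext ?_ ?_
        · rw [hC, hB] at h5
          exact sub_left_inj.1 h5
        · change _ = ι (σ y)
          rw [e8, e6, h5]

end pair

section height

variable {K : Type} [Field K] [NumberField K]

/-- the product and the sum of two numbers -/
theorem sum_prod : ∃ c : ℝ, 0 ≤ c ∧ ∀ (L : Type) [Field L] [NumberField L] [Algebra K L]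
    (z z' : L), |logHeight ![z * z', z + z', 1] - (logHeight₁ z + logHeight₁ z')| ≤
      c * totalWeight L := by
  obtain ⟨c1, hc1, h1⟩ := sy_le K
  obtain ⟨c2, hc2, h2⟩ := sy_ge K
  refine ⟨c1 + c2, by positivity, fun L _ _ _ z z' => ?_⟩
  have hne : ∀ z : L, ![z, 1] ≠ 0 := by
    intro z h
    have := congrFun h 1
    simp at this
  have e : sy ![z, 1] ![z', 1] = ![z * z', z + z', 1] := by
    funext i
    fin_cases i <;> simp [sy]
  have i1 := h1 L ![z, 1] ![z', 1] (hne z) (hne z')
  have i2 := h2 L ![z, 1] ![z', 1] (hne z) (hne z')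
  rw [e, ← logHeight₁_eq_logHeight, ← logHeight₁_eq_logHeight] at i1 i2
  have h0 : (0 : ℝ) ≤ totalWeight L := Nat.cast_nonneg _
  have h3 := mul_nonneg hc1 h0
  have h4 := mul_nonneg hc2 h0
  rw [abs_le]
  constructor <;> nlinarith

/-- the polynomials in the parameter -/
theorem par_vec (x y a : K) : ∃ C : ℝ, ∀ l : K,
    |logHeight ![3 * x ^ 2 + a + 2 * l * y, l ^ 2 - 3 * x, 1] - 2 * logHeight₁ l| ≤ C := by
  obtain ⟨A, hA⟩ : ∃ A : Fin 3 × Fin 3 → K, A = fun m => ![![0, 2 * y, 3 * x ^ 2 + a],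
    ![1, 0, -(3 * x)], ![0, 0, 1]] m.1 m.2 := ⟨_, rfl⟩
  obtain ⟨B, hB⟩ : ∃ B : Fin 2 × Fin 3 → K, B = fun m => ![![0, 1, 3 * x],
    ![0, 0, 1]] m.1 m.2 := ⟨_, rfl⟩
  obtain ⟨t, ht⟩ : ∃ t : ℝ, t = totalWeight K := ⟨_, rfl⟩
  have hsq : ∀ l : K, logHeight ![l ^ 2, l, 1] ≤ 2 * logHeight₁ l := by
    intro l
    have hne : ![l, 1] ≠ 0 := by
      intro h
      have := congrFun h 1
      simp at this
    have h1 : logHeight (fun m : Fin 2 × Fin 2 => ![l, 1] m.1 * ![l, 1] m.2) =
        logHeight ![l, 1] + logHeight ![l, 1] := logHeight_fun_mul_eq hne hne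
    have h2 := logHeight_comp_le (![(0, 0), (0, 1), (1, 1)] : Fin 3 → Fin 2 × Fin 2)
      (fun m : Fin 2 × Fin 2 => ![l, 1] m.1 * ![l, 1] m.2)
    have h3 : (fun m : Fin 2 × Fin 2 => ![l, 1] m.1 * ![l, 1] m.2) ∘
        (![(0, 0), (0, 1), (1, 1)] : Fin 3 → Fin 2 × Fin 2) = ![l ^ 2, l, 1] := by
      funext i
      fin_cases i <;> simp [sq]
    rw [h3, h1, ← logHeight₁_eq_logHeight] at h2
    linarith
  refine ⟨max (t * Real.log 3 + logHeight A) (t * Real.log 3 + logHeight B), fun l => ?_⟩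
  have h1 := logHeight_linearMap_apply_le A ![l ^ 2, l, 1]
  have h2 := logHeight_linearMap_apply_le B ![3 * x ^ 2 + a + 2 * l * y, l ^ 2 - 3 * x, 1]
  have e1 : (fun j => ∑ i, A (j, i) * ![l ^ 2, l, 1] i) =
      ![3 * x ^ 2 + a + 2 * l * y, l ^ 2 - 3 * x, 1] := by
    funext i
    rw [hA]
    fin_cases i <;> simp [Fin.sum_univ_three] <;> ring
  have e2 : (fun j => ∑ i, B (j, i) * ![3 * x ^ 2 + a + 2 * l * y, l ^ 2 - 3 * x, 1] i) =
      ![l ^ 2, 1] := by
    funext i
    rw [hB]
    fin_cases i <;> simp [Fin.sum_univ_three]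
  rw [e1] at h1
  rw [e2, ← logHeight₁_eq_logHeight, logHeight₁_pow] at h2
  have h5 : Nat.card (Fin 3) = 3 := by simp
  rw [h5, ← ht] at h1 h2
  push_cast at h1 h2
  have h6 := hsq l
  have m1 := le_max_left (t * Real.log 3 + logHeight A) (t * Real.log 3 + logHeight B)
  have m2 := le_max_right (t * Real.log 3 + logHeight A) (t * Real.log 3 + logHeight B)
  rw [abs_le]
  constructor <;> linarith

lemma tw_eq (L : Type) [Field L] [NumberField L] : totalWeight L = Module.finrank ℚ L := by
  rw [NumberField.totalWeight_eq_sum_mult]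
  exact InfinitePlace.sum_mult_eq

theorem par_height {a b : K} (s : EP a b K) : ∃ C : ℝ, 0 ≤ C ∧ ∀ (L : Type) [Field L]
    [NumberField L] [Algebra K L] (σ : L ≃ₐ[K] L) (P : EP a b L) (l : K),
    Module.finrank K L = 2 → Par s σ P l → |sht P - 2 * logHeight₁ l| ≤ C := by
  have h2 : ∀ (L : Type) [Field L] [NumberField L] [Algebra K L], Module.finrank K L = 2 →
      ∀ z : K, logHeight₁ (algebraMap K L z) = 2 * logHeight₁ z := by
    intro L _ _ _ hd z
    rw [Pool.Agent.N572.DR.Inv.ht_ext, hd]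
    norm_num
  match s with
  | 0 =>
    refine ⟨0, le_refl _, fun L _ _ _ σ P l hd hp => ?_⟩
    rcases hp with ⟨-, y, hP, rfl, -⟩ | ⟨xs, ys, hs, he, -⟩
    · rw [sht_some, h2 L hd, sub_self, abs_zero]
    · exact absurd he (by intro h; cases h)
  | .some x0 y0 hs0 =>
    obtain ⟨c1, hc1, h3⟩ := sum_prod (K := K)
    obtain ⟨C2, h4⟩ := par_vec x0 y0 a
    obtain ⟨n, hn⟩ : ∃ n : ℝ, n = 2 * Module.finrank ℚ K := ⟨_, rfl⟩
    obtain ⟨C3, hC3⟩ : ∃ C3 : ℝ, C3 = n * Real.log 2 + 2 * logHeight₁ x0 := ⟨_, rfl⟩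
    have hn0 : 0 ≤ n := by rw [hn]; positivity
    have hC30 : 0 ≤ C3 := by
      rw [hC3]
      have := zero_le_logHeight₁ x0
      positivity
    have hC20 : 0 ≤ C2 := le_trans (abs_nonneg _) (h4 0)
    refine ⟨c1 * n + 2 * C2 + C3, by positivity, fun L _ _ _ σ P l hd hp => ?_⟩
    have hfd : FiniteDimensional K L := Module.finite_of_finrank_pos (by rw [hd]; norm_num)
    have htw : (totalWeight L : ℝ) = n := by
      rw [tw_eq, hn, ← Module.finrank_mul_finrank ℚ K L, hd]
      push_cast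
      ring
    rcases hp with ⟨he, -⟩ | ⟨xs, ys, hs, he, x, y, hP, rfl, hx, hy, hsum, hprod⟩
    · exact absurd he (by intro h; cases h)
    · rw [Affine.Point.some.injEq] at he
      obtain ⟨rfl, rfl⟩ := he
      rw [sht_some]
      obtain ⟨z, hz⟩ : ∃ z, z = x - algebraMap K L x0 := ⟨_, rfl⟩
      have hz' : σ x - algebraMap K L x0 = σ z := by
        rw [hz, map_sub, σ.commutes]
      rw [hz', ← hz] at hsum hprod
      have i1 := h3 L z (σ z)
      rw [hsum, hprod] at i1
      have i2 : logHeight₁ (σ z) = logHeight₁ z := by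
        have h5 := ht_hom (σ : L →+* L) z
        have h6 : (0 : ℝ) < Module.finrank ℚ L := by exact_mod_cast Module.finrank_pos
        exact mul_left_cancel₀ h6.ne' h5
      have i3 : logHeight ![algebraMap K L (3 * x0 ^ 2 + a + 2 * l * y0),
          algebraMap K L (l ^ 2 - 3 * x0), (1 : L)] =
          2 * logHeight ![3 * x0 ^ 2 + a + 2 * l * y0, l ^ 2 - 3 * x0, 1] := by
        have h5 := Pool.Agent.Helper259.HtExt.logHeight_ext (K := K) (L := L)
          ![3 * x0 ^ 2 + a + 2 * l * y0, l ^ 2 - 3 * x0, 1]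
        rw [hd] at h5
        have h6 : (fun i => algebraMap K L (![3 * x0 ^ 2 + a + 2 * l * y0, l ^ 2 - 3 * x0, 1] i)) =
            ![algebraMap K L (3 * x0 ^ 2 + a + 2 * l * y0),
          algebraMap K L (l ^ 2 - 3 * x0), (1 : L)] := by
          funext i
          fin_cases i <;> simp
        rw [← h6]
        push_cast at h5
        exact h5
      rw [i3, i2, htw] at i1
      have i4 := h4 l
      have i5 : logHeight₁ x ≤ n * Real.log 2 + logHeight₁ z + 2 * logHeight₁ x0 := by
        have h5 := logHeight₁_add_le z (algebraMap K L x0)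
        rw [htw, h2 L hd] at h5
        have h6 : z + algebraMap K L x0 = x := by rw [hz]; ring
        rw [h6] at h5
        exact h5
      have i6 : logHeight₁ z ≤ n * Real.log 2 + logHeight₁ x + 2 * logHeight₁ x0 := by
        have h5 := logHeight₁_sub_le x (algebraMap K L x0)
        rw [htw, h2 L hd, ← hz] at h5
        exact h5
      rw [abs_le] at i1 i4 ⊢
      constructor <;> linarith [i1.1, i1.2, i4.1, i4.2]

end height

end Pool.Agent.U47.QE
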