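import Mathlib
import Pool.Agent.U47.QE.Pair
import Pool.Agent.TH942.Ner

/-!
# The quadratic points with given trace: translations, and the sum over all traces
-/

set_option autoImplicit false
set_option linter.unusedSectionVars false

open WeierstrassCurve Height NumberField Pool.Agent.TH942 Pool.Agent.TH910.LS

namespace Pool.Agent.U47.QE

open scoped Classical

section wt

variable {K : Type} [Field K] [NumberField K] {a b : K}

/-- the quadratic points with trace `s`, height at most `X` and parameter in `A` -/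
def WtA (s : EP a b K) (X : ℝ) (A : Set K) : Set (EP a b (AlgebraicClosure K)) :=
  {p | ∃ (L : Type) (_ : Field L) (_ : NumberField L) (_ : Algebra K L)
    (ι : L →ₐ[K] AlgebraicClosure K) (σ : L ≃ₐ[K] L) (P : EP a b L) (l : K),
    Qw s σ P ∧ Par s σ P l ∧ l ∈ A ∧ sht P ≤ X ∧ mp a b ι P = p}

/-- the quadratic points with trace `s` and height at most `X` -/
def Wt (s : EP a b K) (X : ℝ) : Set (EP a b (AlgebraicClosure K)) :=
  {p | ∃ (L : Type) (_ : Field L) (_ : NumberField L) (_ : Algebra K L)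
    (ι : L →ₐ[K] AlgebraicClosure K) (σ : L ≃ₐ[K] L) (P : EP a b L),
    Qw s σ P ∧ sht P ≤ X ∧ mp a b ι P = p}

lemma wt_eq (s : EP a b K) (X : ℝ) : Wt s X = WtA s X Set.univ := by
  ext p
  constructor
  · rintro ⟨L, _, _, _, ι, σ, P, h1, h2, h3⟩
    obtain ⟨l, hl⟩ := par_exists h1
    exact ⟨L, _, ‹_›, _, ι, σ, P, l, h1, hl, trivial, h2, h3⟩
  · rintro ⟨L, _, _, _, ι, σ, P, l, h1, -, -, h2, h3⟩
    exact ⟨L, _, ‹_›, _, ι, σ, P, h1, h2, h3⟩

theorem wtA_card (s : EP a b K) : ∃ C : ℝ, 0 ≤ C ∧ ∀ (X : ℝ) (A : Set K), (WtA s X A).Finite ∧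
    (WtA s X A).ncard ≤ 2 * (A ∩ {l | logHeight₁ l ≤ (X + C) / 2}).ncard := by
  obtain ⟨C, hC, h⟩ := par_height s
  refine ⟨C, hC, fun X A => ?_⟩
  have hfin : (A ∩ {l | logHeight₁ l ≤ (X + C) / 2}).Finite :=
    (NumberField.finite_setOfPred_logHeight₁_le K _).subset Set.inter_subset_right
  let V : K → Set (EP a b (AlgebraicClosure K)) := fun l =>
    {p | ∃ (L : Type) (_ : Field L) (_ : NumberField L) (_ : Algebra K L)
      (ι : L →ₐ[K] AlgebraicClosure K) (σ : L ≃ₐ[K] L) (P : EP a b L), Par s σ P l ∧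
      mp a b ι P = p}
  have hV : ∀ l, ∃ p0 q0, V l ⊆ {p0, q0} := by
    intro l
    by_cases hne : (V l).Nonempty
    · obtain ⟨p, L, _, _, _, ι, σ, P, h1, h2⟩ := hne
      refine ⟨mp a b ι P, mp a b ι (mp a b (σ : L →ₐ[K] L) P), ?_⟩
      rintro q ⟨L', _, _, _, ι', σ', P', h1', h2'⟩
      rw [← h2']
      exact par_pair h1 h1' ι ι'
    · rw [Set.not_nonempty_iff_eq_empty] at hne
      rw [hne]
      exact ⟨0, 0, Set.empty_subset _⟩
  have hVf : ∀ l, (V l).Finite := by
    intro l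
    obtain ⟨p0, q0, h1⟩ := hV l
    exact (Set.toFinite {p0, q0}).subset h1
  have hVc : ∀ l, (hVf l).toFinset.card ≤ 2 := by
    intro l
    obtain ⟨p0, q0, h1⟩ := hV l
    rw [← Set.ncard_eq_toFinset_card (V l) (hVf l)]
    exact (Set.ncard_le_ncard h1 (Set.toFinite _)).trans (Set.ncard_insert_le _ _ |>.trans (by simp))
  have hsub : WtA s X A ⊆ ((hfin.toFinset.biUnion fun l => (hVf l).toFinset : Finset _) :
      Set (EP a b (AlgebraicClosure K))) := by
    rintro p ⟨L, _, _, _, ι, σ, P, l, h1, h2, h3, h4, h5⟩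
    rw [Finset.mem_coe, Finset.mem_biUnion]
    refine ⟨l, ?_, ?_⟩
    · rw [Set.Finite.mem_toFinset]
      refine ⟨h3, ?_⟩
      have h6 := h L σ P l h1.cj.deg h2
      rw [abs_le] at h6
      simp only [Set.mem_ofPred_eq]
      linarith [h6.1]
    · rw [Set.Finite.mem_toFinset]
      exact ⟨L, _, ‹_›, _, ι, σ, P, h2, h5⟩
  refine ⟨(Finset.finite_toSet _).subset hsub, ?_⟩
  refine (Set.ncard_le_ncard hsub (Finset.finite_toSet _)).trans ?_
  rw [Set.ncard_coe_finset]
  refine (Finset.card_biUnion_le_card_mul _ _ 2 fun l _ => hVc l).trans ?_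
  rw [← Set.ncard_eq_toFinset_card _ hfin, mul_comm]

lemma wtA_mono (s : EP a b K) {X : ℝ} {A B : Set K} (h : A ⊆ B) : WtA s X A ⊆ WtA s X B := by
  rintro p ⟨L, _, _, _, ι, σ, P, l, h1, h2, h3, h4⟩
  exact ⟨L, _, ‹_›, _, ι, σ, P, l, h1, h2, h h3, h4⟩

end wt

section trans

variable {K : Type} [Field K] [NumberField K]

lemma sht_two {a b : K} {L : Type} [Field L] [NumberField L] [Algebra K L]
    (hd : Module.finrank K L = 2) (s : EP a b K) :
    sht (mp a b (Algebra.ofId K L) s) = 2 * sht s := by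
  have h := sht_mp (Algebra.ofId K L) s
  have h1 : (0 : ℝ) < Module.finrank ℚ K := by exact_mod_cast Module.finrank_pos
  have hfd : FiniteDimensional K L := Module.finite_of_finrank_pos (by rw [hd]; norm_num)
  rw [← Module.finrank_mul_finrank ℚ K L, hd] at h
  push_cast at h
  apply mul_left_cancel₀ h1.ne'
  linarith

theorem wt_trans (a b : 𝓞 K) (hab : 4 * (a : K) ^ 3 + 27 * (b : K) ^ 2 ≠ 0) : ∃ C : ℝ, 0 ≤ C ∧
    ∀ (s t : EP (a : K) (b : K) K) (X : ℝ) (p : EP (a : K) (b : K) (AlgebraicClosure K)),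
      p ∈ Wt s X → p - mp (a : K) (b : K) (Algebra.ofId K _) t ∈
        Wt (s - (t + t)) (X - sht s / 2 + sht (s - (t + t)) / 2 + C) := by
  obtain ⟨C1, hC1, h1⟩ := par_ge a b hab
  obtain ⟨C2, hC2, h2⟩ := par_le a b hab
  refine ⟨(C1 + C2) * Module.finrank ℚ K / 2, by positivity, ?_⟩
  rintro s t X p ⟨L, _, _, _, ι, σ, P, hw, hX, rfl⟩
  have hd := hw.cj.deg
  have hfd : FiniteDimensional K L := Module.finite_of_finrank_pos (by rw [hd]; norm_num)
  obtain ⟨P', hP'⟩ : ∃ P', P' = P - mp (a : K) (b : K) (Algebra.ofId K L) t := ⟨_, rfl⟩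
  have hσt : mp (a : K) (b : K) (σ : L →ₐ[K] L) (mp (a : K) (b : K) (Algebra.ofId K L) t) =
      mp (a : K) (b : K) (Algebra.ofId K L) t := by
    rw [mp_mp]
    have h0 : (σ : L →ₐ[K] L).comp (Algebra.ofId K L) = Algebra.ofId K L := Subsingleton.elim _ _
    rw [h0]
  have hσP : mp (a : K) (b : K) (σ : L →ₐ[K] L) P' = mp (a : K) (b : K) (σ : L →ₐ[K] L) P -
      mp (a : K) (b : K) (Algebra.ofId K L) t := by
    rw [hP', map_sub, hσt]
  have hsum : P' + mp (a : K) (b : K) (σ : L →ₐ[K] L) P' =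
      mp (a : K) (b : K) (Algebra.ofId K L) (s - (t + t)) := by
    rw [hσP, hP', map_sub, map_add, ← hw.tr]
    abel
  have hdif : P' - mp (a : K) (b : K) (σ : L →ₐ[K] L) P' =
      P - mp (a : K) (b : K) (σ : L →ₐ[K] L) P := by
    rw [hσP, hP']
    abel
  refine ⟨L, _, ‹_›, _, ι, σ, P', ⟨hw.cj, ?_, hsum⟩, ?_, ?_⟩
  · intro h
    apply hw.ne
    rw [hσP, hP'] at h
    exact sub_left_inj.1 h
  · have i1 := h1 L P' (mp (a : K) (b : K) (σ : L →ₐ[K] L) P')
    have i2 := h2 L P (mp (a : K) (b : K) (σ : L →ₐ[K] L) P)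
    rw [sht_aut, hsum, hdif, sht_two hd] at i1
    rw [sht_aut, hw.tr, sht_two hd] at i2
    have htw : (totalWeight L : ℝ) = 2 * Module.finrank ℚ K := by
      rw [tw_eq, ← Module.finrank_mul_finrank ℚ K L, hd]
      push_cast
      ring
    rw [htw] at i1 i2
    linarith
  · have h0 : ι.comp (Algebra.ofId K L) = Algebra.ofId K _ := Subsingleton.elim _ _
    rw [hP', map_sub, mp_mp, h0]

/-- representatives modulo multiples of two -/
theorem reps {A : Type} [AddCommGroup A] (hA : AddGroup.FG A) :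
    ∃ R : Finset A, ∀ s : A, ∃ t : A, s - (t + t) ∈ R := by
  obtain ⟨n, T, -, hT2⟩ := AddGroup.fg_iff'.1 hA
  refine ⟨T.powerset.image fun U => ∑ g ∈ U, g, ?_⟩
  have key : ∀ s ∈ AddSubgroup.closure (T : Set A), ∃ t : A, ∃ U ⊆ T, s - (t + t) = ∑ g ∈ U, g := by
    intro s hs
    induction hs using AddSubgroup.closure_induction with
    | mem g hg => exact ⟨0, {g}, by simpa using hg, by simp⟩
    | zero => exact ⟨0, ∅, by simp, by simp⟩
    | add x y _ _ hx hy =>
      obtain ⟨t, U, hU, h1⟩ := hx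
      obtain ⟨t', U', hU', h2⟩ := hy
      refine ⟨t + t' + ∑ g ∈ U ∩ U', g, symmDiff U U', ?_, ?_⟩
      · intro g hg
        rw [Finset.mem_symmDiff] at hg
        rcases hg with h | h
        · exact hU h.1
        · exact hU' h.1
      · have h3 : ∑ g ∈ U, g + ∑ g ∈ U', g = ∑ g ∈ symmDiff U U', g + (∑ g ∈ U ∩ U', g +
            ∑ g ∈ U ∩ U', g) := by
          have h4 : ∑ g ∈ U, g = ∑ g ∈ U \ U', g + ∑ g ∈ U ∩ U', g := by
            rw [add_comm, Finset.sum_inter_add_sum_sdiff]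
          have h5 : ∑ g ∈ U', g = ∑ g ∈ U' \ U, g + ∑ g ∈ U ∩ U', g := by
            rw [add_comm, Finset.inter_comm, Finset.sum_inter_add_sum_sdiff]
          have h6 : symmDiff U U' = U \ U' ∪ U' \ U := rfl
          rw [h6, Finset.sum_union, h4, h5]
          · abel
          · rw [Finset.disjoint_left]
            intro g hg hg'
            rw [Finset.mem_sdiff] at hg hg'
            exact hg.2 hg'.1
        rw [← h1, ← h2] at h3
        have h7 : ∑ g ∈ symmDiff U U', g = x - (t + t) + (y - (t' + t')) -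
            (∑ g ∈ U ∩ U', g + ∑ g ∈ U ∩ U', g) := by rw [h3]; abel
        rw [h7]
        abel
    | neg x _ hx =>
      obtain ⟨t, U, hU, h1⟩ := hx
      refine ⟨-t - ∑ g ∈ U, g, U, hU, ?_⟩
      rw [← h1]
      abel
  intro s
  obtain ⟨t, U, hU, h⟩ := key s (by rw [hT2]; trivial)
  refine ⟨t, ?_⟩
  rw [Finset.mem_image]
  exact ⟨U, Finset.mem_powerset.2 hU, h.symm⟩

end trans

end Pool.Agent.U47.QE
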