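import Mathlib
import Pool.Agent.U47.QE.Trans

/-!
# Few quadratic points have a large trace
-/

set_option autoImplicit false
set_option linter.unusedSectionVars false

open WeierstrassCurve Height NumberField Pool.Agent.TH942 Pool.Agent.TH910.LS Filter Topology

namespace Pool.Agent.U47.QE

open scoped Classical

variable {K : Type} [Field K] [NumberField K]

theorem summ {a b : K} (hD : 4 * a ^ 3 + 27 * b ^ 2 ≠ 0) :
    Summable (fun s : EP a b K => Real.exp (-(sht s / 2))) := by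
  have hD' : 4 * (algebraMap K K a) ^ 3 + 27 * (algebraMap K K b) ^ 2 ≠ 0 := hD
  obtain ⟨κ, hκ, hlim⟩ := neron_growth hD'
  obtain ⟨r, hr⟩ : ∃ r : ℕ, r = Module.finrank ℤ (SPt (algebraMap K K a) (algebraMap K K b)) :=
    ⟨_, rfl⟩
  rw [← hr] at hlim
  let N : ℝ → ℝ := fun B => Nat.card {P : EP a b K // sht P ≤ B}
  have hN0 : ∀ B, 0 ≤ N B := fun B => Nat.cast_nonneg _
  have h1 : Summable (fun m : ℕ => N m * Real.exp (-((m : ℝ) / 2))) := by
    have h2 : Summable (fun m : ℕ => (κ + 1) * ((m : ℝ) ^ r * Real.exp (-(1 / 2) * m))) :=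
      (Real.summable_pow_mul_exp_neg_nat_mul r (by norm_num : (0 : ℝ) < 1 / 2)).mul_left _
    refine Summable.of_norm_bounded_eventually_nat h2 ?_
    have h3 := (hlim.eventually (gt_mem_nhds (lt_add_one κ))).and (eventually_ge_atTop 1)
    have h4 := tendsto_natCast_atTop_atTop (R := ℝ) |>.eventually h3
    filter_upwards [h4] with m hm
    obtain ⟨hm1, hm2⟩ := hm
    have hm0 : (0 : ℝ) < m := by linarith
    have h5 : (0 : ℝ) < (m : ℝ) ^ ((r : ℝ) / 2) := Real.rpow_pos_of_pos hm0 _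
    rw [div_lt_iff₀ h5] at hm1
    have h6 : (m : ℝ) ^ ((r : ℝ) / 2) ≤ (m : ℝ) ^ r := by
      rw [← Real.rpow_natCast]
      apply Real.rpow_le_rpow_of_exponent_le hm2
      have : (0 : ℝ) ≤ r := Nat.cast_nonneg _
      linarith
    have h7 : N m ≤ (κ + 1) * (m : ℝ) ^ r :=
      hm1.le.trans (mul_le_mul_of_nonneg_left h6 (by linarith))
    rw [Real.norm_of_nonneg (mul_nonneg (hN0 _) (Real.exp_pos _).le)]
    have h8 : -((m : ℝ) / 2) = -(1 / 2) * m := by ring
    rw [h8, ← mul_assoc]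
    exact mul_le_mul_of_nonneg_right h7 (Real.exp_pos _).le
  have h2 : Summable (fun n : ℕ => N ((n : ℝ) + 1) * Real.exp (-((n : ℝ) / 2))) := by
    have h3 := ((summable_nat_add_iff 1).2 h1).mul_left (Real.exp (1 / 2))
    refine h3.congr fun n => ?_
    push_cast
    rw [mul_left_comm, ← Real.exp_add]
    congr 2
    ring
  have hg0 : ∀ n : ℕ, 0 ≤ N ((n : ℝ) + 1) * Real.exp (-((n : ℝ) / 2)) := fun n =>
    mul_nonneg (hN0 _) (Real.exp_pos _).le
  refine summable_of_sum_le (fun s => (Real.exp_pos _).le)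
    (c := ∑' n : ℕ, N ((n : ℝ) + 1) * Real.exp (-((n : ℝ) / 2))) fun u => ?_
  rw [← Finset.sum_fiberwise_of_maps_to (g := fun s : EP a b K => ⌊sht s⌋₊)
    (t := u.image fun s : EP a b K => ⌊sht s⌋₊) (fun s hs => Finset.mem_image_of_mem _ hs)]
  refine le_trans (Finset.sum_le_sum fun n _ => ?_) (h2.sum_le_tsum _ fun n _ => hg0 n)
  have hfin : {P : EP a b K | sht P ≤ (n : ℝ) + 1}.Finite := sfinite_ht _
  have h3 : ((u.filter fun s : EP a b K => ⌊sht s⌋₊ = n).card : ℝ) ≤ N ((n : ℝ) + 1) := by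
    have h4 : (u.filter fun s : EP a b K => ⌊sht s⌋₊ = n).card ≤ hfin.toFinset.card := by
      apply Finset.card_le_card
      intro s hs
      rw [Finset.mem_filter] at hs
      rw [Set.Finite.mem_toFinset, Set.mem_ofPred_eq, ← hs.2]
      exact (Nat.lt_floor_add_one _).le
    have h5 : hfin.toFinset.card = Nat.card {P : EP a b K // sht P ≤ (n : ℝ) + 1} := by
      rw [← Set.ncard_eq_toFinset_card _ hfin]
      rfl
    rw [h5] at h4
    exact Nat.cast_le.2 h4
  calc ∑ s ∈ u.filter (fun s : EP a b K => ⌊sht s⌋₊ = n), Real.exp (-(sht s / 2)) ≤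
        ∑ s ∈ u.filter (fun s : EP a b K => ⌊sht s⌋₊ = n), Real.exp (-((n : ℝ) / 2)) := by
        refine Finset.sum_le_sum fun s hs => ?_
        rw [Finset.mem_filter] at hs
        rw [Real.exp_le_exp]
        have h4 : ((⌊sht s⌋₊ : ℕ) : ℝ) ≤ sht s := Nat.floor_le (sht_nonneg s)
        rw [hs.2] at h4
        linarith
    _ = ((u.filter fun s : EP a b K => ⌊sht s⌋₊ = n).card : ℝ) * Real.exp (-((n : ℝ) / 2)) := by
        rw [Finset.sum_const, nsmul_eq_mul]
    _ ≤ _ := mul_le_mul_of_nonneg_right h3 (Real.exp_pos _).le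

/-- the number of the points of one trace -/
theorem wt_card {a b : K} (hU : ∃ C : ℝ, 0 ≤ C ∧ ∀ X : ℝ,
    (({l : K | logHeight₁ l ≤ X}.ncard : ℕ) : ℝ) ≤ C * Real.exp (2 * X)) (s : EP a b K) :
    ∃ C : ℝ, 0 ≤ C ∧ ∀ X : ℝ, (Wt s X).Finite ∧ ((Wt s X).ncard : ℝ) ≤ C * Real.exp X := by
  obtain ⟨Cu, hCu, hU⟩ := hU
  obtain ⟨C, hC, h⟩ := wtA_card s
  refine ⟨2 * Cu * Real.exp C, by positivity, fun X => ?_⟩
  rw [wt_eq]
  obtain ⟨h1, h2⟩ := h X Set.univ
  refine ⟨h1, ?_⟩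
  rw [Set.univ_inter] at h2
  have h3 := hU ((X + C) / 2)
  have h4 : ((WtA s X Set.univ).ncard : ℝ) ≤ 2 * (({l : K | logHeight₁ l ≤ (X + C) / 2}.ncard : ℕ) : ℝ) := by
    exact_mod_cast h2
  have h5 : 2 * ((X + C) / 2) = C + X := by ring
  rw [h5, Real.exp_add] at h3
  linarith

lemma wt_nonneg {a b : K} {s : EP a b K} {X : ℝ} (h : (Wt s X).Nonempty) : 0 ≤ X := by
  obtain ⟨p, L, _, _, _, ι, σ, P, h1, h2, h3⟩ := h
  exact (sht_nonneg P).trans h2

/-- **few quadratic points have a large trace** -/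
theorem tail (a b : 𝓞 K) (hab : 4 * (a : K) ^ 3 + 27 * (b : K) ^ 2 ≠ 0)
    (hU : ∃ C : ℝ, 0 ≤ C ∧ ∀ X : ℝ,
      (({l : K | logHeight₁ l ≤ X}.ncard : ℕ) : ℝ) ≤ C * Real.exp (2 * X)) {δ : ℝ} (hδ : 0 < δ) :
    ∃ F : Finset (EP (a : K) (b : K) K), ∀ X : ℝ,
      {p : EP (a : K) (b : K) (AlgebraicClosure K) | ∃ s, s ∉ F ∧ p ∈ Wt s X}.Finite ∧
      ({p : EP (a : K) (b : K) (AlgebraicClosure K) | ∃ s, s ∉ F ∧ p ∈ Wt s X}.ncard : ℝ) ≤
        δ * Real.exp X := by
  have hD' : 4 * (algebraMap K K (a : K)) ^ 3 + 27 * (algebraMap K K (b : K)) ^ 2 ≠ 0 := hab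
  obtain ⟨R, hR⟩ := reps (sfg hD')
  choose t ht using hR
  have hU' := fun s => wt_card (a := (a : K)) (b := (b : K)) hU s
  choose c hc hcard using hU'
  obtain ⟨C, hC, htr⟩ := wt_trans a b hab
  obtain ⟨M, hM⟩ : ∃ M : ℝ, M = ∑ r ∈ R, c r * Real.exp (sht r / 2) := ⟨_, rfl⟩
  obtain ⟨D, hD⟩ : ∃ D : ℝ, D = ∑ r ∈ R, sht r := ⟨_, rfl⟩
  have hMr : ∀ r ∈ R, c r * Real.exp (sht r / 2) ≤ M := by
    intro r hr
    rw [hM]
    exact Finset.single_le_sum (f := fun r => c r * Real.exp (sht r / 2))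
      (fun r _ => mul_nonneg (hc r) (Real.exp_pos _).le) hr
  have hDr : ∀ r ∈ R, sht r ≤ D := by
    intro r hr
    rw [hD]
    have h0 : ∀ r : EP (a : K) (b : K) K, 0 ≤ sht r := fun r => sht_nonneg r
    exact Finset.single_le_sum (f := fun r : EP (a : K) (b : K) K => sht r)
      (fun r _ => h0 r) hr
  have hM0 : 0 ≤ M := by
    rw [hM]
    exact Finset.sum_nonneg fun r _ => mul_nonneg (hc r) (Real.exp_pos _).le
  have hD0 : 0 ≤ D := by
    rw [hD]
    exact Finset.sum_nonneg fun (r : EP (a : K) (b : K) K) _ => sht_nonneg r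
  have hinj : ∀ s : EP (a : K) (b : K) K, Function.Injective
      (fun p : EP (a : K) (b : K) (AlgebraicClosure K) =>
        p - mp (a : K) (b : K) (Algebra.ofId K _) (t s)) := fun s p q h => sub_left_inj.1 h
  have hone : ∀ (s : EP (a : K) (b : K) K) (X : ℝ), ((Wt s X).ncard : ℝ) ≤ (M * Real.exp C + 1) * Real.exp X *
      Real.exp (-(sht s / 2)) := by
    intro s X
    obtain ⟨h1, h2⟩ := hcard (s - (t s + t s)) (X - sht s / 2 + sht (s - (t s + t s)) / 2 + C)
    have h3 := Set.ncard_le_ncard_of_injOn (s := Wt s X) _ (fun p hp => htr s (t s) X p hp)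
      ((hinj s).injOn) h1
    have h4 : ((Wt s X).ncard : ℝ) ≤
      ((Wt (s - (t s + t s)) (X - sht s / 2 + sht (s - (t s + t s)) / 2 + C)).ncard : ℝ) := by
      exact_mod_cast h3
    refine (h4.trans h2).trans ?_
    have h5 : X - sht s / 2 + sht (s - (t s + t s)) / 2 + C =
        sht (s - (t s + t s)) / 2 + (C + (X + -(sht s / 2))) := by ring
    rw [h5, Real.exp_add, Real.exp_add, Real.exp_add, ← mul_assoc]
    have h6 := hMr _ (ht s)
    have e1 := Real.exp_pos C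
    have e2 := Real.exp_pos X
    have e3 := Real.exp_pos (-(sht s / 2))
    calc c (s - (t s + t s)) * Real.exp (sht (s - (t s + t s)) / 2) *
          (Real.exp C * (Real.exp X * Real.exp (-(sht s / 2)))) ≤
          M * (Real.exp C * (Real.exp X * Real.exp (-(sht s / 2)))) :=
          mul_le_mul_of_nonneg_right h6 (by positivity)
      _ ≤ _ := by
          have : 0 ≤ Real.exp X * Real.exp (-(sht s / 2)) := by positivity
          nlinarith
  have hM1 : 0 < M * Real.exp C + 1 := by positivity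
  obtain ⟨F, hF⟩ := summable_iff_vanishing_norm.1 (summ (a := (a : K)) (b := (b : K)) hab)
    (δ / (M * Real.exp C + 1)) (by positivity)
  refine ⟨F, fun X => ?_⟩
  have hGf : {s : EP (a : K) (b : K) K | sht s ≤ 2 * (X + C + D)}.Finite := sfinite_ht _
  obtain ⟨G, hG⟩ : ∃ G : Finset (EP (a : K) (b : K) K), G = hGf.toFinset \ F := ⟨_, rfl⟩
  have hWf : ∀ s : EP (a : K) (b : K) K, (Wt s X).Finite := fun s => (hcard s X).1
  have hsub : {p : EP (a : K) (b : K) (AlgebraicClosure K) | ∃ s, s ∉ F ∧ p ∈ Wt s X} ⊆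
      ((G.biUnion fun s => (hWf s).toFinset : Finset _) :
        Set (EP (a : K) (b : K) (AlgebraicClosure K))) := by
    rintro p ⟨s, hs, hp⟩
    rw [Finset.mem_coe, Finset.mem_biUnion]
    refine ⟨s, ?_, (Set.Finite.mem_toFinset _).2 hp⟩
    rw [hG, Finset.mem_sdiff, Set.Finite.mem_toFinset]
    refine ⟨?_, hs⟩
    have h1 := wt_nonneg ⟨_, htr s (t s) X p hp⟩
    have h2 := hDr _ (ht s)
    have h3 := sht_nonneg (s - (t s + t s))
    simp only [Set.mem_ofPred_eq]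
    linarith
  refine ⟨(Finset.finite_toSet _).subset hsub, ?_⟩
  have h1 : ({p : EP (a : K) (b : K) (AlgebraicClosure K) | ∃ s, s ∉ F ∧ p ∈ Wt s X}.ncard : ℝ) ≤
      ∑ s ∈ G, ((Wt s X).ncard : ℝ) := by
    have h2 := Set.ncard_le_ncard hsub (Finset.finite_toSet _)
    rw [Set.ncard_coe_finset] at h2
    have h3 := h2.trans Finset.card_biUnion_le
    have h4 : ∀ s, (hWf s).toFinset.card = (Wt s X).ncard := fun s =>
      (Set.ncard_eq_toFinset_card _ (hWf s)).symm
    simp only [h4] at h3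
    exact_mod_cast h3
  refine h1.trans ((Finset.sum_le_sum fun s _ => hone s X).trans ?_)
  rw [← Finset.mul_sum]
  have h2 := hF G (by rw [hG]; exact Finset.sdiff_disjoint)
  rw [Real.norm_of_nonneg (Finset.sum_nonneg fun s _ => (Real.exp_pos _).le),
    lt_div_iff₀ hM1] at h2
  have e2 := Real.exp_pos X
  nlinarith

end Pool.Agent.U47.QE
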