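import Mathlib
import Pool.Agent.U47.QE.Tail

/-!
# Negligible sets of quadratic points
-/

set_option autoImplicit false
set_option linter.unusedSectionVars false

open WeierstrassCurve Height NumberField Pool.Agent.TH942 Filter Topology

namespace Pool.Agent.U47.QE

open scoped Classical

section neg

/-- a family of finite sets and negligible sets -/
def Ngl {T : Type} (Q : ℝ → Set T) (B : Set T) : Prop :=
  ∀ δ : ℝ, 0 < δ → ∃ X₀ : ℝ, ∀ X : ℝ, X₀ ≤ X → ((B ∩ Q X).ncard : ℝ) ≤ δ * Real.exp X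

variable {T : Type} {Q : ℝ → Set T}

lemma ngl_mono {B B' : Set T} (hf : ∀ X, (Q X).Finite) (h : Ngl Q B) (hs : B' ⊆ B) :
    Ngl Q B' := by
  intro δ hδ
  obtain ⟨X₀, h1⟩ := h δ hδ
  refine ⟨X₀, fun X hX => le_trans ?_ (h1 X hX)⟩
  exact_mod_cast Set.ncard_le_ncard (Set.inter_subset_inter_left _ hs)
    ((hf X).subset Set.inter_subset_right)

lemma ngl_union {B B' : Set T} (h : Ngl Q B) (h' : Ngl Q B') : Ngl Q (B ∪ B') := by
  intro δ hδ
  obtain ⟨X₀, h1⟩ := h (δ / 2) (by positivity)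
  obtain ⟨X₁, h2⟩ := h' (δ / 2) (by positivity)
  refine ⟨max X₀ X₁, fun X hX => ?_⟩
  have e1 := h1 X ((le_max_left _ _).trans hX)
  have e2 := h2 X ((le_max_right _ _).trans hX)
  have e3 : (((B ∪ B') ∩ Q X).ncard : ℝ) ≤ ((B ∩ Q X).ncard : ℝ) + ((B' ∩ Q X).ncard : ℝ) := by
    rw [Set.union_inter_distrib_right]
    exact_mod_cast Set.ncard_union_le _ _
  linarith

lemma ngl_empty : Ngl Q (∅ : Set T) := by
  intro δ hδ
  refine ⟨0, fun X _ => ?_⟩
  rw [Set.empty_inter, Set.ncard_empty, Nat.cast_zero]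
  positivity

/-- **diagonalisation** -/
theorem diag (hf : ∀ X, (Q X).Finite) (hm : ∀ X Y, X ≤ Y → Q X ⊆ Q Y) (B : ℕ → Set T)
    (hB : ∀ n, Ngl Q (B n)) : ∃ E : Set T, Ngl Q E ∧ ∀ n, ∃ X : ℝ, B n \ E ⊆ Q X := by
  let U : ℕ → Set T := fun n => ⋃ i ∈ Finset.range (n + 1), B i
  have hU : ∀ n, Ngl Q (U n) := by
    intro n
    induction n with
    | zero =>
      have : U 0 = B 0 := by
        simp [U]
      rw [this]
      exact hB 0
    | succ n ih =>
      have : U (n + 1) = B (n + 1) ∪ U n := by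
        simp only [U]
        rw [Finset.range_add_one, Finset.set_biUnion_insert]
      rw [this]
      exact ngl_union (hB _) ih
  have hY : ∀ n : ℕ, ∃ Y : ℝ, ∀ X, Y ≤ X →
      ((U n ∩ Q X).ncard : ℝ) ≤ 1 / ((n : ℝ) + 1) * Real.exp X := fun n => hU n _ (by positivity)
  choose Y hY using hY
  let Z : ℕ → ℝ := fun n => n + ∑ i ∈ Finset.range (n + 1), |Y i|
  have hZY : ∀ n, Y n ≤ Z n := by
    intro n
    have h1 : |Y n| ≤ ∑ i ∈ Finset.range (n + 1), |Y i| :=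
      Finset.single_le_sum (f := fun i => |Y i|) (fun i _ => abs_nonneg _)
        (Finset.mem_range.2 (Nat.lt_succ_self n))
    have h2 := le_abs_self (Y n)
    have h3 : (0 : ℝ) ≤ n := Nat.cast_nonneg n
    simp only [Z]
    linarith
  have hZn : ∀ n : ℕ, (n : ℝ) ≤ Z n := by
    intro n
    have h1 : 0 ≤ ∑ i ∈ Finset.range (n + 1), |Y i| := Finset.sum_nonneg fun i _ => abs_nonneg _
    simp only [Z]
    linarith
  refine ⟨⋃ n, B n \ Q (Z n), ?_, fun n => ⟨Z n, ?_⟩⟩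
  · intro δ hδ
    obtain ⟨M, hM⟩ := exists_nat_one_div_lt hδ
    refine ⟨Z M, fun X hX => ?_⟩
    obtain ⟨b, hb⟩ := exists_nat_ge X
    have hMb : M ≤ b := by
      have h1 := hZn M
      have h2 : (M : ℝ) ≤ b := by linarith
      exact_mod_cast h2
    obtain ⟨N, hN⟩ : ∃ N, N = Nat.findGreatest (fun n => Z n ≤ X) b := ⟨_, rfl⟩
    have hN1 : Z N ≤ X := by
      rw [hN]
      exact Nat.findGreatest_spec (P := fun n => Z n ≤ X) hMb hX
    have hN2 : M ≤ N := by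
      rw [hN]
      exact Nat.le_findGreatest hMb hX
    have hsub : (⋃ n, B n \ Q (Z n)) ∩ Q X ⊆ U N ∩ Q X := by
      rintro p ⟨hp1, hp2⟩
      refine ⟨?_, hp2⟩
      rw [Set.mem_iUnion] at hp1
      obtain ⟨n, hn1, hn2⟩ := hp1
      have h1 : Z n < X := by
        by_contra hcon
        push Not at hcon
        exact hn2 (hm _ _ hcon hp2)
      have h2 : n ≤ b := by
        have h3 := hZn n
        have h4 : (n : ℝ) ≤ b := by linarith
        exact_mod_cast h4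
      have h3 : n ≤ N := by
        rw [hN]
        exact Nat.le_findGreatest h2 h1.le
      simp only [U]
      rw [Set.mem_iUnion₂]
      exact ⟨n, Finset.mem_range.2 (Nat.lt_succ_of_le h3), hn1⟩
    have h1 : (((⋃ n, B n \ Q (Z n)) ∩ Q X).ncard : ℝ) ≤ ((U N ∩ Q X).ncard : ℝ) := by
      exact_mod_cast Set.ncard_le_ncard hsub ((hf X).subset Set.inter_subset_right)
    have h2 := hY N X ((hZY N).trans hN1)
    refine (h1.trans h2).trans (mul_le_mul_of_nonneg_right ?_ (Real.exp_pos _).le)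
    refine le_trans ?_ hM.le
    apply one_div_le_one_div_of_le (by positivity)
    have : (M : ℝ) ≤ N := by exact_mod_cast hN2
    linarith
  · rintro p ⟨hp1, hp2⟩
    by_contra hcon
    exact hp2 (Set.mem_iUnion.2 ⟨n, hp1, hcon⟩)

end neg

section quad

variable {K : Type} [Field K] [NumberField K]

/-- the quadratic points of height at most `X` -/
def QQ (a b : K) (X : ℝ) : Set (EP a b (AlgebraicClosure K)) := {p | ∃ s, p ∈ Wt s X}

lemma wt_mono {a b : K} (s : EP a b K) {X Y : ℝ} (h : X ≤ Y) : Wt s X ⊆ Wt s Y := by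
  rintro p ⟨L, _, _, _, ι, σ, P, h1, h2, h3⟩
  exact ⟨L, _, ‹_›, _, ι, σ, P, h1, h2.trans h, h3⟩

lemma qq_mono {a b : K} {X Y : ℝ} (h : X ≤ Y) : QQ a b X ⊆ QQ a b Y := by
  rintro p ⟨s, hs⟩
  exact ⟨s, wt_mono s h hs⟩

theorem qq_fin (a b : 𝓞 K) (hab : 4 * (a : K) ^ 3 + 27 * (b : K) ^ 2 ≠ 0)
    (hU : ∃ C : ℝ, 0 ≤ C ∧ ∀ X : ℝ,
      (({l : K | logHeight₁ l ≤ X}.ncard : ℕ) : ℝ) ≤ C * Real.exp (2 * X)) :
    ∃ C : ℝ, 0 ≤ C ∧ ∀ X : ℝ, (QQ (a : K) (b : K) X).Finite ∧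
      ((QQ (a : K) (b : K) X).ncard : ℝ) ≤ C * Real.exp X := by
  obtain ⟨F, hF⟩ := tail a b hab hU one_pos
  have hw := fun s => wt_card (a := (a : K)) (b := (b : K)) hU s
  choose c hc hcard using hw
  have hc0 : 0 ≤ ∑ s ∈ F, c s := Finset.sum_nonneg fun s _ => hc s
  refine ⟨1 + ∑ s ∈ F, c s, by positivity, fun X => ?_⟩
  have hsub : QQ (a : K) (b : K) X ⊆
      {p : EP (a : K) (b : K) (AlgebraicClosure K) | ∃ s, s ∉ F ∧ p ∈ Wt s X} ∪
        ((F.biUnion fun s => (hcard s X).1.toFinset : Finset _) :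
          Set (EP (a : K) (b : K) (AlgebraicClosure K))) := by
    rintro p ⟨s, hs⟩
    by_cases h : s ∈ F
    · right
      rw [Finset.mem_coe, Finset.mem_biUnion]
      exact ⟨s, h, (Set.Finite.mem_toFinset _).2 hs⟩
    · left
      exact ⟨s, h, hs⟩
  have hfin := (hF X).1.union (Finset.finite_toSet
    (F.biUnion fun s => (hcard s X).1.toFinset))
  refine ⟨hfin.subset hsub, ?_⟩
  have h1 := (Set.ncard_le_ncard hsub hfin).trans (Set.ncard_union_le _ _)
  rw [Set.ncard_coe_finset] at h1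
  have h2 := (h1.trans (Nat.add_le_add_left Finset.card_biUnion_le _))
  have h4 : ∀ s, (hcard s X).1.toFinset.card = (Wt s X).ncard := fun s =>
    (Set.ncard_eq_toFinset_card _ (hcard s X).1).symm
  simp only [h4] at h2
  have h3 : ((QQ (a : K) (b : K) X).ncard : ℝ) ≤
      ({p : EP (a : K) (b : K) (AlgebraicClosure K) | ∃ s, s ∉ F ∧ p ∈ Wt s X}.ncard : ℝ) +
        ∑ s ∈ F, ((Wt s X).ncard : ℝ) := by exact_mod_cast h2
  have h5 : ∑ s ∈ F, ((Wt s X).ncard : ℝ) ≤ (∑ s ∈ F, c s) * Real.exp X := by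
    rw [Finset.sum_mul]
    exact Finset.sum_le_sum fun s _ => (hcard s X).2
  have h6 := (hF X).2
  linarith

/-- a set which is negligible among the points of every trace -/
theorem ngl_of_traces (a b : 𝓞 K) (hab : 4 * (a : K) ^ 3 + 27 * (b : K) ^ 2 ≠ 0)
    (hU : ∃ C : ℝ, 0 ≤ C ∧ ∀ X : ℝ,
      (({l : K | logHeight₁ l ≤ X}.ncard : ℕ) : ℝ) ≤ C * Real.exp (2 * X))
    (B : Set (EP (a : K) (b : K) (AlgebraicClosure K)))
    (hB : ∀ s : EP (a : K) (b : K) K, ∀ δ : ℝ, 0 < δ → ∃ X₀ : ℝ, ∀ X : ℝ, X₀ ≤ X →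
      ((B ∩ Wt s X).ncard : ℝ) ≤ δ * Real.exp X) : Ngl (QQ (a : K) (b : K)) B := by
  intro δ hδ
  obtain ⟨F, hF⟩ := tail a b hab hU (half_pos hδ)
  have hw := fun s => wt_card (a := (a : K)) (b := (b : K)) hU s
  choose c hc hcard using hw
  have hδ' : 0 < δ / 2 / (F.card + 1) := by positivity
  have h1 := fun s => hB s _ hδ'
  choose X₀ hX₀ using h1
  refine ⟨∑ s ∈ F, |X₀ s|, fun X hX => ?_⟩
  have hXs : ∀ s ∈ F, X₀ s ≤ X := by
    intro s hs
    have h1 : |X₀ s| ≤ ∑ s ∈ F, |X₀ s| :=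
      Finset.single_le_sum (f := fun s => |X₀ s|) (fun i _ => abs_nonneg _) hs
    have h2 := le_abs_self (X₀ s)
    linarith
  have hBf : ∀ s, (B ∩ Wt s X).Finite := fun s => (hcard s X).1.subset Set.inter_subset_right
  have hsub : B ∩ QQ (a : K) (b : K) X ⊆
      {p : EP (a : K) (b : K) (AlgebraicClosure K) | ∃ s, s ∉ F ∧ p ∈ Wt s X} ∪
        ((F.biUnion fun s => (hBf s).toFinset : Finset _) :
          Set (EP (a : K) (b : K) (AlgebraicClosure K))) := by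
    rintro p ⟨hp, s, hs⟩
    by_cases h : s ∈ F
    · right
      rw [Finset.mem_coe, Finset.mem_biUnion]
      exact ⟨s, h, (Set.Finite.mem_toFinset _).2 ⟨hp, hs⟩⟩
    · left
      exact ⟨s, h, hs⟩
  have hfin := (hF X).1.union (Finset.finite_toSet (F.biUnion fun s => (hBf s).toFinset))
  have h1 := (Set.ncard_le_ncard hsub hfin).trans (Set.ncard_union_le _ _)
  rw [Set.ncard_coe_finset] at h1
  have h2 := (h1.trans (Nat.add_le_add_left Finset.card_biUnion_le _))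
  have h4 : ∀ s, (hBf s).toFinset.card = (B ∩ Wt s X).ncard := fun s =>
    (Set.ncard_eq_toFinset_card _ (hBf s)).symm
  simp only [h4] at h2
  have h3 : ((B ∩ QQ (a : K) (b : K) X).ncard : ℝ) ≤
      ({p : EP (a : K) (b : K) (AlgebraicClosure K) | ∃ s, s ∉ F ∧ p ∈ Wt s X}.ncard : ℝ) +
        ∑ s ∈ F, ((B ∩ Wt s X).ncard : ℝ) := by exact_mod_cast h2
  have h5 : ∑ s ∈ F, ((B ∩ Wt s X).ncard : ℝ) ≤ δ / 2 * Real.exp X := by
    have h6 : ∑ s ∈ F, ((B ∩ Wt s X).ncard : ℝ) ≤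
        ∑ s ∈ F, δ / 2 / (F.card + 1) * Real.exp X :=
      Finset.sum_le_sum fun s hs => hX₀ s X (hXs s hs)
    refine h6.trans ?_
    rw [Finset.sum_const, nsmul_eq_mul, ← mul_assoc]
    refine mul_le_mul_of_nonneg_right ?_ (Real.exp_pos _).le
    have h7 : (0 : ℝ) < F.card + 1 := by positivity
    rw [mul_div_assoc', div_le_iff₀ h7]
    nlinarith
  have h6 := (hF X).2
  linarith

end quad

end Pool.Agent.U47.QE
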