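import Mathlib
import Pool.Agent.U47.QE.Neg

/-!
# The number of all quadratic points; the points over a fixed field
-/

set_option autoImplicit false
set_option linter.unusedSectionVars false

open WeierstrassCurve Height NumberField Pool.Agent.TH942 Filter Topology Polynomial

namespace Pool.Agent.U47.QE

open scoped Classical

theorem exists_trace {K : Type} [Field K] [CharZero K] {a b : K}
    (hab : 4 * a ^ 3 + 27 * b ^ 2 ≠ 0) {L : Type} [Field L] [Algebra K L] {σ : L ≃ₐ[K] L}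
    (hσ : Cj σ) (P : EP a b L) : ∃ s : EP a b K, P + mp a b (σ : L →ₐ[K] L) P =
      mp a b (Algebra.ofId K L) s := by
  have hσσ : mp a b (σ : L →ₐ[K] L) (mp a b (σ : L →ₐ[K] L) P) = P := by
    match P with
    | 0 => rw [map_zero, map_zero]
    | .some x y h =>
      rw [mp_some, mp_some]
      exact spt_ext (hσ.inv x) (hσ.inv y)
  have hfix : mp a b (σ : L →ₐ[K] L) (P + mp a b (σ : L →ₐ[K] L) P) =
      P + mp a b (σ : L →ₐ[K] L) P := by
    rw [map_add, hσσ, add_comm]
  obtain ⟨Q, hQ⟩ : ∃ Q, Q = P + mp a b (σ : L →ₐ[K] L) P := ⟨_, rfl⟩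
  rw [← hQ] at hfix ⊢
  match Q, hfix with
  | 0, _ => exact ⟨0, by rw [map_zero]⟩
  | .some x y h, hfix =>
    rw [mp_some, Affine.Point.some.injEq] at hfix
    obtain ⟨x0, rfl⟩ := (hσ.fix x).1 hfix.1
    obtain ⟨y0, rfl⟩ := (hσ.fix y).1 hfix.2
    have e := eqL h
    have e0 : y0 ^ 2 = x0 ^ 3 + a * x0 + b := by
      apply (algebraMap K L).injective
      rw [map_pow, e, map_add, map_add, map_mul, map_pow]
    refine ⟨Affine.Point.some x0 y0 (sw_nonsing hab e0), ?_⟩
    rw [mp_some]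
    rfl

section few

variable {K : Type} [Field K] [NumberField K]

/-- there are few points over a number field -/
theorem few {a b : K} (hD : 4 * a ^ 3 + 27 * b ^ 2 ≠ 0) (L : Type) [Field L] [NumberField L]
    [Algebra K L] {c δ : ℝ} (hc : 0 < c) (hδ : 0 < δ) : ∃ X₀ : ℝ, ∀ X : ℝ, X₀ ≤ X →
      ({P : EP a b L | sht P ≤ c * X}.ncard : ℝ) ≤ δ * Real.exp X := by
  have hD' : 4 * (algebraMap K L a) ^ 3 + 27 * (algebraMap K L b) ^ 2 ≠ 0 := by
    have h1 : algebraMap K L (4 * a ^ 3 + 27 * b ^ 2) ≠ 0 := by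
      rw [ne_eq, map_eq_zero]
      exact hD
    rw [map_add, map_mul, map_mul, map_pow, map_pow, map_ofNat, map_ofNat] at h1
    exact h1
  obtain ⟨κ, hκ, hlim⟩ := neron_growth hD'
  obtain ⟨r, hr⟩ : ∃ r : ℕ, r = Module.finrank ℤ (SPt (algebraMap K L a) (algebraMap K L b)) :=
    ⟨_, rfl⟩
  rw [← hr] at hlim
  have h3 := (hlim.eventually (gt_mem_nhds (lt_add_one κ))).and (eventually_ge_atTop 1)
  have h4 := (tendsto_id.const_mul_atTop hc).eventually h3
  have h5 : Tendsto (fun X : ℝ => (κ + 1) * c ^ r * (X ^ r * Real.exp (-X))) atTop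
      (𝓝 ((κ + 1) * c ^ r * 0)) :=
    (Real.tendsto_pow_mul_exp_neg_atTop_nhds_zero r).const_mul _
  rw [mul_zero] at h5
  have h6 := h4.and (h5.eventually (gt_mem_nhds hδ))
  obtain ⟨X₀, hX₀⟩ := eventually_atTop.1 h6
  refine ⟨X₀, fun X hX => ?_⟩
  obtain ⟨⟨h7, h8⟩, h9⟩ := hX₀ X hX
  simp only [id_eq] at h7 h8
  have hcX : (0 : ℝ) < c * X := by linarith
  have h10 : (0 : ℝ) < (c * X) ^ ((r : ℝ) / 2) := Real.rpow_pos_of_pos hcX _
  rw [div_lt_iff₀ h10] at h7
  have h11 : (c * X) ^ ((r : ℝ) / 2) ≤ (c * X) ^ r := by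
    rw [← Real.rpow_natCast]
    apply Real.rpow_le_rpow_of_exponent_le h8
    have : (0 : ℝ) ≤ r := Nat.cast_nonneg _
    linarith
  have h12 : ({P : EP a b L | sht P ≤ c * X}.ncard : ℝ) =
      (Nat.card {P : SPt (algebraMap K L a) (algebraMap K L b) // sht P ≤ c * X} : ℝ) := rfl
  rw [h12]
  have h13 : (κ + 1) * (c * X) ^ r ≤ δ * Real.exp X := by
    have e : (κ + 1) * (c * X) ^ r = (κ + 1) * c ^ r * (X ^ r * Real.exp (-X)) * Real.exp X := by
      rw [mul_pow, mul_assoc _ _ (Real.exp X), mul_assoc (X ^ r), ← Real.exp_add, neg_add_cancel,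
        Real.exp_zero, mul_one]
      ring
    rw [e]
    exact mul_le_mul_of_nonneg_right h9.le (Real.exp_pos _).le
  have h14 : (κ + 1) * (c * X) ^ ((r : ℝ) / 2) ≤ (κ + 1) * (c * X) ^ r :=
    mul_le_mul_of_nonneg_left h11 (by linarith)
  linarith

/-- the quadratic points whose field embeds into `k` -/
def EmbS (a b : K) (k : Type) [Field k] [Algebra K k] (X : ℝ) :
    Set (EP a b (AlgebraicClosure K)) :=
  {p | ∃ (L : Type) (_ : Field L) (_ : NumberField L) (_ : Algebra K L)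
    (ι : L →ₐ[K] AlgebraicClosure K) (P : EP a b L),
    Nonempty (L →ₐ[K] k) ∧ sht P ≤ X ∧ mp a b ι P = p}

theorem emb_few {a b : K} (hD : 4 * a ^ 3 + 27 * b ^ 2 ≠ 0) (k : Type) [Field k] [NumberField k]
    [Algebra K k] {δ : ℝ} (hδ : 0 < δ) : ∃ X₀ : ℝ, ∀ X : ℝ, X₀ ≤ X →
      (EmbS a b k X).Finite ∧ ((EmbS a b k X).ncard : ℝ) ≤ δ * Real.exp X := by
  have hfdk : FiniteDimensional K k := FiniteDimensional.right ℚ K k
  let _ : Fintype (k →ₐ[K] AlgebraicClosure K) := Fintype.ofFinite _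
  obtain ⟨N, hN⟩ : ∃ N : ℕ, N = Fintype.card (k →ₐ[K] AlgebraicClosure K) := ⟨_, rfl⟩
  have hk0 : (0 : ℝ) < Module.finrank ℚ k := by exact_mod_cast Module.finrank_pos
  obtain ⟨X₀, hX₀⟩ := few hD k hk0 (δ := δ / (N + 1)) (by positivity)
  refine ⟨max X₀ 0, fun X hX => ?_⟩
  have hX0 : 0 ≤ X := (le_max_right _ _).trans hX
  have hSf : {P : EP a b k | sht P ≤ Module.finrank ℚ k * X}.Finite := sfinite_ht _
  have hsub : EmbS a b k X ⊆ ((Finset.univ.biUnion fun ψ : k →ₐ[K] AlgebraicClosure K =>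
      hSf.toFinset.image (mp a b ψ) : Finset _) : Set (EP a b (AlgebraicClosure K))) := by
    rintro p ⟨L, _, _, _, ι, P, ⟨φ⟩, h1, rfl⟩
    rw [Finset.mem_coe, Finset.mem_biUnion]
    let _ : Algebra L k := φ.toRingHom.toAlgebra
    let _ : Algebra L (AlgebraicClosure K) := ι.toRingHom.toAlgebra
    have hfdL : FiniteDimensional L k := FiniteDimensional.right ℚ L k
    let ψ1 : k →ₐ[L] AlgebraicClosure K := IsAlgClosed.lift
    have hψ1 : ∀ z : L, ψ1 (φ z) = ι z := fun z => ψ1.commutes z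
    let ψ : k →ₐ[K] AlgebraicClosure K :=
      { (ψ1 : k →+* AlgebraicClosure K) with
        commutes' := fun z => by
          change ψ1 (algebraMap K k z) = _
          rw [← φ.commutes, hψ1, ι.commutes] }
    refine ⟨ψ, Finset.mem_univ _, ?_⟩
    rw [Finset.mem_image]
    refine ⟨mp a b φ P, ?_, ?_⟩
    · rw [Set.Finite.mem_toFinset]
      change sht (mp a b φ P) ≤ Module.finrank ℚ k * X
      have h2 := sht_mp φ P
      have h3 : (1 : ℝ) ≤ Module.finrank ℚ L := by
        have : 0 < Module.finrank ℚ L := Module.finrank_pos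
        exact_mod_cast this
      have h4 := sht_nonneg (mp a b φ P)
      have h5 := mul_le_mul_of_nonneg_left h1 hk0.le
      nlinarith
    · rw [mp_mp]
      have : ψ.comp φ = ι := by
        ext z
        exact hψ1 z
      rw [this]
  refine ⟨(Finset.finite_toSet _).subset hsub, ?_⟩
  have h1 := Set.ncard_le_ncard hsub (Finset.finite_toSet _)
  rw [Set.ncard_coe_finset] at h1
  have h2 := h1.trans (Finset.card_biUnion_le_card_mul _ _ hSf.toFinset.card
    fun ψ _ => Finset.card_image_le)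
  rw [Finset.card_univ, ← hN, ← Set.ncard_eq_toFinset_card _ hSf] at h2
  have h3 : ((EmbS a b k X).ncard : ℝ) ≤
      N * ({P : EP a b k | sht P ≤ Module.finrank ℚ k * X}.ncard : ℝ) := by exact_mod_cast h2
  have h4 := hX₀ X ((le_max_left _ _).trans hX)
  have h5 : (0 : ℝ) < N + 1 := by positivity
  have h6 : (N : ℝ) * (δ / (N + 1) * Real.exp X) ≤ δ * Real.exp X := by
    rw [← mul_assoc]
    refine mul_le_mul_of_nonneg_right ?_ (Real.exp_pos _).le
    rw [mul_div_assoc', div_le_iff₀ h5]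
    nlinarith
  exact h3.trans ((mul_le_mul_of_nonneg_left h4 (Nat.cast_nonneg N)).trans h6)

/-- a square root in a quadratic extension -/
theorem exists_sqrt_field (δ : K) (hδ : ∀ c : K, c ^ 2 ≠ δ) : ∃ (L : Type) (_ : Field L)
    (_ : NumberField L) (_ : Algebra K L) (_ : L →ₐ[K] AlgebraicClosure K) (y : L),
    y ^ 2 = algebraMap K L δ ∧ Module.finrank K L = 2 := by
  have hq : Irreducible (X ^ 2 - C δ : K[X]) :=
    (X_pow_sub_C_irreducible_iff_of_prime Nat.prime_two).2 hδ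
  have hfact : Fact (Irreducible (X ^ 2 - C δ : K[X])) := ⟨hq⟩
  obtain ⟨M, iM, aKM, fM, s, hs, hfr⟩ : ∃ (M : Type) (_ : Field M)
      (_ : Algebra K M) (_ : FiniteDimensional K M) (s : M),
      s ^ 2 = algebraMap K M δ ∧ Module.finrank K M = 2 := by
    refine ⟨AdjoinRoot (X ^ 2 - C δ : K[X]), inferInstance,
      inferInstance, (AdjoinRoot.powerBasis hq.ne_zero).finite,
      AdjoinRoot.root _, ?_, ?_⟩
    · have h1 := AdjoinRoot.eval₂_root (X ^ 2 - C δ : K[X])
      rw [eval₂_sub, eval₂_pow, eval₂_X, eval₂_C, sub_eq_zero] at h1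
      exact h1
    · rw [(AdjoinRoot.powerBasis hq.ne_zero).finrank, AdjoinRoot.powerBasis_dim,
        natDegree_X_pow_sub_C]
  have hchar : CharZero M := charZero_of_injective_algebraMap (algebraMap K M).injective
  have hMf : FiniteDimensional ℚ M := FiniteDimensional.trans ℚ K M
  have hMn : NumberField M := { to_charZero := hchar, to_finiteDimensional := hMf }
  exact ⟨M, iM, hMn, aKM, IsAlgClosed.lift, s, hs, hfr⟩

/-- **the lower bound for the number of the quadratic points** -/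
theorem qq_low (a b : 𝓞 K) (hab : 4 * (a : K) ^ 3 + 27 * (b : K) ^ 2 ≠ 0)
    (hU : ∃ C : ℝ, 0 ≤ C ∧ ∀ X : ℝ,
      (({l : K | logHeight₁ l ≤ X}.ncard : ℕ) : ℝ) ≤ C * Real.exp (2 * X))
    (hL : ∃ c X₀ : ℝ, 0 < c ∧ ∀ X : ℝ, X₀ ≤ X →
      c * Real.exp (2 * X) ≤ (({l : K | logHeight₁ l ≤ X}.ncard : ℕ) : ℝ)) :
    ∃ c X₀ : ℝ, 0 < c ∧ ∀ X : ℝ, X₀ ≤ X →
      c * Real.exp X ≤ ((QQ (a : K) (b : K) X).ncard : ℝ) := by
  obtain ⟨C, hC, hfin⟩ := qq_fin a b hab hU
  obtain ⟨c, X₁, hc, hlow⟩ := hL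
  obtain ⟨X₂, hX₂⟩ := few (a := (a : K)) (b := (b : K)) hab K (c := 1 / 2) (δ := c / 2)
    (by norm_num) (by positivity)
  refine ⟨c / 2, max (2 * X₁) X₂, by positivity, fun X hX => ?_⟩
  have hX1 : X₁ ≤ X / 2 := by
    have := (le_max_left _ _).trans hX
    linarith
  have h1 := hlow (X / 2) hX1
  have h2 := hX₂ X ((le_max_right _ _).trans hX)
  rw [mul_div_cancel₀ X two_ne_zero] at h1
  have hS : {l : K | logHeight₁ l ≤ X / 2}.Finite := NumberField.finite_setOfPred_logHeight₁_le K _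
  obtain ⟨S2, hS2⟩ : ∃ S2 : Set K, S2 = {l : K | logHeight₁ l ≤ X / 2 ∧
    ∃ y : K, y ^ 2 = l ^ 3 + (a : K) * l + b} := ⟨_, rfl⟩
  obtain ⟨S1, hS1⟩ : ∃ S1 : Set K, S1 = {l : K | logHeight₁ l ≤ X / 2 ∧
    ∀ y : K, y ^ 2 ≠ l ^ 3 + (a : K) * l + b} := ⟨_, rfl⟩
  have hS12 : {l : K | logHeight₁ l ≤ X / 2} ⊆ S1 ∪ S2 := by
    intro l hl
    by_cases h : ∃ y : K, y ^ 2 = l ^ 3 + (a : K) * l + b
    · right
      rw [hS2]
      exact ⟨hl, h⟩
    · left
      rw [hS1]
      push Not at h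
      exact ⟨hl, h⟩
  have hS1f : S1.Finite := hS.subset (by rw [hS1]; exact fun l hl => hl.1)
  have hS2f : S2.Finite := hS.subset (by rw [hS2]; exact fun l hl => hl.1)
  have h3 : (({l : K | logHeight₁ l ≤ X / 2}.ncard : ℕ) : ℝ) ≤ (S1.ncard : ℝ) + S2.ncard := by
    exact_mod_cast (Set.ncard_le_ncard hS12 (hS1f.union hS2f)).trans (Set.ncard_union_le _ _)
  -- the squares
  have h4 : (S2.ncard : ℝ) ≤ c / 2 * Real.exp X := by
    refine le_trans ?_ h2
    have hfin2 : {P : EP (a : K) (b : K) K | sht P ≤ 1 / 2 * X}.Finite := sfinite_ht _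
    have hex : ∀ l : K, ∃ P : EP (a : K) (b : K) K, l ∈ S2 → sht P ≤ 1 / 2 * X ∧
        ∃ y h, P = Affine.Point.some l y h := by
      intro l
      by_cases hl : l ∈ S2
      · have hl' := hl
        rw [hS2] at hl'
        obtain ⟨h5, y, hy⟩ := hl'
        refine ⟨Affine.Point.some l y (sw_nonsing hab hy), fun _ => ⟨?_, y, _, rfl⟩⟩
        rw [sht_some]
        linarith
      · exact ⟨0, fun h => absurd h hl⟩
    choose f hf using hex
    have h5 := Set.ncard_le_ncard_of_injOn (s := S2)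
      (t := {P : EP (a : K) (b : K) K | sht P ≤ 1 / 2 * X}) f (fun l hl => (hf l hl).1) (by
        intro l hl l' hl' he
        obtain ⟨-, y, h, e1⟩ := hf l hl
        obtain ⟨-, y', h', e2⟩ := hf l' hl'
        rw [e1, e2, Affine.Point.some.injEq] at he
        exact he.1) hfin2
    exact_mod_cast h5
  -- the others
  have h5 : (S1.ncard : ℝ) ≤ ((QQ (a : K) (b : K) X).ncard : ℝ) := by
    have hex : ∀ l : K, ∃ p : EP (a : K) (b : K) (AlgebraicClosure K), l ∈ S1 →
        p ∈ QQ (a : K) (b : K) X ∧ ∃ y h, p = Affine.Point.some (algebraMap K _ l) y h := by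
      intro l
      by_cases hl : l ∈ S1
      · have hl' := hl
        rw [hS1] at hl'
        obtain ⟨h5, hy⟩ := hl'
        obtain ⟨L, _, _, _, ι, y, hy2, hd⟩ := exists_sqrt_field _ hy
        obtain ⟨σ, hσ⟩ := exists_conj hd
        have hD : 4 * (algebraMap K L (a : K)) ^ 3 + 27 * (algebraMap K L (b : K)) ^ 2 ≠ 0 :=
          disc_ne hab L
        have hns : (sw (algebraMap K L (a : K)) (algebraMap K L (b : K))).toAffine.Nonsingular
            (algebraMap K L l) y := by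
          apply sw_nonsing hD
          rw [hy2]
          simp only [map_add, map_mul, map_pow]
        obtain ⟨s, hs⟩ := exists_trace hab hσ
          (Affine.Point.some (algebraMap K L l) y hns : EP (a : K) (b : K) L)
        refine ⟨mp (a : K) (b : K) ι (Affine.Point.some (algebraMap K L l) y hns), fun _ =>
          ⟨⟨s, L, _, ‹_›, _, ι, σ, _, ⟨hσ, ?_, hs⟩, ?_, rfl⟩, ι y, ?_⟩⟩
        · rw [mp_some]
          intro h6
          rw [Affine.Point.some.injEq] at h6
          obtain ⟨c, hc⟩ := (hσ.fix y).1 h6.2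
          apply hy c
          apply (algebraMap K L).injective
          rw [map_pow, hc, hy2]
        · rw [sht_some, Pool.Agent.N572.DR.Inv.ht_ext, hd]
          push_cast
          linarith
        · rw [mp_some]
          have h6 := mp_ns (a := (a : K)) (b := (b : K)) ι hns
          rw [ι.commutes] at h6
          exact ⟨h6, spt_ext (ι.commutes l) rfl⟩
      · exact ⟨0, fun h => absurd h hl⟩
    choose f hf using hex
    have h5 := Set.ncard_le_ncard_of_injOn (s := S1)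
      (t := QQ (a : K) (b : K) X) f (fun l hl => (hf l hl).1) (by
        intro l hl l' hl' he
        obtain ⟨-, y, h, e1⟩ := hf l hl
        obtain ⟨-, y', h', e2⟩ := hf l' hl'
        rw [e1, e2, Affine.Point.some.injEq] at he
        exact (algebraMap K (AlgebraicClosure K)).injective he.1) (hfin X).1
    exact_mod_cast h5
  linarith

end few

end Pool.Agent.U47.QE
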