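import Mathlib
import Pool.Agent.U47.QE.Asm
import Pool.Agent.U47.QE.Low

/-!
# The exceptional points are negligible
-/

set_option autoImplicit false
set_option linter.unusedSectionVars false

open WeierstrassCurve Height NumberField IsDedekindDomain Pool.Agent.TH942 Filter Topology

namespace Pool.Agent.U47.QE

open scoped Classical

section uniq

/-- the absolute height depends only on the algebraic number -/
theorem ht_uniq {K : Type} [Field K] [NumberField K] {L L' : Type} [Field L] [NumberField L]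
    [Algebra K L] [Field L'] [NumberField L'] [Algebra K L'] (ι : L →ₐ[K] AlgebraicClosure K)
    (ι' : L' →ₐ[K] AlgebraicClosure K) {x : L} {x' : L'} (h : ι x = ι' x') :
    (Module.finrank ℚ L' : ℝ) * logHeight₁ x = Module.finrank ℚ L * logHeight₁ x' := by
  have f1 : FiniteDimensional K L := FiniteDimensional.right ℚ K L
  have f2 : FiniteDimensional K L' := FiniteDimensional.right ℚ K L'
  have f3 : FiniteDimensional K ι.fieldRange :=
    Module.Finite.equiv (AlgEquiv.ofInjectiveField ι).toLinearEquiv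
  have f4 : FiniteDimensional K ι'.fieldRange :=
    Module.Finite.equiv (AlgEquiv.ofInjectiveField ι').toLinearEquiv
  obtain ⟨M, hM⟩ : ∃ M, M = ι.fieldRange ⊔ ι'.fieldRange := ⟨_, rfl⟩
  have f5 : FiniteDimensional K M := by
    rw [hM]
    infer_instance
  have hchar : CharZero M := charZero_of_injective_algebraMap (algebraMap K M).injective
  have hMf : FiniteDimensional ℚ M := FiniteDimensional.trans ℚ K M
  have hMn : NumberField M := { to_charZero := hchar, to_finiteDimensional := hMf }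
  have h1 : ι.fieldRange ≤ M := by rw [hM]; exact le_sup_left
  have h2 : ι'.fieldRange ≤ M := by rw [hM]; exact le_sup_right
  let φ : L →+* M := (ι : L →+* AlgebraicClosure K).codRestrict M.toSubfield.toSubring
    fun z => h1 ⟨z, rfl⟩
  let φ' : L' →+* M := (ι' : L' →+* AlgebraicClosure K).codRestrict M.toSubfield.toSubring
    fun z => h2 ⟨z, rfl⟩
  have hφ : φ x = φ' x' := Subtype.ext h
  have e1 := ht_hom φ x
  have e2 := ht_hom φ' x'
  have hM0 : (0 : ℝ) < Module.finrank ℚ M := by exact_mod_cast Module.finrank_pos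
  rw [← hφ] at e2
  apply mul_left_cancel₀ hM0.ne'
  calc (Module.finrank ℚ M : ℝ) * (Module.finrank ℚ L' * logHeight₁ x) =
        Module.finrank ℚ L' * (Module.finrank ℚ M * logHeight₁ x) := by ring
    _ = Module.finrank ℚ L' * (Module.finrank ℚ L * logHeight₁ (φ x)) := by rw [e1]
    _ = Module.finrank ℚ L * (Module.finrank ℚ L' * logHeight₁ (φ x)) := by ring
    _ = _ := by rw [e2]; ring

end uniq

variable {K : Type} [Field K] [NumberField K]

/-- a set which is negligible among the points of every trace, with witnesses -/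
theorem ngl_of_traces' (a b : 𝓞 K) (hab : 4 * (a : K) ^ 3 + 27 * (b : K) ^ 2 ≠ 0)
    (hU : ∃ C : ℝ, 0 ≤ C ∧ ∀ X : ℝ,
      (({l : K | logHeight₁ l ≤ X}.ncard : ℕ) : ℝ) ≤ C * Real.exp (2 * X))
    (B : Set (EP (a : K) (b : K) (AlgebraicClosure K)))
    (BS : EP (a : K) (b : K) K → ℝ → Set (EP (a : K) (b : K) (AlgebraicClosure K)))
    (h1 : ∀ s X, BS s X ⊆ Wt s X) (h2 : ∀ X, B ∩ QQ (a : K) (b : K) X ⊆ {p | ∃ s, p ∈ BS s X})
    (h3 : ∀ s, ∀ δ : ℝ, 0 < δ → ∃ X₀ : ℝ, ∀ X : ℝ, X₀ ≤ X →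
      ((BS s X).ncard : ℝ) ≤ δ * Real.exp X) : Ngl (QQ (a : K) (b : K)) B := by
  intro δ hδ
  obtain ⟨F, hF⟩ := tail a b hab hU (half_pos hδ)
  have hw := fun s => wt_card (a := (a : K)) (b := (b : K)) hU s
  choose c hc hcard using hw
  have hδ' : 0 < δ / 2 / (F.card + 1) := by positivity
  have h4 := fun s => h3 s _ hδ'
  choose X₀ hX₀ using h4
  refine ⟨∑ s ∈ F, |X₀ s|, fun X hX => ?_⟩
  have hXs : ∀ s ∈ F, X₀ s ≤ X := by
    intro s hs
    have h1 : |X₀ s| ≤ ∑ s ∈ F, |X₀ s| :=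
      Finset.single_le_sum (f := fun s => |X₀ s|) (fun i _ => abs_nonneg _) hs
    have h2 := le_abs_self (X₀ s)
    linarith
  have hBf : ∀ s, (BS s X).Finite := fun s => (hcard s X).1.subset (h1 s X)
  have hsub : B ∩ QQ (a : K) (b : K) X ⊆
      {p : EP (a : K) (b : K) (AlgebraicClosure K) | ∃ s, s ∉ F ∧ p ∈ Wt s X} ∪
        ((F.biUnion fun s => (hBf s).toFinset : Finset _) :
          Set (EP (a : K) (b : K) (AlgebraicClosure K))) := by
    intro p hp
    obtain ⟨s, hs⟩ := h2 X hp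
    by_cases h : s ∈ F
    · right
      rw [Finset.mem_coe, Finset.mem_biUnion]
      exact ⟨s, h, (Set.Finite.mem_toFinset _).2 hs⟩
    · left
      exact ⟨s, h, h1 s X hs⟩
  have hfin := (hF X).1.union (Finset.finite_toSet (F.biUnion fun s => (hBf s).toFinset))
  have g1 := (Set.ncard_le_ncard hsub hfin).trans (Set.ncard_union_le _ _)
  rw [Set.ncard_coe_finset] at g1
  have g2 := (g1.trans (Nat.add_le_add_left Finset.card_biUnion_le _))
  have g4 : ∀ s, (hBf s).toFinset.card = (BS s X).ncard := fun s =>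
    (Set.ncard_eq_toFinset_card _ (hBf s)).symm
  simp only [g4] at g2
  have g3 : ((B ∩ QQ (a : K) (b : K) X).ncard : ℝ) ≤
      ({p : EP (a : K) (b : K) (AlgebraicClosure K) | ∃ s, s ∉ F ∧ p ∈ Wt s X}.ncard : ℝ) +
        ∑ s ∈ F, ((BS s X).ncard : ℝ) := by exact_mod_cast g2
  have g5 : ∑ s ∈ F, ((BS s X).ncard : ℝ) ≤ δ / 2 * Real.exp X := by
    have h6 : ∑ s ∈ F, ((BS s X).ncard : ℝ) ≤
        ∑ s ∈ F, δ / 2 / (F.card + 1) * Real.exp X :=
      Finset.sum_le_sum fun s hs => hX₀ s X (hXs s hs)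
    refine h6.trans ?_
    rw [Finset.sum_const, nsmul_eq_mul, ← mul_assoc]
    refine mul_le_mul_of_nonneg_right ?_ (Real.exp_pos _).le
    have h7 : (0 : ℝ) < F.card + 1 := by positivity
    rw [mul_div_assoc', div_le_iff₀ h7]
    nlinarith
  have g6 := (hF X).2
  linarith

/-- the inequality for the divisor `D` at the point `(x, y)` -/
def Good (K : Type) [Field K] (D : Finset (Option (AlgebraicClosure K × AlgebraicClosure K)))
    (ε : ℝ) (L : Type) [Field L] [NumberField L] [Algebra K L] (x y : L) : Prop :=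
  ∃ W : Finset (Pr L), (∀ w ∈ W, Meets K D L x y w) ∧
    ((D.card : ℝ) / 2 - ε) * logHeight₁ x ≤ ∑ w ∈ W, Real.log (Ideal.absNorm w.asIdeal : ℝ)

/-- the power saving -/
def Psv (E : Set K) : Prop := ∃ ν C : ℝ, 0 < ν ∧ ∀ H : ℝ, 0 ≤ H →
  ((E ∩ {x | logHeight₁ x ≤ H}).ncard : ℝ) ≤ C * Real.exp ((2 - ν) * H)

/-- the points of trace `s` at which the inequality fails -/
def BadS (a b : K) (D : Finset (Option (AlgebraicClosure K × AlgebraicClosure K))) (ε : ℝ)
    (s : EP a b K) (X : ℝ) : Set (EP a b (AlgebraicClosure K)) :=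
  {p | ∃ (L : Type) (_ : Field L) (_ : NumberField L) (_ : Algebra K L)
    (ι : L →ₐ[K] AlgebraicClosure K) (σ : L ≃ₐ[K] L) (x y : L)
    (h : (sw (algebraMap K L a) (algebraMap K L b)).toAffine.Nonsingular x y),
    Qw s σ (Affine.Point.some x y h : EP a b L) ∧ logHeight₁ x ≤ X ∧
      mp a b ι (Affine.Point.some x y h) = p ∧ ¬ Good K D ε L x y}

/-- one trace -/
theorem bad_few (heng : ∀ κ : ℝ, 0 < κ → ∃ E : Set K, Psv E ∧ Eng K κ E)
    (a b : 𝓞 K) (hab : 4 * (a : K) ^ 3 + 27 * (b : K) ^ 2 ≠ 0)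
    {k : Type} [Field k] [NumberField k] [Algebra K k]
    (j0 : k →ₐ[K] AlgebraicClosure K) (D : Finset (Option (k × k)))
    (hD : ∀ R ∈ D, OnE (algebraMap K k a) (algebraMap K k b) R)
    (hdeg : ∀ u t, some (u, t) ∈ D → ∀ z ∈ IntermediateField.adjoin K {u, t},
      (minpoly K z).natDegree ≤ 5) {ε : ℝ} (hε : 0 < ε) (s : EP (a : K) (b : K) K) {δ : ℝ}
    (hδ : 0 < δ) : ∃ X₀ : ℝ, ∀ X : ℝ, X₀ ≤ X →
      ((BadS (a : K) (b : K) (D.image (mpO j0)) ε s X).ncard : ℝ) ≤ δ * Real.exp X := by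
  have hj0 : Function.Injective (mpO (j0 : k → AlgebraicClosure K)) :=
    Option.map_injective (Function.Injective.prodMap j0.injective j0.injective)
  have hcard : (D.image (mpO (j0 : k → AlgebraicClosure K))).card = D.card :=
    Finset.card_image_of_injective _ hj0
  obtain ⟨d, hd⟩ : ∃ d : ℝ, d = D.card := ⟨_, rfl⟩
  have hd0 : 0 ≤ d := by rw [hd]; exact Nat.cast_nonneg _
  obtain ⟨κ, hκ⟩ : ∃ κ : ℝ, κ = min 1 (ε / (d + 1)) := ⟨_, rfl⟩
  have hκ0 : 0 < κ := by
    rw [hκ]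
    exact lt_min one_pos (by positivity)
  have hκ1 : κ ≤ 1 := by rw [hκ]; exact min_le_left _ _
  have hκ2 : d * κ ≤ ε := by
    have h1 : κ ≤ ε / (d + 1) := by rw [hκ]; exact min_le_right _ _
    have h2 : d * κ ≤ d * (ε / (d + 1)) := mul_le_mul_of_nonneg_left h1 hd0
    have h3 : d * (ε / (d + 1)) ≤ ε := by
      rw [mul_div_assoc', div_le_iff₀ (by positivity)]
      nlinarith
    linarith
  obtain ⟨E, ⟨ν, CE, hν, hps⟩, hE⟩ := heng κ hκ0
  obtain ⟨c, Z, hZ, hfix⟩ := fixed hE a b s j0 D hD hdeg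
  obtain ⟨Cs, hCs, hht⟩ := par_height s
  obtain ⟨CA, hCA, hA⟩ := wtA_card s
  obtain ⟨X₁, hX₁⟩ := emb_few (a := (a : K)) (b := (b : K)) hab k (δ := δ / 3) (by positivity)
  -- the points of small height
  obtain ⟨H, hH⟩ : ∃ H : ℝ, H = 2 / ε * (|c| + d * Cs) + 1 := ⟨_, rfl⟩
  have hWH := (hA H Set.univ).1
  -- the sizes
  have hlim1 : Tendsto (fun X : ℝ => 2 * CE * Real.exp ((2 - ν) * CA / 2) *
      Real.exp (-(ν / 2 * X))) atTop (𝓝 (2 * CE * Real.exp ((2 - ν) * CA / 2) * 0)) := by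
    refine Tendsto.const_mul _ ?_
    refine Real.tendsto_exp_neg_atTop_nhds_zero.comp ?_
    exact tendsto_id.const_mul_atTop (by positivity)
  rw [mul_zero] at hlim1
  have hlim2 : Tendsto (fun X : ℝ => (2 * (Z.ncard : ℝ) + (WtA s H Set.univ).ncard) *
      Real.exp (-X)) atTop (𝓝 ((2 * (Z.ncard : ℝ) + (WtA s H Set.univ).ncard) * 0)) :=
    Real.tendsto_exp_neg_atTop_nhds_zero.const_mul _
  rw [mul_zero] at hlim2
  obtain ⟨X₂, hX₂⟩ := eventually_atTop.1 ((hlim1.eventually (gt_mem_nhds (show 0 < δ / 3 by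
    positivity))).and (hlim2.eventually (gt_mem_nhds (show 0 < δ / 3 by positivity))))
  refine ⟨max (max X₁ X₂) 0, fun X hX => ?_⟩
  have hX1 : X₁ ≤ X := (le_max_left _ _).trans ((le_max_left _ _).trans hX)
  have hX2 : X₂ ≤ X := (le_max_right _ _).trans ((le_max_left _ _).trans hX)
  have hX0 : 0 ≤ X := (le_max_right _ _).trans hX
  obtain ⟨h5, h6⟩ := hX₂ X hX2
  obtain ⟨h7, h8⟩ := hX₁ X hX1
  have hexp : Real.exp (-X) * Real.exp X = 1 := by
    rw [← Real.exp_add, neg_add_cancel, Real.exp_zero]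
  have hsub : BadS (a : K) (b : K) (D.image (mpO j0)) ε s X ⊆
      (WtA s X (E ∪ Z) ∪ WtA s H Set.univ) ∪ EmbS (a : K) (b : K) k X := by
    rintro p ⟨L, _, _, _, ι, σ, x, y, h, hw, hx, hp, hbad⟩
    by_cases hemb : Nonempty (L →ₐ[K] k)
    · right
      exact ⟨L, _, ‹_›, _, ι, _, hemb, by rw [sht_some]; exact hx, hp⟩
    · rw [not_nonempty_iff] at hemb
      left
      obtain ⟨l, hl⟩ := par_exists hw
      by_cases hlEZ : l ∈ E ∪ Z
      · left
        exact ⟨L, _, ‹_›, _, ι, σ, _, l, hw, hl, hlEZ, by rw [sht_some]; exact hx, hp⟩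
      · right
        rw [Set.mem_union] at hlEZ
        push Not at hlEZ
        refine ⟨L, _, ‹_›, _, ι, σ, _, l, hw, hl, trivial, ?_, hp⟩
        by_contra hcon
        apply hbad
        obtain ⟨W, hW1, hW2⟩ := hfix L σ x y h l hw.cj hl hemb hlEZ.1 hlEZ.2
        refine ⟨W, hW1, ?_⟩
        have h9 := hht L σ _ l hw.cj.deg hl
        rw [abs_le] at h9
        rw [sht_some] at hcon h9
        push Not at hcon
        rw [hcard, ← hd]
        rw [← hd] at hW2
        have h10 := le_abs_self c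
        have h11 := abs_nonneg c
        -- `d (1 - κ) (h - Cs) / 2 ≤ d (1 - κ) l`
        have h12 : d * ((1 - κ) * ((logHeight₁ x - Cs) / 2)) ≤ d * ((1 - κ) * logHeight₁ l) := by
          refine mul_le_mul_of_nonneg_left ?_ hd0
          refine mul_le_mul_of_nonneg_left ?_ (by linarith)
          linarith [h9.1, h9.2]
        have h13 : |c| + d * Cs ≤ ε / 2 * logHeight₁ x := by
          have h14 : 2 / ε * (|c| + d * Cs) ≤ logHeight₁ x := by
            rw [hH] at hcon
            linarith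
          have h15 : ε / 2 * (2 / ε * (|c| + d * Cs)) = |c| + d * Cs := by
            field_simp
          rw [← h15]
          exact mul_le_mul_of_nonneg_left h14 (by positivity)
        have h14 : d * κ * logHeight₁ x ≤ ε * logHeight₁ x :=
          mul_le_mul_of_nonneg_right hκ2 (zero_le_logHeight₁ x)
        have h15 : 0 ≤ d * Cs := mul_nonneg hd0 hCs
        have h16 : 0 ≤ κ * (d * Cs) := mul_nonneg hκ0.le h15
        nlinarith
  have hAf := hA X (E ∪ Z)
  have hfin := (hAf.1.union hWH).union h7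
  have g1 := (Set.ncard_le_ncard hsub hfin).trans ((Set.ncard_union_le _ _).trans
    (Nat.add_le_add_right (Set.ncard_union_le _ _) _))
  have g2 : ((BadS (a : K) (b : K) (D.image (mpO j0)) ε s X).ncard : ℝ) ≤
      ((WtA s X (E ∪ Z)).ncard : ℝ) + (WtA s H Set.univ).ncard +
        (EmbS (a : K) (b : K) k X).ncard := by exact_mod_cast g1
  have g3 : ((WtA s X (E ∪ Z)).ncard : ℝ) ≤ 2 * (((E ∩ {l | logHeight₁ l ≤ (X + CA) / 2}).ncard : ℝ)
      + Z.ncard) := by
    have g4 : ((E ∪ Z) ∩ {l | logHeight₁ l ≤ (X + CA) / 2}).ncard ≤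
        (E ∩ {l | logHeight₁ l ≤ (X + CA) / 2}).ncard + Z.ncard := by
      rw [Set.union_inter_distrib_right]
      refine (Set.ncard_union_le _ _).trans (Nat.add_le_add_left ?_ _)
      exact Set.ncard_le_ncard Set.inter_subset_left hZ
    have g5 := hAf.2.trans (Nat.mul_le_mul_left 2 g4)
    exact_mod_cast g5
  have g4 := hps ((X + CA) / 2) (by linarith)
  have g5 : CE * Real.exp ((2 - ν) * ((X + CA) / 2)) =
      CE * Real.exp ((2 - ν) * CA / 2) * Real.exp (-(ν / 2 * X)) * Real.exp X := by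
    rw [mul_assoc CE, mul_assoc CE, ← Real.exp_add, ← Real.exp_add]
    congr 2
    ring
  have g6 : 2 * CE * Real.exp ((2 - ν) * CA / 2) * Real.exp (-(ν / 2 * X)) * Real.exp X ≤
      δ / 3 * Real.exp X := mul_le_mul_of_nonneg_right h5.le (Real.exp_pos _).le
  have g7 : (2 * (Z.ncard : ℝ) + (WtA s H Set.univ).ncard) * Real.exp (-X) * Real.exp X ≤
      δ / 3 * Real.exp X := mul_le_mul_of_nonneg_right h6.le (Real.exp_pos _).le
  rw [mul_assoc, hexp, mul_one] at g7
  rw [g5] at g4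
  linarith

end Pool.Agent.U47.QE
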