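import Mathlib
import Pool.Agent.U47.QE.Bad
import Pool.Agent.N753.SF.Main

/-!
# The line engine
-/

set_option autoImplicit false
set_option linter.unusedSectionVars false

open Height NumberField IsDedekindDomain Pool.Agent.N753.SF Pool.Agent.N753.LS

namespace Pool.Agent.U47.QE

open scoped Classical

theorem engine (K : Type) [Field K] [NumberField K] (κ : ℝ) (hκ : 0 < κ) :
    ∃ E : Set K, Psv E ∧ Eng K κ E := by
  obtain ⟨E, ⟨ν, C, hν, hps⟩, -, hE⟩ := tuple_main K (m := 1) one_pos hκ
  have hhtm : ∀ l : K, htm (fun _ : Fin 1 => l) = logHeight₁ l := fun l => ciSup_const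
  refine ⟨{l | (fun _ => l) ∈ E}, ⟨ν, C, hν, fun H hH => ?_⟩, ?_, ?_⟩
  · have h1 := hps H hH
    have h2 : ({l : K | (fun _ => l) ∈ E} ∩ {x | logHeight₁ x ≤ H}).ncard ≤
        (E ∩ {x | htm x ≤ H}).ncard := by
      refine Set.ncard_le_ncard_of_injOn (fun l => fun _ => l) ?_ ?_ ?_
      · rintro l ⟨h3, h4⟩
        refine ⟨h3, ?_⟩
        change htm (fun _ : Fin 1 => l) ≤ H
        rw [hhtm]
        exact h4
      · intro l _ l' _ h
        exact congrFun h 0
      · have h3 : ((fun l : K => fun _ : Fin 1 => l) '' {l | logHeight₁ l ≤ H}).Finite :=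
          (NumberField.finite_setOfPred_logHeight₁_le K H).image _
        refine h3.subset ?_
        rintro x ⟨-, hx⟩
        have e : x = fun _ => x 0 := by
          funext i
          rw [Subsingleton.elim i 0]
        refine ⟨x 0, ?_, e.symm⟩
        have hx' : htm x ≤ H := hx
        rw [e, hhtm] at hx'
        exact hx'
    have h3 : (({l : K | (fun _ => l) ∈ E} ∩ {x | logHeight₁ x ≤ H}).ncard : ℝ) ≤
        ((E ∩ {x | htm x ≤ H}).ncard : ℝ) := by exact_mod_cast h2
    refine h3.trans (h1.trans (le_of_eq ?_))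
    norm_num
  · intro k _ _ _ α hα
    obtain ⟨c, hc⟩ := hE k 1 (fun _ => α) one_pos (fun _ _ _ => Subsingleton.elim _ _)
      (fun _ => hα) ![1, 0, 0, 1] (by simp [dt])
    refine ⟨c, fun l hl hlα => ?_⟩
    have hmob : mob (![1, 0, 0, 1] : Fin 4 → K) l = l := by simp [mob]
    have hfin : {w : Pr k | w.valuation k (algebraMap K k l) ≤ 1 ∧
        w.valuation k (algebraMap K k l - α) < 1}.Finite :=
      (Pool.Agent.Y729.RV.val_fin (sub_ne_zero.2 hlα)).subset fun w hw => hw.2
    have h1 := hc (fun _ => l) hl (fun _ => by simp) (fun _ _ => by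
      rw [hmob]
      exact hlα) hfin.toFinset (fun w i h2 h3 => by
        rw [hmob] at h2 h3
        obtain ⟨-, h3⟩ := h3
        rw [Set.Finite.mem_toFinset]
        exact ⟨h2, h3⟩)
    refine ⟨hfin.toFinset, fun w hw => ?_, ?_⟩
    · rw [Set.Finite.mem_toFinset] at hw
      exact hw
    · rw [Fin.sum_univ_one, hmob] at h1
      simpa [Pool.Agent.H691R3.Nv] using h1
  · intro k _ _ _
    obtain ⟨c, hc⟩ := hE k 1 (fun _ => 0) one_pos (fun _ _ _ => Subsingleton.elim _ _)
      (fun _ => by simp) ![0, 1, 1, 0] (by simp [dt])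
    refine ⟨c, fun l hl hl0 => ?_⟩
    have hmob : mob (![0, 1, 1, 0] : Fin 4 → K) l = l⁻¹ := by simp [mob]
    have hl0' : algebraMap K k l ≠ 0 := by
      rw [ne_eq, map_eq_zero]
      exact hl0
    have hfin : {w : Pr k | 1 < w.valuation k (algebraMap K k l)}.Finite := big_fin _
    have h1 := hc (fun _ => l) hl (fun _ => by simpa using hl0) (fun _ _ => by
      rw [hmob, map_inv₀]
      exact inv_ne_zero hl0') hfin.toFinset (fun w i h2 h3 => by
        rw [hmob] at h2 h3
        obtain ⟨-, h3⟩ := h3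
        rw [Set.Finite.mem_toFinset, Set.mem_ofPred_eq, one_lt_iff_inv]
        rw [sub_zero, map_inv₀] at h3
        exact ⟨hl0', h3⟩)
    refine ⟨hfin.toFinset, fun w hw => ?_, ?_⟩
    · rw [Set.Finite.mem_toFinset] at hw
      exact hw
    · rw [Fin.sum_univ_one, hmob, logHeight₁_inv] at h1
      simpa [Pool.Agent.H691R3.Nv] using h1

end Pool.Agent.U47.QE
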