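import Mathlib
import Pool.Agent.U47.QE.Eng
import Pool.Agent.U47.QE.Cnt

/-!
# One exceptional set for all divisors
-/

set_option autoImplicit false
set_option linter.unusedSectionVars false

open WeierstrassCurve Height NumberField IsDedekindDomain Pool.Agent.TH942

namespace Pool.Agent.U47.QE

open scoped Classical

theorem countable_omega (K : Type) [Field K] [NumberField K] : Countable (AlgebraicClosure K) := by
  have hK : Countable K := Pool.Agent.N753.SF.countable_K K
  rw [← Cardinal.mk_le_aleph0_iff]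
  have h := Algebra.IsAlgebraic.cardinalMk_le_max K (AlgebraicClosure K)
  exact h.trans (max_le (Cardinal.mk_le_aleph0_iff.2 hK) le_rfl)

/-- the divisors: the points of the curve of degree at most five over `K` -/
def Dv (K : Type) [Field K] [NumberField K] (a b : 𝓞 K)
    (D : Finset (Option (AlgebraicClosure K × AlgebraicClosure K))) : Prop :=
  (∀ R ∈ D, OnE (algebraMap K (AlgebraicClosure K) a) (algebraMap K (AlgebraicClosure K) b) R) ∧
  ∀ u t, some (u, t) ∈ D → Module.finrank K (IntermediateField.adjoin K {u, t}) ≤ 5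

/-- the divisor is defined over a number field -/
theorem exists_field (K : Type) [Field K] [NumberField K] (a b : 𝓞 K)
    (D : Finset (Option (AlgebraicClosure K × AlgebraicClosure K))) (hD : Dv K a b D) :
    ∃ (k : Type) (_ : Field k) (_ : NumberField k) (_ : Algebra K k)
      (j0 : k →ₐ[K] AlgebraicClosure K) (Dk : Finset (Option (k × k))),
      Dk.image (mpO j0) = D ∧
      (∀ R ∈ Dk, OnE (algebraMap K k a) (algebraMap K k b) R) ∧
      ∀ u t, some (u, t) ∈ Dk → ∀ z ∈ IntermediateField.adjoin K {u, t},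
        (minpoly K z).natDegree ≤ 5 := by
  obtain ⟨S, hS⟩ : ∃ S : Set (AlgebraicClosure K), S = ⋃ R ∈ D, {z | ∃ u t, R = some (u, t) ∧
    (z = u ∨ z = t)} := ⟨_, rfl⟩
  have hSf : S.Finite := by
    rw [hS]
    refine Set.Finite.biUnion D.finite_toSet fun R _ => ?_
    match R with
    | none =>
      refine Set.finite_empty.subset ?_
      rintro z ⟨u, t, h, -⟩
      exact absurd h (by simp)
    | some (u, t) =>
      refine (Set.toFinite {u, t}).subset ?_
      rintro z ⟨u', t', h, hz⟩
      rw [Option.some.injEq, Prod.mk.injEq] at h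
      rw [h.1, h.2]
      exact hz
  have hSF : Finite S := hSf
  let k := IntermediateField.adjoin K S
  have hfd : FiniteDimensional K k := IntermediateField.finiteDimensional_adjoin
    fun z _ => (AlgebraicClosure.isAlgebraic K).isAlgebraic z |>.isIntegral
  have hchar : CharZero k := charZero_of_injective_algebraMap (algebraMap K k).injective
  have hkf : FiniteDimensional ℚ k := FiniteDimensional.trans ℚ K k
  have hkn : NumberField k := { to_charZero := hchar, to_finiteDimensional := hkf }
  let j0 : k →ₐ[K] AlgebraicClosure K := k.val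
  have hj0 : Function.Injective (mpO (j0 : k → AlgebraicClosure K)) :=
    Option.map_injective (Function.Injective.prodMap j0.injective j0.injective)
  have hmem : ∀ u t, some (u, t) ∈ D → u ∈ k ∧ t ∈ k := by
    intro u t h
    constructor
    · apply IntermediateField.subset_adjoin
      rw [hS]
      exact Set.mem_biUnion h ⟨u, t, rfl, Or.inl rfl⟩
    · apply IntermediateField.subset_adjoin
      rw [hS]
      exact Set.mem_biUnion h ⟨u, t, rfl, Or.inr rfl⟩
  refine ⟨k, _, hkn, _, j0, D.preimage (mpO j0) hj0.injOn, ?_, ?_, ?_⟩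
  · ext R
    rw [Finset.mem_image]
    constructor
    · rintro ⟨R', hR', rfl⟩
      exact Finset.mem_preimage.1 hR'
    · intro hR
      match R, hR with
      | none, hR => exact ⟨none, Finset.mem_preimage.2 hR, rfl⟩
      | some (u, t), hR =>
        obtain ⟨hu, ht⟩ := hmem u t hR
        exact ⟨some (⟨u, hu⟩, ⟨t, ht⟩), Finset.mem_preimage.2 hR, rfl⟩
  · intro R hR
    rw [Finset.mem_preimage] at hR
    match R, hR with
    | none, hR => trivial
    | some (u, t), hR =>
      have h1 : (j0 t) ^ 2 = (j0 u) ^ 3 + algebraMap K (AlgebraicClosure K) a * (j0 u) +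
        algebraMap K (AlgebraicClosure K) b := hD.1 _ hR
      change t ^ 2 = u ^ 3 + algebraMap K k a * u + algebraMap K k b
      apply j0.injective
      change j0 (t ^ 2) = j0 (u ^ 3 + algebraMap K k a * u + algebraMap K k b)
      rw [map_pow, h1]
      simp only [map_add, map_mul, map_pow, AlgHom.commutes]
  · intro u t hut z hz
    rw [Finset.mem_preimage] at hut
    have h1 := hD.2 _ _ hut
    have h2 : j0 z ∈ IntermediateField.adjoin K {j0 u, j0 t} := by
      have h3 : (IntermediateField.adjoin K {u, t}).map j0 =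
          IntermediateField.adjoin K {j0 u, j0 t} := by
        rw [IntermediateField.adjoin_map, Set.image_pair]
      rw [← h3]
      exact ⟨z, hz, rfl⟩
    have hint : IsIntegral K (j0 z) :=
      ((AlgebraicClosure.isAlgebraic K).isAlgebraic (j0 z)).isIntegral
    have h3 : minpoly K z = minpoly K (j0 z) := (minpoly.algHom_eq j0 j0.injective z).symm
    have hfd2 : FiniteDimensional K (IntermediateField.adjoin K {j0 u, j0 t}) :=
      IntermediateField.finiteDimensional_adjoin
        fun z _ => (AlgebraicClosure.isAlgebraic K).isAlgebraic z |>.isIntegral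
    rw [h3]
    have h4 : minpoly K (⟨j0 z, h2⟩ : IntermediateField.adjoin K {j0 u, j0 t}) =
        minpoly K (j0 z) :=
      (minpoly.algHom_eq (IntermediateField.adjoin K {j0 u, j0 t}).val
        (IntermediateField.adjoin K {j0 u, j0 t}).val.injective _).symm
    rw [← h4]
    exact (minpoly.natDegree_le _).trans h1

/-- **one exceptional set for all divisors** -/
theorem final (K : Type) [Field K] [NumberField K] (a b : 𝓞 K)
    (hab : 4 * (a : K) ^ 3 + 27 * (b : K) ^ 2 ≠ 0) :
    ∃ E : Set (EP (a : K) (b : K) (AlgebraicClosure K)), Ngl (QQ (a : K) (b : K)) E ∧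
      ∀ D : Finset (Option (AlgebraicClosure K × AlgebraicClosure K)), Dv K a b D →
        ∀ ε : ℝ, 0 < ε → ∃ X : ℝ, ∀ (L : Type) [Field L] [NumberField L] [Algebra K L]
          (ι : L →ₐ[K] AlgebraicClosure K) (x y : L)
          (h : (sw (algebraMap K L (a : K)) (algebraMap K L (b : K))).toAffine.Nonsingular x y),
          Module.finrank K L = 2 →
          ¬ (x ∈ Set.range (algebraMap K L) ∧ y ∈ Set.range (algebraMap K L)) →
          mp (a : K) (b : K) ι (Affine.Point.some x y h) ∉ E → X < logHeight₁ x →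
          Good K D ε L x y := by
  have hU := cntU K
  obtain ⟨C, hC, hfin⟩ := qq_fin a b hab hU
  have hctb := countable_omega K
  obtain ⟨f, hf⟩ := exists_surjective_nat
    (Finset (Option (AlgebraicClosure K × AlgebraicClosure K)) × ℕ)
  let Ba : ℕ → Set (EP (a : K) (b : K) (AlgebraicClosure K)) := fun n =>
    if Dv K a b (f n).1 then {p | ∃ s X, p ∈ BadS (a : K) (b : K) (f n).1
      (1 / (((f n).2 : ℝ) + 1)) s X} else ∅
  have hlink : ∀ (D : Finset (Option (AlgebraicClosure K × AlgebraicClosure K))) (ε : ℝ) (X : ℝ),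
      {p | ∃ s X, p ∈ BadS (a : K) (b : K) D ε s X} ∩ QQ (a : K) (b : K) X ⊆
        {p | ∃ s, p ∈ BadS (a : K) (b : K) D ε s X} := by
    rintro D ε X p ⟨⟨s, X1, L, _, _, _, ι, σ, x, y, h, hw, hx, hp, hbad⟩,
      s', L', _, _, _, ι', σ', P', hw', hX', hp'⟩
    refine ⟨s, L, _, ‹_›, _, ι, σ, x, y, h, hw, ?_, hp, hbad⟩
    have h1 : Module.finrank ℚ L = Module.finrank ℚ L' := by
      have f1 : FiniteDimensional K L := FiniteDimensional.right ℚ K L
      have f2 : FiniteDimensional K L' := FiniteDimensional.right ℚ K L'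
      rw [← Module.finrank_mul_finrank ℚ K L, ← Module.finrank_mul_finrank ℚ K L', hw.cj.deg,
        hw'.cj.deg]
    rw [← hp] at hp'
    match P', hX', hp' with
    | 0, _, hp' =>
      rw [map_zero, mp_some] at hp'
      exact absurd hp' (by intro h; cases h)
    | .some x' y' h', hX', hp' =>
      rw [mp_some, mp_some, Affine.Point.some.injEq] at hp'
      rw [sht_some] at hX'
      have h2 := ht_uniq ι ι' (hp'.1).symm
      rw [h1] at h2
      have h3 : (0 : ℝ) < Module.finrank ℚ L' := by exact_mod_cast Module.finrank_pos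
      have h4 := mul_left_cancel₀ h3.ne' h2
      rw [h4]
      exact hX'
  have hB : ∀ n, Ngl (QQ (a : K) (b : K)) (Ba n) := by
    intro n
    simp only [Ba]
    split_ifs with hDv
    · obtain ⟨k, _, _, _, j0, Dk, hDk, h1, h2⟩ := exists_field K a b (f n).1 hDv
      refine ngl_of_traces' a b hab hU _ (fun s X => BadS (a : K) (b : K) (f n).1
        (1 / (((f n).2 : ℝ) + 1)) s X) ?_ ?_ ?_
      · rintro s X p ⟨L, _, _, _, ι, σ, x, y, h, hw, hx, hp, hbad⟩
        exact ⟨L, _, ‹_›, _, ι, σ, _, hw, by rw [sht_some]; exact hx, hp⟩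
      · intro X
        exact hlink _ _ X
      · intro s δ hδ
        have h3 := bad_few (fun κ hκ => engine K κ hκ) a b hab j0 Dk h1 h2
          (ε := 1 / (((f n).2 : ℝ) + 1)) (by positivity) s hδ
        rw [hDk] at h3
        exact h3
    · exact ngl_empty
  obtain ⟨E, hE1, hE2⟩ := diag (fun X => (hfin X).1) (fun X Y h => qq_mono h) Ba hB
  refine ⟨E, hE1, fun D hD ε hε => ?_⟩
  obtain ⟨N, hN⟩ := exists_nat_one_div_lt hε
  obtain ⟨n, hn⟩ := hf (D, N)
  obtain ⟨X, hX⟩ := hE2 n
  refine ⟨X, ?_⟩
  intro L _ _ _ ι x y h hd hrat hpE hxX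
  by_contra hbad
  obtain ⟨σ, hσ⟩ := exists_conj hd
  obtain ⟨s, hs⟩ := exists_trace hab hσ (Affine.Point.some x y h : EP (a : K) (b : K) L)
  have hbad' : ¬ Good K D (1 / ((N : ℝ) + 1)) L x y := by
    rintro ⟨W, hW1, hW2⟩
    apply hbad
    refine ⟨W, hW1, le_trans ?_ hW2⟩
    refine mul_le_mul_of_nonneg_right ?_ (zero_le_logHeight₁ x)
    linarith
  have hw : Qw s σ (Affine.Point.some x y h : EP (a : K) (b : K) L) := by
    refine ⟨hσ, ?_, hs⟩
    rw [mp_some]
    intro h1
    rw [Affine.Point.some.injEq] at h1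
    exact hrat ⟨(hσ.fix x).1 h1.1, (hσ.fix y).1 h1.2⟩
  have hmem : mp (a : K) (b : K) ι (Affine.Point.some x y h) ∈
      {p | ∃ s X, p ∈ BadS (a : K) (b : K) D (1 / ((N : ℝ) + 1)) s X} :=
    ⟨s, logHeight₁ x, L, _, ‹_›, _, ι, σ, x, y, h, hw, le_rfl, rfl, hbad'⟩
  have h1 : mp (a : K) (b : K) ι (Affine.Point.some x y h) ∈ Ba n := by
    simp only [Ba]
    rw [hn, if_pos hD]
    exact hmem
  have h2 := hX ⟨h1, hpE⟩
  obtain ⟨s', L', _, _, _, ι', σ', x', y', h', hw', hx', hp', -⟩ :=
    hlink D (1 / ((N : ℝ) + 1)) X ⟨hmem, h2⟩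
  rw [mp_some, mp_some, Affine.Point.some.injEq] at hp'
  have h3 := ht_uniq ι ι' (hp'.1).symm
  have h4 : Module.finrank ℚ L = Module.finrank ℚ L' := by
    have f1 : FiniteDimensional K L := FiniteDimensional.right ℚ K L
    have f2 : FiniteDimensional K L' := FiniteDimensional.right ℚ K L'
    rw [← Module.finrank_mul_finrank ℚ K L, ← Module.finrank_mul_finrank ℚ K L', hd,
      hw'.cj.deg]
  rw [h4] at h3
  have h5 : (0 : ℝ) < Module.finrank ℚ L' := by exact_mod_cast Module.finrank_pos
  have h6 := mul_left_cancel₀ h5.ne' h3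
  rw [h6] at hxX
  linarith

theorem sum_biUnion_le' {α β : Type*} [DecidableEq β] (S : Finset α) (t : α → Finset β)
    (f : β → ℝ) (hf : ∀ b, 0 ≤ f b) :
    ∑ b ∈ S.biUnion t, f b ≤ ∑ a ∈ S, ∑ b ∈ t a, f b := by
  classical
  induction S using Finset.induction_on with
  | empty => simp
  | insert a s ha ih =>
    rw [Finset.biUnion_insert, Finset.sum_insert ha]
    have h1 := Finset.sum_union_inter (s₁ := t a) (s₂ := s.biUnion t) (f := f)
    have h2 : 0 ≤ ∑ b ∈ t a ∩ s.biUnion t, f b := Finset.sum_nonneg fun b _ => hf b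
    linarith

end Pool.Agent.U47.QE
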